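import Mathlib

set_option autoImplicit false

open scoped BigOperators
open Classical

namespace Pool.Agent.Helper82.JDP

section Counting

/-- graph of `g` -/
def gr {L b : ℕ} (g : Fin L → Fin b) : Finset (Fin L × Fin b) :=
  Finset.univ.filter (fun x => x.2 = g x.1)

lemma mem_gr {L b : ℕ} (g : Fin L → Fin b) (x : Fin L × Fin b) : x ∈ gr g ↔ x.2 = g x.1 := by
  simp [gr]

lemma card_gr {L b : ℕ} (g : Fin L → Fin b) : (gr g).card = L := by
  have : gr g = Finset.univ.image (fun i : Fin L => (i, g i)) := by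
    ext ⟨i, k⟩
    simp only [mem_gr, Finset.mem_image, Finset.mem_univ, true_and, Prod.mk.injEq]
    constructor
    · intro h; exact ⟨i, rfl, h.symm⟩
    · rintro ⟨a, rfl, h⟩; exact h.symm
  rw [this, Finset.card_image_of_injective]
  · simp
  · intro i j h
    simpa using congrArg Prod.fst h

lemma one_add_mul_le_two_pow (x : ℕ) : 1 + x ≤ 2 ^ x := by
  induction x with
  | zero => simp
  | succ n ih =>
    rw [pow_succ]
    omega

lemma add_mul_le {b : ℕ} (hb : 15 ≤ b) (x : ℕ) : b + 15 * x ≤ b * 2 ^ x := by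
  have h1 := one_add_mul_le_two_pow x
  calc b + 15 * x ≤ b + b * x := by
        have := Nat.mul_le_mul_right x hb
        omega
    _ = b * (1 + x) := by ring
    _ ≤ b * 2 ^ x := Nat.mul_le_mul_left _ h1

/-- number of graphs almost containing `B` is small -/
lemma count_graphs {L b t : ℕ} (hb : 15 ≤ b) (B : Finset (Fin L × Fin b)) (hB : t ≤ B.card) :
    2 ^ t * (Finset.univ.filter (fun g : Fin L → Fin b => 2 * (B \ gr g).card ≤ t)).card ≤ b ^ L := by
  set Q := Finset.univ.filter (fun g : Fin L → Fin b => 2 * (B \ gr g).card ≤ t) with hQ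
  have key : 4 ^ B.card * Q.card ≤ b ^ L * 2 ^ B.card := by
    calc 4 ^ B.card * Q.card = ∑ g ∈ Q, 4 ^ B.card := by
          rw [Finset.sum_const, smul_eq_mul, mul_comm]
      _ ≤ ∑ g ∈ Q, 16 ^ (B ∩ gr g).card := by
          apply Finset.sum_le_sum
          intro g hg
          have h1 : 2 * (B \ gr g).card ≤ t := by simpa [hQ] using hg
          have h2 : (B \ gr g).card + (B ∩ gr g).card = B.card := Finset.card_sdiff_add_card_inter B (gr g)
          have h3 : B.card ≤ 2 * (B ∩ gr g).card := by omega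
          calc 4 ^ B.card ≤ 4 ^ (2 * (B ∩ gr g).card) := Nat.pow_le_pow_right (by norm_num) h3
            _ = 16 ^ (B ∩ gr g).card := by rw [pow_mul]; norm_num
      _ ≤ ∑ g : Fin L → Fin b, 16 ^ (B ∩ gr g).card := by
          apply Finset.sum_le_sum_of_subset
          exact Finset.subset_univ _
      _ = ∑ g : Fin L → Fin b, ∏ i, (if (i, g i) ∈ B then 16 else 1) := by
          apply Finset.sum_congr rfl
          intro g _
          rw [Finset.prod_ite, Finset.prod_const_one, mul_one, Finset.prod_const]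
          congr 1
          refine Finset.card_bij' (fun x _ => x.1) (fun i _ => (i, g i)) ?_ ?_ ?_ ?_
          · rintro ⟨i, k⟩ h
            simp only [Finset.mem_inter, mem_gr] at h
            simp only [Finset.mem_filter, Finset.mem_univ, true_and]
            rw [← h.2]; exact h.1
          · intro i h
            simp only [Finset.mem_filter, Finset.mem_univ, true_and] at h
            simp only [Finset.mem_inter, mem_gr]
            exact ⟨h, trivial⟩
          · rintro ⟨i, k⟩ h
            simp only [Finset.mem_inter, mem_gr] at h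
            simp [h.2]
          · intro i h
            rfl
      _ = ∏ i : Fin L, ∑ k : Fin b, (if (i, k) ∈ B then 16 else 1) := by
          rw [Finset.prod_univ_sum]
          simp [Fintype.piFinset_univ]
      _ ≤ ∏ i : Fin L, (b * 2 ^ (Finset.univ.filter (fun k : Fin b => (i, k) ∈ B)).card) := by
          apply Finset.prod_le_prod'
          intro i _
          have : (∑ k : Fin b, (if (i, k) ∈ B then 16 else 1)) =
              b + 15 * (Finset.univ.filter (fun k : Fin b => (i, k) ∈ B)).card := by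
            rw [Finset.card_filter, Finset.mul_sum]
            have hb' : b = ∑ k : Fin b, 1 := by simp
            conv_rhs => rw [show b + ∑ i_1 : Fin b, 15 * (if (i, i_1) ∈ B then 1 else 0) =
              (∑ k : Fin b, 1) + ∑ i_1 : Fin b, 15 * (if (i, i_1) ∈ B then 1 else 0) from by rw [← hb']]
            rw [← Finset.sum_add_distrib]
            apply Finset.sum_congr rfl
            intro k _
            split_ifs <;> simp
          rw [this]
          exact add_mul_le hb _
      _ = b ^ L * 2 ^ B.card := by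
          rw [Finset.prod_mul_distrib, Finset.prod_pow_eq_pow_sum]
          congr 1
          · simp
          · congr 1
            rw [← Finset.card_sigma]
            refine Finset.card_bij' (fun x _ => (x.1, x.2)) (fun x _ => ⟨x.1, x.2⟩) ?_ ?_ ?_ ?_
            · rintro ⟨i, k⟩ h
              simpa using h
            · rintro ⟨i, k⟩ h
              simpa using h
            · rintro ⟨i, k⟩ h; rfl
            · rintro ⟨i, k⟩ h; rfl
  have h4 : 4 ^ B.card = 2 ^ B.card * 2 ^ B.card := by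
    rw [← mul_pow]
    norm_num
  rw [h4] at key
  have h5 : 2 ^ B.card * Q.card ≤ b ^ L := by
    have h6 : 2 ^ B.card * (2 ^ B.card * Q.card) ≤ 2 ^ B.card * b ^ L := by
      calc 2 ^ B.card * (2 ^ B.card * Q.card) = 2 ^ B.card * 2 ^ B.card * Q.card := by ring
        _ ≤ b ^ L * 2 ^ B.card := key
        _ = 2 ^ B.card * b ^ L := by ring
    exact Nat.le_of_mul_le_mul_left h6 (by positivity)
  calc 2 ^ t * Q.card ≤ 2 ^ B.card * Q.card := by
        apply Nat.mul_le_mul_right
        exact Nat.pow_le_pow_right (by norm_num) hB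
    _ ≤ b ^ L := h5

end Counting

section Prob

variable {Ω : Type*} [Fintype Ω]

/-- mass of an event -/
noncomputable def pr (w : Ω → ℝ) (E : Set Ω) : ℝ := ∑ ω, E.indicator w ω

lemma pr_nonneg {w : Ω → ℝ} (hw : ∀ ω, 0 ≤ w ω) (E : Set Ω) : 0 ≤ pr w E :=
  Finset.sum_nonneg (fun ω _ => Set.indicator_nonneg (fun x _ => hw x) ω)

lemma pr_mono {w : Ω → ℝ} (hw : ∀ ω, 0 ≤ w ω) {E F : Set Ω} (h : E ⊆ F) : pr w E ≤ pr w F :=
  Finset.sum_le_sum (fun ω _ => Set.indicator_le_indicator_of_subset h (fun x => hw x) ω)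

lemma pr_union_le {w : Ω → ℝ} (hw : ∀ ω, 0 ≤ w ω) (E F : Set Ω) :
    pr w (E ∪ F) ≤ pr w E + pr w F := by
  unfold pr
  rw [← Finset.sum_add_distrib]
  apply Finset.sum_le_sum
  intro ω _
  by_cases h1 : ω ∈ E <;> by_cases h2 : ω ∈ F <;> simp [Set.indicator, h1, h2, hw ω]

lemma pr_eq_sum_ite (w : Ω → ℝ) (E : Set Ω) : pr w E = ∑ ω, if ω ∈ E then w ω else 0 := by
  unfold pr
  apply Finset.sum_congr rfl
  intro ω _
  simp [Set.indicator]

/-- pairwise disjoint events have total mass at most that of everything -/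
lemma sum_pr_disjoint {κ : Type*} (s : Finset κ) {w : Ω → ℝ} (hw : ∀ ω, 0 ≤ w ω)
    (E : κ → Set Ω) (hE : ∀ a ∈ s, ∀ a' ∈ s, ∀ ω, ω ∈ E a → ω ∈ E a' → a = a') :
    ∑ a ∈ s, pr w (E a) ≤ ∑ ω, w ω := by
  simp only [pr_eq_sum_ite]
  rw [Finset.sum_comm]
  apply Finset.sum_le_sum
  intro ω _
  by_cases h : ∃ a ∈ s, ω ∈ E a
  · obtain ⟨a, ha, hωa⟩ := h
    rw [Finset.sum_eq_single_of_mem a ha]
    · simp [hωa]
    · intro b hb hba
      have : ω ∉ E b := fun hωb => hba (hE b hb a ha ω hωb hωa)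
      simp [this]
  · push Not at h
    rw [Finset.sum_eq_zero]
    · exact hw ω
    · intro a ha
      simp [h a ha]

end Prob

section Group

variable {ι : Type*} {m : ℕ}

/-- `E` only looks at the bundles of agents outside `R` -/
def Avoids (R : Set ι) (E : Set (ι → Finset (Fin m))) : Prop :=
  ∀ ω ω' : ι → Finset (Fin m), (∀ j, j ∉ R → ω j = ω' j) → (ω ∈ E ↔ ω' ∈ E)

lemma Avoids.mono {R R' : Set ι} {E : Set (ι → Finset (Fin m))} (h : Avoids R E) (hR : R' ⊆ R) :
    Avoids R' E := by
  intro ω ω' hω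
  apply h
  intro j hj
  exact hω j (fun hj' => hj (hR hj'))

variable [DecidableEq ι] [Fintype (ι → Finset (Fin m))]

/-- (eps, delta) joint privacy for a family of weights -/
def JPriv (ε δ : ℝ) (μ : (ι → Option (Fin m)) → (ι → Finset (Fin m)) → ℝ) : Prop :=
  ∀ (τ : ι → Option (Fin m)) (i : ι) (o : Option (Fin m)) (E : Set (ι → Finset (Fin m))),
    Avoids {i} E → pr (μ τ) E ≤ Real.exp ε * pr (μ (Function.update τ i o)) E + δ

lemma group_privacy {ε δ : ℝ} (hε : 0 ≤ ε) (hδ : 0 ≤ δ)
    {μ : (ι → Option (Fin m)) → (ι → Finset (Fin m)) → ℝ} (hμ : JPriv ε δ μ)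
    (E : Set (ι → Finset (Fin m))) (R : Finset ι) :
    ∀ (τ τ' : ι → Option (Fin m)), (∀ j, j ∉ R → τ j = τ' j) → Avoids (R : Set ι) E →
      pr (μ τ) E ≤ Real.exp (ε * R.card) * pr (μ τ') E + R.card * Real.exp (ε * R.card) * δ := by
  induction R using Finset.induction_on with
  | empty =>
    intro τ τ' h _
    have : τ = τ' := funext (fun j => h j (by simp))
    subst this
    simp
  | insert a R ha ih =>
    intro τ τ' h hE
    have hE' : Avoids (R : Set ι) E := hE.mono (by simp)
    have hE1 : Avoids ({a} : Set ι) E := hE.mono (by simp)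
    have h1 := hμ τ a (τ' a) E hE1
    have h2 := ih (Function.update τ a (τ' a)) τ' (by
      intro j hj
      by_cases hja : j = a
      · subst hja; simp
      · rw [Function.update_of_ne hja]
        apply h
        simp [hja, hj]) hE'
    rw [Finset.card_insert_of_notMem ha]
    push_cast
    have e1 : Real.exp (ε * ((R.card : ℝ) + 1)) = Real.exp ε * Real.exp (ε * R.card) := by
      rw [← Real.exp_add]; congr 1; ring
    have e2 : 1 ≤ Real.exp (ε * ((R.card : ℝ) + 1)) := by
      apply Real.one_le_exp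
      positivity
    calc pr (μ τ) E ≤ Real.exp ε * pr (μ (Function.update τ a (τ' a))) E + δ := h1
      _ ≤ Real.exp ε * (Real.exp (ε * R.card) * pr (μ τ') E + R.card * Real.exp (ε * R.card) * δ) + δ := by
          have := mul_le_mul_of_nonneg_left h2 (Real.exp_pos ε).le
          linarith
      _ = Real.exp (ε * ((R.card : ℝ) + 1)) * pr (μ τ') E
            + R.card * Real.exp (ε * ((R.card : ℝ) + 1)) * δ + δ := by
          rw [e1]; ring
      _ ≤ Real.exp (ε * ((R.card : ℝ) + 1)) * pr (μ τ') E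
            + ((R.card : ℝ) + 1) * Real.exp (ε * ((R.card : ℝ) + 1)) * δ := by
          have : δ ≤ Real.exp (ε * ((R.card : ℝ) + 1)) * δ := by
            have := mul_le_mul_of_nonneg_right e2 hδ
            linarith
          linarith

end Group

section Core

variable {m t b : ℕ}

/-- value of a bundle for a single-minded agent -/
noncomputable def val {m : ℕ} (o : Option (Fin m)) (S : Finset (Fin m)) : ℝ :=
  match o with
  | none => 0
  | some j => if j ∈ S then 1 else 0

/-- feasibility with supply `s` of every item -/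
def Feas {ι : Type*} [Fintype ι] {m : ℕ} (s : ℕ) (ω : ι → Finset (Fin m)) : Prop :=
  ∀ j : Fin m, (Finset.univ.filter (fun k => j ∈ ω k)).card ≤ s

/-- good outputs -/
def Good {ι : Type*} [Fintype ι] {m : ℕ} (s : ℕ) (α : ℝ) (τ : ι → Option (Fin m)) :
    Set (ι → Finset (Fin m)) :=
  {ω | Feas s ω ∧ ∀ ω' : ι → Finset (Fin m), Feas s ω' →
    ∑ k, val (τ k) (ω' k) - α * Fintype.card ι ≤ ∑ k, val (τ k) (ω k)}

abbrev Ag (m t b : ℕ) := Fin m × (Fin (2 * t) × Fin b)

/-- profile: items in `H` are wanted by all agents of their group, the others by all agents off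
the graph. -/
noncomputable def prof (H : Finset (Fin m)) (f : Fin m → Fin (2 * t) → Fin b) :
    Ag m t b → Option (Fin m) :=
  fun x => if x.1 ∉ H ∧ x.2 ∈ gr (f x.1) then none else some x.1

/-- served agents of the group of `a` -/
noncomputable def T (ω : Ag m t b → Finset (Fin m)) (a : Fin m) : Finset (Fin (2 * t) × Fin b) :=
  Finset.univ.filter (fun x => a ∈ ω (a, x))

/-- unserved agents of the group of `a` -/
noncomputable def B (ω : Ag m t b → Finset (Fin m)) (a : Fin m) : Finset (Fin (2 * t) × Fin b) :=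
  Finset.univ.filter (fun x => a ∉ ω (a, x))

lemma T_add_B (ω : Ag m t b → Finset (Fin m)) (a : Fin m) :
    (T ω a).card + (B ω a).card = 2 * t * b := by
  unfold T B
  rw [Finset.card_filter_add_card_filter_not]
  simp

lemma T_le_of_feas {s : ℕ} {ω : Ag m t b → Finset (Fin m)} (h : Feas s ω) (a : Fin m) :
    (T ω a).card ≤ s := by
  refine le_trans ?_ (h a)
  unfold T
  apply Finset.card_le_card_of_injOn (fun x => (a, x))
  · intro x hx
    simpa using hx
  · intro x _ y _ hxy
    simpa using hxy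

/-- key event -/
def Ev (s : ℕ) (H : Finset (Fin m)) (a : Fin m) (g : Fin (2 * t) → Fin b) :
    Set (Ag m t b → Finset (Fin m)) :=
  {ω | (∀ c ∈ H, c ≠ a → (T ω c).card ≤ s) ∧ 2 * (B ω a \ gr g).card ≤ t}

/-- the agents that get switched on -/
noncomputable def Sw (a : Fin m) (g : Fin (2 * t) → Fin b) : Finset (Ag m t b) :=
  (gr g).image (fun x => (a, x))

lemma card_Sw (a : Fin m) (g : Fin (2 * t) → Fin b) : (Sw a g).card = 2 * t := by
  unfold Sw
  rw [Finset.card_image_of_injective, card_gr]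
  intro x y h
  simpa using h

lemma mem_Sw (a : Fin m) (g : Fin (2 * t) → Fin b) (x : Ag m t b) :
    x ∈ Sw a g ↔ x.1 = a ∧ x.2 ∈ gr g := by
  unfold Sw
  simp only [Finset.mem_image]
  constructor
  · rintro ⟨y, hy, rfl⟩
    exact ⟨rfl, hy⟩
  · rintro ⟨h1, h2⟩
    exact ⟨x.2, h2, by rw [← h1]⟩

lemma Ev_avoids (s : ℕ) (H : Finset (Fin m)) (a : Fin m) (g : Fin (2 * t) → Fin b) :
    Avoids ((Sw a g : Finset (Ag m t b)) : Set (Ag m t b)) (Ev s H a g) := by
  have key : ∀ ω ω' : Ag m t b → Finset (Fin m),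
      (∀ j, j ∉ ((Sw a g : Finset (Ag m t b)) : Set (Ag m t b)) → ω j = ω' j) →
      ω ∈ Ev s H a g → ω' ∈ Ev s H a g := by
    intro ω ω' h hω
    refine ⟨?_, ?_⟩
    · intro c hc hca
      have : T ω' c = T ω c := by
        unfold T
        apply Finset.filter_congr
        intro x _
        rw [h (c, x)]
        simp [mem_Sw, hca]
      rw [this]
      exact hω.1 c hc hca
    · have : B ω' a \ gr g = B ω a \ gr g := by
        unfold B
        ext x
        simp only [Finset.mem_sdiff, Finset.mem_filter, Finset.mem_univ, true_and]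
        by_cases hx : x ∈ gr g
        · simp [hx]
        · rw [h (a, x)]
          simp [mem_Sw, hx]
      rw [this]
      exact hω.2
  intro ω ω' h
  exact ⟨key ω ω' h, key ω' ω (fun j hj => (h j hj).symm)⟩

lemma prof_insert_agree (H : Finset (Fin m)) (f : Fin m → Fin (2 * t) → Fin b) (a : Fin m) :
    ∀ j, j ∉ Sw a (f a) → prof H f j = prof (insert a H) f j := by
  intro j hj
  rw [mem_Sw] at hj
  unfold prof
  by_cases hja : j.1 = a
  · have : j.2 ∉ gr (f a) := fun h => hj ⟨hja, h⟩
    rw [hja]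
    simp [this]
  · simp [hja]

end Core

section Light

variable {m t b : ℕ}

lemma welfare_eq (H : Finset (Fin m)) (f : Fin m → Fin (2 * t) → Fin b)
    (ω : Ag m t b → Finset (Fin m)) :
    ∑ k : Ag m t b, val (prof H f k) (ω k) =
      ∑ a, (if a ∈ H then ((T ω a).card : ℝ) else ((T ω a \ gr (f a)).card : ℝ)) := by
  rw [Fintype.sum_prod_type]
  apply Finset.sum_congr rfl
  intro a _
  split_ifs with ha
  · unfold T
    rw [Finset.card_filter]
    push_cast
    apply Finset.sum_congr rfl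
    intro x _
    have : prof H f (a, x) = some a := by
      unfold prof
      simp [ha]
    rw [this]
    simp [val]
  · have h1 : T ω a \ gr (f a) = Finset.univ.filter (fun x => a ∈ ω (a, x) ∧ x ∉ gr (f a)) := by
      unfold T
      ext x
      simp
    rw [h1, Finset.card_filter]
    push_cast
    apply Finset.sum_congr rfl
    intro x _
    unfold prof
    by_cases hx : x ∈ gr (f a)
    · simp [ha, hx, val]
    · simp [ha, hx, val]

lemma exists_C (hb : 1 ≤ b) : ∃ C : Finset (Fin (2 * t) × Fin b), C.card = (2 * b - 1) * t := by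
  have h : (2 * b - 1) * t ≤ (Finset.univ : Finset (Fin (2 * t) × Fin b)).card := by
    simp only [Finset.card_univ, Fintype.card_prod, Fintype.card_fin]
    calc (2 * b - 1) * t ≤ (2 * b) * t := Nat.mul_le_mul_right _ (by omega)
      _ = 2 * t * b := by ring
  obtain ⟨C, _, hC⟩ := Finset.exists_subset_card_eq h
  exact ⟨C, hC⟩

lemma opt_lower (hb : 1 ≤ b) (H : Finset (Fin m)) (f : Fin m → Fin (2 * t) → Fin b) :
    ∃ ω' : Ag m t b → Finset (Fin m), Feas ((2 * b - 1) * t) ω' ∧
      ∑ k : Ag m t b, val (prof H f k) (ω' k) =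
        ∑ a : Fin m, (if a ∈ H then (((2 * b - 1) * t : ℕ) : ℝ) else ((2 * t * b - 2 * t : ℕ) : ℝ)) := by
  obtain ⟨C, hC⟩ := exists_C (t := t) hb
  let ω' : Ag m t b → Finset (Fin m) := fun k =>
    if (k.1 ∈ H ∧ k.2 ∈ C) ∨ (k.1 ∉ H ∧ k.2 ∉ gr (f k.1)) then {k.1} else ∅
  have hmem : ∀ (j : Fin m) (k : Ag m t b), j ∈ ω' k ↔
      k.1 = j ∧ ((j ∈ H ∧ k.2 ∈ C) ∨ (j ∉ H ∧ k.2 ∉ gr (f j))) := by
    intro j k
    simp only [ω']
    split_ifs with h
    · simp only [Finset.mem_singleton]
      constructor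
      · rintro rfl
        exact ⟨rfl, h⟩
      · rintro ⟨h1, _⟩
        exact h1.symm
    · constructor
      · intro h'; simp at h'
      · rintro ⟨h1, h2⟩
        subst h1
        exact absurd h2 h
  have hT : ∀ a, T ω' a = if a ∈ H then C else (gr (f a))ᶜ := by
    intro a
    unfold T
    ext x
    simp only [Finset.mem_filter, Finset.mem_univ, true_and, hmem]
    by_cases ha : a ∈ H <;> simp [ha]
  have hcompl : ∀ a, ((gr (f a))ᶜ).card = 2 * t * b - 2 * t := by
    intro a
    rw [Finset.card_compl, card_gr]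
    simp
  refine ⟨ω', ?_, ?_⟩
  · intro j
    have h1 : (Finset.univ.filter (fun k : Ag m t b => j ∈ ω' k)) = (T ω' j).image (fun x => (j, x)) := by
      ext ⟨a, x⟩
      simp only [Finset.mem_filter, Finset.mem_univ, true_and, Finset.mem_image, T, Prod.mk.injEq]
      constructor
      · intro h
        have := (hmem j (a, x)).1 h
        simp only at this
        refine ⟨x, ?_, this.1.symm, rfl⟩
        rw [← this.1] at h ⊢
        exact h
      · rintro ⟨y, hy, rfl, rfl⟩
        exact hy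
    rw [h1, Finset.card_image_of_injective _ (fun x y h => by simpa using h), hT]
    split_ifs
    · rw [hC]
    · rw [hcompl]
      have : 2 * t * b - 2 * t ≤ (2 * b - 1) * t := by
        have e1 : (2 * b - 1) * t = 2 * b * t - t := by
          rw [Nat.sub_mul]; simp
        rw [e1]
        have e2 : 2 * t * b = 2 * b * t := by ring
        rw [e2]
        omega
      exact this
  · rw [welfare_eq]
    apply Finset.sum_congr rfl
    intro a _
    split_ifs with ha
    · rw [hT, if_pos ha, hC]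
    · rw [hT, if_neg ha, ← hcompl a]
      congr 2
      ext x
      simp

lemma good_loss (hb : 1 ≤ b) {α : ℝ} (H : Finset (Fin m)) (f : Fin m → Fin (2 * t) → Fin b)
    (ω : Ag m t b → Finset (Fin m)) (hω : ω ∈ Good ((2 * b - 1) * t) α (prof H f)) :
    ∑ a ∈ Hᶜ, ((B ω a \ gr (f a)).card : ℝ) ≤ α * (m * (2 * t * b)) := by
  obtain ⟨hfeas, hopt⟩ := hω
  obtain ⟨ω', hω'f, hω'w⟩ := opt_lower (t := t) hb H f
  have h1 := hopt ω' hω'f
  rw [hω'w, welfare_eq] at h1
  have hcard : (Fintype.card (Ag m t b) : ℝ) = m * (2 * t * b) := by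
    simp [Ag]
  rw [hcard] at h1
  have hlight : ∀ a, ((T ω a \ gr (f a)).card : ℝ) + ((B ω a \ gr (f a)).card : ℝ) =
      ((2 * t * b - 2 * t : ℕ) : ℝ) := by
    intro a
    have hcompl : ((gr (f a))ᶜ).card = 2 * t * b - 2 * t := by
      rw [Finset.card_compl, card_gr]
      simp
    rw [← hcompl, ← Nat.cast_add, ← Finset.card_union_of_disjoint]
    · congr 2
      ext x
      simp only [T, B, Finset.mem_union, Finset.mem_sdiff, Finset.mem_filter, Finset.mem_univ,
        true_and, Finset.mem_compl]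
      tauto
    · rw [Finset.disjoint_left]
      intro x hx hx'
      simp only [T, B, Finset.mem_sdiff, Finset.mem_filter, Finset.mem_univ, true_and] at hx hx'
      exact hx'.1 hx.1
  have h2 : ∀ a : Fin m, (if a ∈ H then ((T ω a).card : ℝ) else ((T ω a \ gr (f a)).card : ℝ)) ≤
      (if a ∈ H then (((2 * b - 1) * t : ℕ) : ℝ) else ((2 * t * b - 2 * t : ℕ) : ℝ))
        - (if a ∈ H then 0 else ((B ω a \ gr (f a)).card : ℝ)) := by
    intro a
    split_ifs with ha
    · have := T_le_of_feas hfeas a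
      have : ((T ω a).card : ℝ) ≤ (((2 * b - 1) * t : ℕ) : ℝ) := by exact_mod_cast this
      linarith
    · have := hlight a
      linarith
  have h3 := Finset.sum_le_sum (fun a (_ : a ∈ (Finset.univ : Finset (Fin m))) => h2 a)
  rw [Finset.sum_sub_distrib] at h3
  have h4 : ∑ a : Fin m, (if a ∈ H then (0:ℝ) else ((B ω a \ gr (f a)).card : ℝ)) =
      ∑ a ∈ Hᶜ, ((B ω a \ gr (f a)).card : ℝ) := by
    rw [← Finset.sum_filter_add_sum_filter_not Finset.univ (fun a => a ∈ H)]
    rw [Finset.sum_eq_zero, zero_add]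
    · have : Finset.univ.filter (fun a : Fin m => ¬ a ∈ H) = Hᶜ := by ext; simp
      rw [this]
      apply Finset.sum_congr rfl
      intro a ha
      have : a ∉ H := by simpa using ha
      simp [this]
    · intro a ha
      have : a ∈ H := by simpa using ha
      simp [this]
  rw [h4] at h3
  linarith

/-- pointwise count of good light items -/
lemma good_count (hb : 1 ≤ b) (ht : 1 ≤ t) {α : ℝ} (H : Finset (Fin m))
    (f : Fin m → Fin (2 * t) → Fin b)
    (ω : Ag m t b → Finset (Fin m)) (hω : ω ∈ Good ((2 * b - 1) * t) α (prof H f)) :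
    (Hᶜ.card : ℝ) - 4 * α * b * m ≤
      ∑ a ∈ Hᶜ, (if ω ∈ Ev ((2 * b - 1) * t) H a (f a) then (1:ℝ) else 0) := by
  have h1 := good_loss hb H f ω hω
  have ht' : (0:ℝ) < t := by exact_mod_cast ht
  have h2 : ∀ a ∈ Hᶜ, (1:ℝ) - 2 * ((B ω a \ gr (f a)).card : ℝ) / t ≤
      (if ω ∈ Ev ((2 * b - 1) * t) H a (f a) then (1:ℝ) else 0) := by
    intro a _
    split_ifs with h
    · have : (0:ℝ) ≤ 2 * ((B ω a \ gr (f a)).card : ℝ) / t := by positivity
      linarith
    · have h3 : t < 2 * (B ω a \ gr (f a)).card := by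
        by_contra hcon
        apply h
        refine ⟨fun c _ _ => T_le_of_feas hω.1 c, by omega⟩
      have h4 : (t:ℝ) < 2 * ((B ω a \ gr (f a)).card : ℝ) := by exact_mod_cast h3
      have h5 : (1:ℝ) ≤ 2 * ((B ω a \ gr (f a)).card : ℝ) / t := by
        rw [le_div_iff₀ ht']
        linarith
      linarith
  have h3 := Finset.sum_le_sum h2
  refine le_trans ?_ h3
  rw [Finset.sum_sub_distrib]
  have h4 : ∑ a ∈ Hᶜ, 2 * ((B ω a \ gr (f a)).card : ℝ) / t =
      (2 / t) * ∑ a ∈ Hᶜ, ((B ω a \ gr (f a)).card : ℝ) := by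
    rw [Finset.mul_sum]
    apply Finset.sum_congr rfl
    intro a _
    ring
  rw [h4]
  have h5 : (2 / (t:ℝ)) * ∑ a ∈ Hᶜ, ((B ω a \ gr (f a)).card : ℝ) ≤ (2 / (t:ℝ)) * (α * (m * (2 * t * b))) :=
    mul_le_mul_of_nonneg_left h1 (by positivity)
  have h6 : (2 / (t:ℝ)) * (α * (m * (2 * t * b))) = 4 * α * b * m := by
    field_simp
    ring
  simp only [Finset.sum_const, nsmul_eq_mul, mul_one]
  linarith

lemma light_sum (hb : 1 ≤ b) (ht : 1 ≤ t) {α β : ℝ} (hβ : β ≤ 1) (H : Finset (Fin m))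
    (f : Fin m → Fin (2 * t) → Fin b)
    (w : (Ag m t b → Finset (Fin m)) → ℝ) (hw : ∀ ω, 0 ≤ w ω)
    (hg : 1 - β ≤ pr w (Good ((2 * b - 1) * t) α (prof H f))) :
    (1 - β) * ((Hᶜ.card : ℝ) - 4 * α * b * m) ≤
      ∑ a ∈ Hᶜ, pr w (Ev ((2 * b - 1) * t) H a (f a)) := by
  by_cases hneg : (Hᶜ.card : ℝ) - 4 * α * b * m ≤ 0
  · have h1 : (1 - β) * ((Hᶜ.card : ℝ) - 4 * α * b * m) ≤ 0 :=
      mul_nonpos_of_nonneg_of_nonpos (by linarith) hneg
    have h2 : 0 ≤ ∑ a ∈ Hᶜ, pr w (Ev ((2 * b - 1) * t) H a (f a)) :=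
      Finset.sum_nonneg (fun a _ => pr_nonneg hw _)
    linarith
  · push Not at hneg
    calc (1 - β) * ((Hᶜ.card : ℝ) - 4 * α * b * m)
        ≤ pr w (Good ((2 * b - 1) * t) α (prof H f)) * ((Hᶜ.card : ℝ) - 4 * α * b * m) :=
          mul_le_mul_of_nonneg_right hg hneg.le
      _ = ∑ ω, (if ω ∈ Good ((2 * b - 1) * t) α (prof H f) then w ω else 0) *
            ((Hᶜ.card : ℝ) - 4 * α * b * m) := by
          rw [pr_eq_sum_ite, Finset.sum_mul]
      _ ≤ ∑ ω, ∑ a ∈ Hᶜ, (if ω ∈ Ev ((2 * b - 1) * t) H a (f a) then w ω else 0) := by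
          apply Finset.sum_le_sum
          intro ω _
          split_ifs with h
          · have h1 := good_count hb ht H f ω h
            calc w ω * ((Hᶜ.card : ℝ) - 4 * α * b * m) ≤
                w ω * ∑ a ∈ Hᶜ, (if ω ∈ Ev ((2 * b - 1) * t) H a (f a) then (1:ℝ) else 0) :=
                  mul_le_mul_of_nonneg_left h1 (hw ω)
              _ = ∑ a ∈ Hᶜ, (if ω ∈ Ev ((2 * b - 1) * t) H a (f a) then w ω else 0) := by
                  rw [Finset.mul_sum]
                  apply Finset.sum_congr rfl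
                  intro a _
                  split_ifs <;> simp
          · rw [zero_mul]
            apply Finset.sum_nonneg
            intro a _
            split_ifs
            · exact hw ω
            · exact le_rfl
      _ = ∑ a ∈ Hᶜ, pr w (Ev ((2 * b - 1) * t) H a (f a)) := by
          rw [Finset.sum_comm]
          apply Finset.sum_congr rfl
          intro a _
          rw [pr_eq_sum_ite]

end Light

section Heavy

variable {m t b : ℕ}

/-- item `a` is over-allocated but no other heavy item is -/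
def Dv (s : ℕ) (H : Finset (Fin m)) (a : Fin m) : Set (Ag m t b → Finset (Fin m)) :=
  {ω | s < (T ω a).card ∧ ∀ c ∈ H, c ≠ a → (T ω c).card ≤ s}

/-- item `a` is not over-allocated but the agents off the graph are nearly all served -/
def Qv (s : ℕ) (a : Fin m) (g : Fin (2 * t) → Fin b) : Set (Ag m t b → Finset (Fin m)) :=
  {ω | (T ω a).card ≤ s ∧ 2 * (B ω a \ gr g).card ≤ t}

lemma Ev_subset (s : ℕ) (H : Finset (Fin m)) (a : Fin m) (g : Fin (2 * t) → Fin b) :
    Ev s H a g ⊆ Dv s H a ∪ Qv s a g := by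
  intro ω hω
  by_cases h : s < (T ω a).card
  · left; exact ⟨h, hω.1⟩
  · right; exact ⟨by omega, hω.2⟩

lemma Ev_insert (s : ℕ) (H : Finset (Fin m)) (a : Fin m) (g : Fin (2 * t) → Fin b) :
    Ev s (insert a H) a g = Ev s H a g := by
  ext ω
  constructor
  · rintro ⟨h1, h2⟩
    exact ⟨fun c hc hca => h1 c (by simp [hc]) hca, h2⟩
  · rintro ⟨h1, h2⟩
    refine ⟨fun c hc hca => h1 c ?_ hca, h2⟩
    simpa [hca] using hc

lemma sum_reindex (G : Finset (Fin m) → Fin m → ℝ) :
    ∑ H : Finset (Fin m), ∑ a ∈ Hᶜ, G (insert a H) a = ∑ H : Finset (Fin m), ∑ a ∈ H, G H a := by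
  have e1 : ∀ H : Finset (Fin m), ∑ a ∈ Hᶜ, G (insert a H) a =
      ∑ a : Fin m, if a ∉ H then G (insert a H) a else 0 := by
    intro H
    rw [← Finset.sum_filter]
    apply Finset.sum_congr _ (fun _ _ => rfl)
    ext; simp
  have e2 : ∀ H : Finset (Fin m), ∑ a ∈ H, G H a =
      ∑ a : Fin m, if a ∈ H then G H a else 0 := by
    intro H
    rw [← Finset.sum_filter]
    apply Finset.sum_congr _ (fun _ _ => rfl)
    ext; simp
  simp only [e1, e2]
  rw [Finset.sum_comm]
  rw [Finset.sum_comm (s := (Finset.univ : Finset (Finset (Fin m)))) (t := Finset.univ)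
    (f := fun H a => if a ∈ H then G H a else 0)]
  apply Finset.sum_congr rfl
  intro a _
  rw [← Finset.sum_filter, ← Finset.sum_filter]
  refine Finset.sum_bij' (fun H _ => insert a H) (fun H _ => H.erase a) ?_ ?_ ?_ ?_ ?_
  · intro H hH; simp
  · intro H hH; simp
  · intro H hH
    have : a ∉ H := by simpa using hH
    simp [this]
  · intro H hH
    have : a ∈ H := by simpa using hH
    exact Finset.insert_erase this
  · intro H hH
    rfl

lemma sum_card : ∑ H : Finset (Fin m), (H.card : ℝ) = (m : ℝ) / 2 * 2 ^ m := by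
  have h1 : ∑ H : Finset (Fin m), (H.card : ℝ) = ∑ H : Finset (Fin m), (Hᶜ.card : ℝ) := by
    refine Finset.sum_bij' (fun H _ => Hᶜ) (fun H _ => Hᶜ) ?_ ?_ ?_ ?_ ?_ <;> simp
  have h2 : ∑ H : Finset (Fin m), ((H.card : ℝ) + (Hᶜ.card : ℝ)) = (m : ℝ) * 2 ^ m := by
    have : ∀ H : Finset (Fin m), ((H.card : ℝ) + (Hᶜ.card : ℝ)) = m := by
      intro H
      rw [← Nat.cast_add, Finset.card_add_card_compl]
      simp
    simp only [this]
    simp [mul_comm]
  rw [Finset.sum_add_distrib, ← h1] at h2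
  linarith

lemma sum_card_compl : ∑ H : Finset (Fin m), (Hᶜ.card : ℝ) = (m : ℝ) / 2 * 2 ^ m := by
  rw [← sum_card]
  refine Finset.sum_bij' (fun H _ => Hᶜ) (fun H _ => Hᶜ) ?_ ?_ ?_ ?_ ?_ <;> simp

lemma prof_update (H : Finset (Fin m)) (f : Fin m → Fin (2 * t) → Fin b) (a : Fin m) (ha : a ∈ H)
    (g : Fin (2 * t) → Fin b) : prof H (Function.update f a g) = prof H f := by
  funext x
  unfold prof
  by_cases hx : x.1 = a
  · rw [hx]; simp [ha]
  · rw [Function.update_of_ne hx]

lemma symmetrize (a : Fin m)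
    (G : (Fin m → Fin (2 * t) → Fin b) → (Fin (2 * t) → Fin b) → ℝ)
    (hG : ∀ f g g', G (Function.update f a g') g = G f g) :
    (Fintype.card (Fin (2 * t) → Fin b) : ℝ) * ∑ f, G f (f a) = ∑ f, ∑ g, G f g := by
  have h1 : ∑ f, ∑ g, G f g = ∑ x : (Fin m → Fin (2 * t) → Fin b) × (Fin (2 * t) → Fin b),
      G (Function.update x.1 a x.2) (Function.update x.1 a x.2 a) := by
    rw [Fintype.sum_prod_type]
    apply Finset.sum_congr rfl
    intro f _
    apply Finset.sum_congr rfl
    intro g _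
    simp [hG]
  have h2 : ∑ x : (Fin m → Fin (2 * t) → Fin b) × (Fin (2 * t) → Fin b),
      G (Function.update x.1 a x.2) (Function.update x.1 a x.2 a) =
      ∑ x : (Fin m → Fin (2 * t) → Fin b) × (Fin (2 * t) → Fin b), G x.1 (x.1 a) := by
    refine Finset.sum_bij' (fun x _ => (Function.update x.1 a x.2, x.1 a))
      (fun x _ => (Function.update x.1 a x.2, x.1 a)) ?_ ?_ ?_ ?_ ?_
    · intro x _; simp
    · intro x _; simp
    · intro x _; simp
    · intro x _; simp
    · intro x _; rfl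
  rw [h1, h2, Fintype.sum_prod_type]
  simp only [Finset.sum_const, nsmul_eq_mul, Finset.card_univ]
  rw [Finset.mul_sum]

lemma sum_Q_le (hb : 15 ≤ b) (a : Fin m)
    (w : (Ag m t b → Finset (Fin m)) → ℝ) (hw : ∀ ω, 0 ≤ w ω) (hw1 : ∑ ω, w ω ≤ 1) :
    ∑ g : Fin (2 * t) → Fin b, pr w (Qv ((2 * b - 1) * t) a g) ≤
      (Fintype.card (Fin (2 * t) → Fin b) : ℝ) * (1 / 2 ^ t) := by
  have hcard : (Fintype.card (Fin (2 * t) → Fin b) : ℝ) = (b : ℝ) ^ (2 * t) := by
    simp
  rw [hcard]
  simp only [pr_eq_sum_ite]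
  rw [Finset.sum_comm]
  have h1 : ∀ ω : Ag m t b → Finset (Fin m),
      ∑ g : Fin (2 * t) → Fin b, (if ω ∈ Qv ((2 * b - 1) * t) a g then w ω else 0) ≤
        w ω * ((b : ℝ) ^ (2 * t) * (1 / 2 ^ t)) := by
    intro ω
    by_cases hT : (T ω a).card ≤ (2 * b - 1) * t
    · have hB : t ≤ (B ω a).card := by
        have h := T_add_B ω a
        have e1 : (2 * b - 1) * t = 2 * b * t - t := by
          rw [Nat.sub_mul]; simp
        have e2 : 2 * t * b = 2 * b * t := by ring
        have e3 : t ≤ 2 * b * t := by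
          calc t = 1 * t := by ring
            _ ≤ 2 * b * t := Nat.mul_le_mul_right _ (by omega)
        rw [e1] at hT
        rw [e2] at h
        omega
      have hc := count_graphs hb (B ω a) hB
      have hc' : (2:ℝ) ^ t * ((Finset.univ.filter
          (fun g : Fin (2 * t) → Fin b => 2 * (B ω a \ gr g).card ≤ t)).card : ℝ) ≤ (b : ℝ) ^ (2 * t) := by
        exact_mod_cast hc
      have h2 : ∑ g : Fin (2 * t) → Fin b, (if ω ∈ Qv ((2 * b - 1) * t) a g then w ω else 0) =
          w ω * ((Finset.univ.filter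
          (fun g : Fin (2 * t) → Fin b => 2 * (B ω a \ gr g).card ≤ t)).card : ℝ) := by
        rw [← Finset.sum_filter, Finset.sum_const, nsmul_eq_mul, mul_comm]
        congr 3
        ext g
        simp [Qv, hT]
      rw [h2]
      apply mul_le_mul_of_nonneg_left _ (hw ω)
      rw [mul_one_div, le_div_iff₀ (by positivity)]
      linarith
    · have : ∀ g : Fin (2 * t) → Fin b, ω ∉ Qv ((2 * b - 1) * t) a g := fun g h => hT h.1
      simp only [this, if_false, Finset.sum_const_zero]
      have := hw ω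
      positivity
  calc ∑ ω : Ag m t b → Finset (Fin m), ∑ g : Fin (2 * t) → Fin b,
        (if ω ∈ Qv ((2 * b - 1) * t) a g then w ω else 0)
      ≤ ∑ ω : Ag m t b → Finset (Fin m), w ω * ((b : ℝ) ^ (2 * t) * (1 / 2 ^ t)) :=
        Finset.sum_le_sum (fun ω _ => h1 ω)
    _ = (∑ ω, w ω) * ((b : ℝ) ^ (2 * t) * (1 / 2 ^ t)) := by rw [Finset.sum_mul]
    _ ≤ 1 * ((b : ℝ) ^ (2 * t) * (1 / 2 ^ t)) := by
        apply mul_le_mul_of_nonneg_right hw1
        positivity
    _ = (b : ℝ) ^ (2 * t) * (1 / 2 ^ t) := by ring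

lemma sum_D_le (s : ℕ) (H : Finset (Fin m))
    (w : (Ag m t b → Finset (Fin m)) → ℝ) (hw : ∀ ω, 0 ≤ w ω) (hw1 : ∑ ω, w ω ≤ 1) :
    ∑ a ∈ H, pr w (Dv s H a) ≤ 1 := by
  refine le_trans (sum_pr_disjoint H hw (fun a => Dv s H a) ?_) hw1
  intro a ha a' ha' ω h1 h2
  by_contra hne
  have := h2.2 a ha hne
  have := h1.1
  omega

/-- heavy side -/
lemma heavy_sum (hb : 15 ≤ b)
    (μ : (Ag m t b → Option (Fin m)) → (Ag m t b → Finset (Fin m)) → ℝ)
    (hw : ∀ τ ω, 0 ≤ μ τ ω) (hw1 : ∀ τ, ∑ ω, μ τ ω ≤ 1) :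
    ∑ f : Fin m → Fin (2 * t) → Fin b, ∑ H : Finset (Fin m), ∑ a ∈ H,
      pr (μ (prof H f)) (Ev ((2 * b - 1) * t) H a (f a)) ≤
    (Fintype.card (Fin m → Fin (2 * t) → Fin b) : ℝ) * 2 ^ m * (1 + (m : ℝ) / 2 * (1 / 2 ^ t)) := by
  set s := (2 * b - 1) * t with hs
  have hpos : (0:ℝ) < (Fintype.card (Fin (2 * t) → Fin b) : ℝ) := by
    have : 0 < b := by omega
    have : Nonempty (Fin b) := ⟨⟨0, this⟩⟩
    exact_mod_cast Fintype.card_pos
  calc ∑ f : Fin m → Fin (2 * t) → Fin b, ∑ H : Finset (Fin m), ∑ a ∈ H,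
      pr (μ (prof H f)) (Ev s H a (f a))
      ≤ ∑ f : Fin m → Fin (2 * t) → Fin b, ∑ H : Finset (Fin m), ∑ a ∈ H,
          (pr (μ (prof H f)) (Dv s H a) + pr (μ (prof H f)) (Qv s a (f a))) := by
        apply Finset.sum_le_sum; intro f _
        apply Finset.sum_le_sum; intro H _
        apply Finset.sum_le_sum; intro a _
        exact le_trans (pr_mono (hw _) (Ev_subset s H a (f a))) (pr_union_le (hw _) _ _)
    _ = (∑ f : Fin m → Fin (2 * t) → Fin b, ∑ H : Finset (Fin m), ∑ a ∈ H,
          pr (μ (prof H f)) (Dv s H a)) +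
        ∑ f : Fin m → Fin (2 * t) → Fin b, ∑ H : Finset (Fin m), ∑ a ∈ H,
          pr (μ (prof H f)) (Qv s a (f a)) := by
        simp only [Finset.sum_add_distrib]
    _ ≤ (∑ f : Fin m → Fin (2 * t) → Fin b, ∑ H : Finset (Fin m), 1) +
        ∑ H : Finset (Fin m), ∑ a ∈ H,
          (Fintype.card (Fin m → Fin (2 * t) → Fin b) : ℝ) * (1 / 2 ^ t) := by
        apply add_le_add
        · apply Finset.sum_le_sum; intro f _
          apply Finset.sum_le_sum; intro H _
          exact sum_D_le s H _ (hw _) (hw1 _)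
        · rw [Finset.sum_comm]
          apply Finset.sum_le_sum; intro H _
          rw [Finset.sum_comm]
          apply Finset.sum_le_sum; intro a ha
          have hsym := symmetrize (t := t) (b := b) a
            (fun f g => pr (μ (prof H f)) (Qv s a g)) (by
              intro f g g'
              rw [prof_update H f a ha g'])
          have h2 : ∑ f : Fin m → Fin (2 * t) → Fin b, ∑ g : Fin (2 * t) → Fin b,
              pr (μ (prof H f)) (Qv s a g) ≤
              ∑ f : Fin m → Fin (2 * t) → Fin b,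
                (Fintype.card (Fin (2 * t) → Fin b) : ℝ) * (1 / 2 ^ t) := by
            apply Finset.sum_le_sum; intro f _
            exact sum_Q_le hb a _ (hw _) (hw1 _)
          rw [← hsym] at h2
          simp only [Finset.sum_const, nsmul_eq_mul, Finset.card_univ] at h2
          have h3 : (Fintype.card (Fin (2 * t) → Fin b) : ℝ) *
              ∑ f : Fin m → Fin (2 * t) → Fin b, pr (μ (prof H f)) (Qv s a (f a)) ≤
              (Fintype.card (Fin (2 * t) → Fin b) : ℝ) *
              ((Fintype.card (Fin m → Fin (2 * t) → Fin b) : ℝ) * (1 / 2 ^ t)) := by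
            calc _ ≤ _ := h2
              _ = _ := by ring
          exact le_of_mul_le_mul_left h3 hpos
    _ = (Fintype.card (Fin m → Fin (2 * t) → Fin b) : ℝ) * 2 ^ m * (1 + (m : ℝ) / 2 * (1 / 2 ^ t)) := by
        have h4 : ∑ H : Finset (Fin m), ∑ a ∈ H,
          (Fintype.card (Fin m → Fin (2 * t) → Fin b) : ℝ) * (1 / 2 ^ t) =
          ((m : ℝ) / 2 * 2 ^ m) * ((Fintype.card (Fin m → Fin (2 * t) → Fin b) : ℝ) * (1 / 2 ^ t)) := by
          simp only [Finset.sum_const, nsmul_eq_mul]
          rw [← Finset.sum_mul, sum_card]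
        rw [h4]
        simp only [Finset.sum_const, nsmul_eq_mul, Finset.card_univ, Fintype.card_finset,
          Fintype.card_fin, mul_one]
        push_cast
        ring

end Heavy

section Final

variable {m t b : ℕ}

/-- Core inequality. -/
theorem core (hb : 15 ≤ b) (ht : 1 ≤ t) {ε δ α β : ℝ} (hε : 0 ≤ ε) (hδ : 0 ≤ δ) (hβ : β ≤ 1)
    (μ : (Ag m t b → Option (Fin m)) → (Ag m t b → Finset (Fin m)) → ℝ)
    (hw : ∀ τ ω, 0 ≤ μ τ ω) (hw1 : ∀ τ, ∑ ω, μ τ ω ≤ 1)
    (hJ : JPriv ε δ μ)
    (hG : ∀ τ, 1 - β ≤ pr (μ τ) (Good ((2 * b - 1) * t) α τ)) :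
    (1 - β) * (m * (1 / 2 - 4 * α * b)) ≤
      Real.exp (ε * (2 * t)) * (1 + (m : ℝ) / 2 * (1 / 2 ^ t) + m * t * δ) := by
  set s := (2 * b - 1) * t with hs
  have hFpos : (0:ℝ) < (Fintype.card (Fin m → Fin (2 * t) → Fin b) : ℝ) := by
    have : 0 < b := by omega
    have : Nonempty (Fin b) := ⟨⟨0, this⟩⟩
    exact_mod_cast Fintype.card_pos
  -- light side
  have hlight : ∑ f : Fin m → Fin (2 * t) → Fin b, ∑ H : Finset (Fin m),
      (1 - β) * ((Hᶜ.card : ℝ) - 4 * α * b * m) ≤
      ∑ f : Fin m → Fin (2 * t) → Fin b, ∑ H : Finset (Fin m), ∑ a ∈ Hᶜ,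
        pr (μ (prof H f)) (Ev s H a (f a)) := by
    apply Finset.sum_le_sum; intro f _
    apply Finset.sum_le_sum; intro H _
    exact light_sum (by omega) ht hβ H f _ (hw _) (hG _)
  have hleft : ∑ f : Fin m → Fin (2 * t) → Fin b, ∑ H : Finset (Fin m),
      (1 - β) * ((Hᶜ.card : ℝ) - 4 * α * b * m) =
      (Fintype.card (Fin m → Fin (2 * t) → Fin b) : ℝ) * 2 ^ m *
        ((1 - β) * (m * (1 / 2 - 4 * α * b))) := by
    simp only [← Finset.mul_sum, Finset.sum_sub_distrib, sum_card_compl]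
    simp only [Finset.sum_const, nsmul_eq_mul, Finset.card_univ, Fintype.card_finset,
      Fintype.card_fin]
    push_cast
    ring
  have hgp : ∀ (f : Fin m → Fin (2 * t) → Fin b) (H : Finset (Fin m)) (a : Fin m), a ∈ Hᶜ →
      pr (μ (prof H f)) (Ev s H a (f a)) ≤
        Real.exp (ε * (2 * t)) * pr (μ (prof (insert a H) f)) (Ev s (insert a H) a (f a)) +
          (2 * t) * Real.exp (ε * (2 * t)) * δ := by
    intro f H a _
    have := group_privacy hε hδ hJ (Ev s H a (f a)) (Sw a (f a)) (prof H f) (prof (insert a H) f)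
      (prof_insert_agree H f a) (Ev_avoids s H a (f a))
    rw [card_Sw] at this
    rw [Ev_insert]
    push_cast at this
    exact this
  have hmid : ∑ f : Fin m → Fin (2 * t) → Fin b, ∑ H : Finset (Fin m), ∑ a ∈ Hᶜ,
        pr (μ (prof H f)) (Ev s H a (f a)) ≤
      Real.exp (ε * (2 * t)) * (∑ f : Fin m → Fin (2 * t) → Fin b, ∑ H : Finset (Fin m), ∑ a ∈ H,
        pr (μ (prof H f)) (Ev s H a (f a))) +
      (Fintype.card (Fin m → Fin (2 * t) → Fin b) : ℝ) * ((m : ℝ) / 2 * 2 ^ m) *
        ((2 * t) * Real.exp (ε * (2 * t)) * δ) := by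
    calc ∑ f : Fin m → Fin (2 * t) → Fin b, ∑ H : Finset (Fin m), ∑ a ∈ Hᶜ,
        pr (μ (prof H f)) (Ev s H a (f a))
        ≤ ∑ f : Fin m → Fin (2 * t) → Fin b, ∑ H : Finset (Fin m), ∑ a ∈ Hᶜ,
          (Real.exp (ε * (2 * t)) * pr (μ (prof (insert a H) f)) (Ev s (insert a H) a (f a)) +
          (2 * t) * Real.exp (ε * (2 * t)) * δ) := by
          apply Finset.sum_le_sum; intro f _
          apply Finset.sum_le_sum; intro H _
          apply Finset.sum_le_sum; intro a ha
          exact hgp f H a ha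
      _ = ∑ f : Fin m → Fin (2 * t) → Fin b, (Real.exp (ε * (2 * t)) * (∑ H : Finset (Fin m), ∑ a ∈ H,
            pr (μ (prof H f)) (Ev s H a (f a))) +
            ((m : ℝ) / 2 * 2 ^ m) * ((2 * t) * Real.exp (ε * (2 * t)) * δ)) := by
          apply Finset.sum_congr rfl; intro f _
          simp only [Finset.sum_add_distrib]
          congr 1
          · rw [sum_reindex (fun H a => Real.exp (ε * (2 * t)) *
              pr (μ (prof H f)) (Ev s H a (f a)))]
            simp only [Finset.mul_sum]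
          · simp only [Finset.sum_const, nsmul_eq_mul]
            rw [← Finset.sum_mul, sum_card_compl]
      _ = _ := by
          rw [Finset.sum_add_distrib, ← Finset.mul_sum]
          simp only [Finset.sum_const, nsmul_eq_mul, Finset.card_univ]
          ring
  have hheavy := heavy_sum (m := m) (t := t) hb μ hw hw1
  rw [← hs] at hheavy
  have h2m : (0:ℝ) < 2 ^ m := by positivity
  have hfin : (Fintype.card (Fin m → Fin (2 * t) → Fin b) : ℝ) * 2 ^ m *
        ((1 - β) * (m * (1 / 2 - 4 * α * b))) ≤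
      (Fintype.card (Fin m → Fin (2 * t) → Fin b) : ℝ) * 2 ^ m *
      (Real.exp (ε * (2 * t)) * (1 + (m : ℝ) / 2 * (1 / 2 ^ t) + m * t * δ)) := by
    rw [← hleft]
    refine le_trans hlight (le_trans hmid ?_)
    have := mul_le_mul_of_nonneg_left hheavy (Real.exp_pos (ε * (2 * t))).le
    calc _ ≤ Real.exp (ε * (2 * t)) * ((Fintype.card (Fin m → Fin (2 * t) → Fin b) : ℝ) * 2 ^ m *
          (1 + (m : ℝ) / 2 * (1 / 2 ^ t))) +
        (Fintype.card (Fin m → Fin (2 * t) → Fin b) : ℝ) * ((m : ℝ) / 2 * 2 ^ m) *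
        ((2 * t) * Real.exp (ε * (2 * t)) * δ) := by linarith
      _ = _ := by ring
  exact le_of_mul_le_mul_left hfin (by positivity)

end Final

end Pool.Agent.Helper82.JDP
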