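import Mathlib

set_option autoImplicit false

open scoped BigOperators

namespace Pool.Agent.Helper82.JDP

/-- The valuation of an agent who wants only item `j`: a bundle is worth `1` if it contains `j`
and `0` otherwise (a unit-demand, hence gross substitutes, valuation). -/
def wants {m : ℕ} (j : Fin m) : Finset (Fin m) → ℝ := fun S => if j ∈ S then 1 else 0

/-- A valuation that is identically zero or of the form `wants j`. -/
def Simple {m : ℕ} (w : Finset (Fin m) → ℝ) : Prop := (w = fun _ => 0) ∨ ∃ j, w = wants j

/-- Every item `j` is in at most `supply j` of the bundles of the allocation `ω`. -/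
def Feasible {n m : ℕ} (supply : Fin m → ℕ) (ω : Fin n → Finset (Fin m)) : Prop :=
  ∀ j : Fin m, (Finset.univ.filter (fun k : Fin n => j ∈ ω k)).card ≤ supply j

/-- On every profile of simple valuations, with probability at least `1 - β` the output of `M` is
feasible and has welfare at least `OPT - α n`. (With the remaining probability it may be
infeasible.) -/
def Accurate {n m : ℕ} (α β : ℝ) (supply : Fin m → ℕ)
    (M : (Fin n → Finset (Fin m) → ℝ) → PMF (Fin n → Finset (Fin m))) : Prop :=
  ∀ v : Fin n → Finset (Fin m) → ℝ, (∀ i, Simple (v i)) →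
    ENNReal.ofReal (1 - β) ≤ (M v).toOuterMeasure
      {ω | Feasible supply ω ∧ ∀ ω' : Fin n → Finset (Fin m), Feasible supply ω' →
        ∑ k, v k (ω' k) - α * (n : ℝ) ≤ ∑ k, v k (ω k)}

/-- `(ε, δ)`-joint differential privacy, required only between profiles of simple valuations. -/
def JointlyPrivate {n m : ℕ} (ε δ : ℝ)
    (M : (Fin n → Finset (Fin m) → ℝ) → PMF (Fin n → Finset (Fin m))) : Prop :=
  ∀ v : Fin n → Finset (Fin m) → ℝ, (∀ i, Simple (v i)) →
    ∀ (i : Fin n) (w : Finset (Fin m) → ℝ), Simple w →
      ∀ S : Set ({k : Fin n // k ≠ i} → Finset (Fin m)),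
        (M v).toOuterMeasure {ω | (fun k : {k : Fin n // k ≠ i} => ω k.1) ∈ S} ≤
          ENNReal.ofReal (Real.exp ε) *
            (M (Function.update v i w)).toOuterMeasure
              {ω | (fun k : {k : Fin n // k ≠ i} => ω k.1) ∈ S} + ENNReal.ofReal δ

end Pool.Agent.Helper82.JDP
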