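import Pool.Agent.Helper82.JDPMain

set_option autoImplicit false

open scoped BigOperators
open Classical

namespace Pool.Agent.Helper82.JDP

/-- simple valuations are additive -/
lemma simple_additive {m : ℕ} {w : Finset (Fin m) → ℝ} (hw : Simple w) :
    ∃ c : Fin m → ℝ, (∀ S, w S = ∑ j ∈ S, c j) := by
  rcases hw with rfl | ⟨j, rfl⟩
  · exact ⟨fun _ => 0, fun S => by simp⟩
  · refine ⟨fun k => if k = j then 1 else 0, fun S => ?_⟩
    unfold wants
    rw [Finset.sum_ite_eq']

lemma simple_bounds {m : ℕ} {w : Finset (Fin m) → ℝ} (hw : Simple w) (S : Finset (Fin m)) :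
    0 ≤ w S ∧ w S ≤ 1 := by
  rcases hw with rfl | ⟨j, rfl⟩
  · simp
  · unfold wants
    split_ifs <;> simp

/-- simple valuations are gross substitutes -/
lemma simple_gs {m : ℕ} {w : Finset (Fin m) → ℝ} (hw : Simple w) :
    (∀ S, 0 ≤ w S ∧ w S ≤ 1) ∧
      ∀ p q : Fin m → ℝ, p ≤ q → ∀ S : Finset (Fin m),
        (∀ T : Finset (Fin m), w T - ∑ j ∈ T, p j ≤ w S - ∑ j ∈ S, p j) →
        ∃ T : Finset (Fin m),
          (∀ U : Finset (Fin m), w U - ∑ j ∈ U, q j ≤ w T - ∑ j ∈ T, q j) ∧
          ∀ j ∈ S, q j = p j → j ∈ T := by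
  refine ⟨simple_bounds hw, ?_⟩
  intro p q _ S hS
  obtain ⟨c, hc⟩ := simple_additive hw
  refine ⟨Finset.univ.filter (fun j => q j < c j ∨ (q j = c j ∧ j ∈ S)), ?_, ?_⟩
  · intro U
    rw [hc, hc, ← Finset.sum_sub_distrib, ← Finset.sum_sub_distrib]
    have h1 : ∑ j ∈ U, (c j - q j) ≤ ∑ j, max (c j - q j) 0 := by
      calc ∑ j ∈ U, (c j - q j) ≤ ∑ j ∈ U, max (c j - q j) 0 :=
            Finset.sum_le_sum (fun j _ => le_max_left _ _)
        _ ≤ ∑ j, max (c j - q j) 0 :=
            Finset.sum_le_sum_of_subset_of_nonneg (Finset.subset_univ _)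
              (fun j _ _ => le_max_right _ _)
    refine le_trans h1 (le_of_eq ?_)
    rw [Finset.sum_filter]
    apply Finset.sum_congr rfl
    intro j _
    split_ifs with h
    · rcases h with h | h
      · rw [max_eq_left (by linarith)]
      · rw [h.1]; simp
    · push Not at h
      rw [max_eq_right (by linarith [h.1])]
  · intro j hj hqp
    simp only [Finset.mem_filter, Finset.mem_univ, true_and]
    have h2 := hS (S.erase j)
    rw [hc, hc, ← Finset.sum_sub_distrib, ← Finset.sum_sub_distrib] at h2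
    have h3 := Finset.sum_erase_add S (fun j => c j - p j) hj

    have h4 : p j ≤ c j := by linarith
    rw [hqp]
    rcases lt_or_eq_of_le h4 with h5 | h5
    · exact Or.inl h5
    · exact Or.inr ⟨h5, hj⟩

end Pool.Agent.Helper82.JDP
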