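import Pool.Agent.Helper82.JDPCore
import Pool.Agent.Helper82.JDPDefs

set_option autoImplicit false

open scoped BigOperators
open Classical

namespace Pool.Agent.Helper82.JDP

lemma simple_val {m : ℕ} (o : Option (Fin m)) : Simple (val o) := by
  cases o with
  | none => left; rfl
  | some j => right; exact ⟨j, rfl⟩

section Bridge

variable {n m t b : ℕ}

/-- real-valued weights of the mechanism, indexed by wishes -/
noncomputable def wt (M : (Fin n → Finset (Fin m) → ℝ) → PMF (Fin n → Finset (Fin m)))
    (e : Fin n ≃ Ag m t b) (τ : Ag m t b → Option (Fin m)) (ω : Ag m t b → Finset (Fin m)) : ℝ :=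
  (M (fun i => val (τ (e i))) (fun i => ω (e i))).toReal

lemma pr_wt (M : (Fin n → Finset (Fin m) → ℝ) → PMF (Fin n → Finset (Fin m)))
    (e : Fin n ≃ Ag m t b) (τ : Ag m t b → Option (Fin m)) (E : Set (Ag m t b → Finset (Fin m))) :
    pr (wt M e τ) E = ((M (fun i => val (τ (e i)))).toOuterMeasure
      {ω' | (fun k => ω' (e.symm k)) ∈ E}).toReal := by
  rw [PMF.toOuterMeasure_apply_fintype, ENNReal.toReal_sum]
  · unfold pr
    let φ : (Ag m t b → Finset (Fin m)) ≃ (Fin n → Finset (Fin m)) :=
      Equiv.arrowCongr e.symm (Equiv.refl _)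
    rw [← Equiv.sum_comp φ]
    apply Finset.sum_congr rfl
    intro ω _
    have h1 : φ ω = fun i => ω (e i) := by
      funext i
      simp [φ, Equiv.arrowCongr]
    rw [h1]
    by_cases h : ω ∈ E
    · rw [Set.indicator_of_mem h, Set.indicator_of_mem]
      · rfl
      · simpa using h
    · rw [Set.indicator_of_notMem h, Set.indicator_of_notMem]
      · rfl
      · simpa using h
  · intro a _
    apply ne_of_lt
    refine lt_of_le_of_lt ?_ ENNReal.one_lt_top
    refine le_trans (Set.indicator_le_self' ?_ a) (PMF.coe_le_one _ _)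
    intro _ _
    exact bot_le

lemma outer_le_one {Ω : Type*} (p : PMF Ω) (E : Set Ω) : p.toOuterMeasure E ≤ 1 := by
  rw [PMF.toOuterMeasure_apply, ← p.tsum_coe]
  apply ENNReal.tsum_le_tsum
  intro a
  exact Set.indicator_le_self' (fun _ _ => bot_le) a

lemma pmf_ne_top {Ω : Type*} (p : PMF Ω) (E : Set Ω) : p.toOuterMeasure E ≠ ⊤ := by
  apply ne_of_lt
  exact lt_of_le_of_lt (outer_le_one p E) ENNReal.one_lt_top

lemma wt_nonneg (M : (Fin n → Finset (Fin m) → ℝ) → PMF (Fin n → Finset (Fin m)))
    (e : Fin n ≃ Ag m t b) (τ : Ag m t b → Option (Fin m)) (ω : Ag m t b → Finset (Fin m)) :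
    0 ≤ wt M e τ ω := ENNReal.toReal_nonneg

lemma wt_sum (M : (Fin n → Finset (Fin m) → ℝ) → PMF (Fin n → Finset (Fin m)))
    (e : Fin n ≃ Ag m t b) (τ : Ag m t b → Option (Fin m)) :
    ∑ ω, wt M e τ ω ≤ 1 := by
  have h := pr_wt M e τ Set.univ
  unfold pr at h
  simp only [Set.indicator_univ] at h
  rw [h]
  have h1 := outer_le_one (M (fun i => val (τ (e i))))
    {ω' | (fun k => ω' (e.symm k)) ∈ (Set.univ : Set (Ag m t b → Finset (Fin m)))}
  have := ENNReal.toReal_mono ENNReal.one_ne_top h1
  simpa using this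

lemma wt_priv {ε δ : ℝ} (hδ : 0 ≤ δ)
    (M : (Fin n → Finset (Fin m) → ℝ) → PMF (Fin n → Finset (Fin m)))
    (e : Fin n ≃ Ag m t b) (hM : JointlyPrivate ε δ M) : JPriv ε δ (wt M e) := by
  intro τ i o E hE
  rw [pr_wt, pr_wt]
  set v : Fin n → Finset (Fin m) → ℝ := fun k => val (τ (e k)) with hv
  have hv' : (fun k => val ((Function.update τ i o) (e k))) = Function.update v (e.symm i) (val o) := by
    funext k
    by_cases hk : k = e.symm i
    · subst hk; simp
    · have : e k ≠ i := fun h => hk (by rw [← h]; simp)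
      rw [Function.update_of_ne hk, Function.update_of_ne this]
  rw [hv']
  -- describe E through the coordinates other than i
  let S : Set ({k : Fin n // k ≠ e.symm i} → Finset (Fin m)) :=
    {η | ∃ ω' : Fin n → Finset (Fin m), (fun k => ω' (e.symm k)) ∈ E ∧
      ∀ k : {k : Fin n // k ≠ e.symm i}, η k = ω' k.1}
  have hS : {ω' : Fin n → Finset (Fin m) | (fun k => ω' (e.symm k)) ∈ E} =
      {ω | (fun k : {k : Fin n // k ≠ e.symm i} => ω k.1) ∈ S} := by
    ext ω
    simp only [Set.mem_ofPred_eq, S]
    constructor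
    · intro h
      exact ⟨ω, h, fun k => rfl⟩
    · rintro ⟨ω', h1, h2⟩
      refine (hE _ _ ?_).1 h1
      intro j hj
      have hj' : e.symm j ≠ e.symm i := by
        intro h
        apply hj
        simpa using h
      exact (h2 ⟨e.symm j, hj'⟩).symm
  have h := hM v (fun k => simple_val _) (e.symm i) (val o) (simple_val _) S
  rw [← hS] at h
  have h2 : (ENNReal.ofReal (Real.exp ε) *
            (M (Function.update v (e.symm i) (val o))).toOuterMeasure
              {ω' : Fin n → Finset (Fin m) | (fun k => ω' (e.symm k)) ∈ E} + ENNReal.ofReal δ) ≠ ⊤ := by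
    apply ENNReal.add_ne_top.2
    refine ⟨ENNReal.mul_ne_top ENNReal.ofReal_ne_top (pmf_ne_top _ _), ENNReal.ofReal_ne_top⟩
  have h3 := ENNReal.toReal_mono h2 h
  rw [ENNReal.toReal_add (ENNReal.mul_ne_top ENNReal.ofReal_ne_top (pmf_ne_top _ _))
    ENNReal.ofReal_ne_top, ENNReal.toReal_mul, ENNReal.toReal_ofReal (Real.exp_pos ε).le,
    ENNReal.toReal_ofReal hδ] at h3
  exact h3

lemma wt_good {α β : ℝ} {s : ℕ}
    (M : (Fin n → Finset (Fin m) → ℝ) → PMF (Fin n → Finset (Fin m)))
    (e : Fin n ≃ Ag m t b) (hM : Accurate α β (fun _ => s) M) (τ : Ag m t b → Option (Fin m)) :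
    1 - β ≤ pr (wt M e τ) (Good s α τ) := by
  rw [pr_wt]
  have h := hM (fun i => val (τ (e i))) (fun k => simple_val _)
  have h1 : {ω | Feasible (fun _ => s) ω ∧ ∀ ω' : Fin n → Finset (Fin m), Feasible (fun _ => s) ω' →
        ∑ k, (fun i => val (τ (e i))) k (ω' k) - α * (n : ℝ) ≤
          ∑ k, (fun i => val (τ (e i))) k (ω k)} ⊆
      {ω' | (fun k => ω' (e.symm k)) ∈ Good s α τ} := by
    have hfeas : ∀ ω : Fin n → Finset (Fin m), Feasible (fun _ => s) ω ↔
        Feas s (fun k : Ag m t b => ω (e.symm k)) := by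
      intro ω
      unfold Feasible Feas
      apply forall_congr'
      intro j
      have : (Finset.univ.filter (fun k : Fin n => j ∈ ω k)).card =
          (Finset.univ.filter (fun k : Ag m t b => j ∈ ω (e.symm k))).card := by
        refine Finset.card_bij' (fun k _ => e k) (fun k _ => e.symm k) ?_ ?_ ?_ ?_
        · intro k hk; simpa using hk
        · intro k hk; simpa using hk
        · intro k hk; simp
        · intro k hk; simp
      rw [this]
    have hwel : ∀ ω : Fin n → Finset (Fin m),
        ∑ k, val (τ (e k)) (ω k) = ∑ k : Ag m t b, val (τ k) (ω (e.symm k)) := by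
      intro ω
      rw [← Equiv.sum_comp e]
      simp
    have hcard : (Fintype.card (Ag m t b) : ℝ) = n := by
      have := Fintype.card_congr e
      rw [← this]
      simp
    rintro ω ⟨h1, h2⟩
    refine ⟨(hfeas ω).1 h1, ?_⟩
    intro ω' hω'
    have h3 := h2 (fun i => ω' (e i)) ((hfeas _).2 (by simpa using hω'))
    rw [hwel, hwel] at h3
    rw [hcard]
    simpa using h3
  have h2 : ENNReal.ofReal (1 - β) ≤ (M (fun i => val (τ (e i)))).toOuterMeasure
      {ω' | (fun k => ω' (e.symm k)) ∈ Good s α τ} :=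
    le_trans h (MeasureTheory.OuterMeasure.mono _ h1)
  have h3 := ENNReal.toReal_mono (pmf_ne_top _ _) h2
  rw [ENNReal.toReal_ofReal'] at h3
  exact le_trans (le_max_left _ _) h3

end Bridge

/-- Main theorem. -/
theorem main {ε α β δ : ℝ} (hε : 0 < ε) (hε' : ε ≤ 1 / 8) (hα : 0 < α) (hα' : α ≤ 1 / 256)
    (hβ' : β < 1) (hδ : 0 ≤ δ) (m : ℕ) (hm1 : 64 ≤ m) (hm : 64 / (1 - β) ^ 2 ≤ m)
    (hδ' : δ * (m * Real.log m) ≤ ε) :
    ∃ n : ℕ, (n : ℝ) ≤ m * Real.log m / (32 * ε * α) ∧
      ∀ s : ℕ, (∀ supply : Fin m → ℕ, (∀ j, s ≤ supply j) →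
        ∃ M : (Fin n → Finset (Fin m) → ℝ) → PMF (Fin n → Finset (Fin m)),
          Accurate α β supply M ∧ JointlyPrivate ε δ M) →
        Real.log m / (50 * ε * α) < s := by
  have hm1' : (64:ℝ) ≤ m := by exact_mod_cast hm1
  have hlog64 : (4:ℝ) < Real.log 64 := by
    have h1 : Real.log 64 = 6 * Real.log 2 := by
      rw [show (64:ℝ) = 2 ^ 6 by norm_num, Real.log_pow]; norm_num
    have := Real.log_two_gt_d9
    rw [h1]; linarith
  have hlogm : (4:ℝ) < Real.log m :=
    lt_of_lt_of_le hlog64 (Real.log_le_log (by norm_num) hm1')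
  set lm := Real.log m with hlm
  set b : ℕ := ⌊1 / (16 * α)⌋₊ with hbdef
  set t : ℕ := ⌊lm / (4 * ε)⌋₊ with htdef
  have hb1 : (b:ℝ) ≤ 1 / (16 * α) := Nat.floor_le (by positivity)
  have hb2 : 1 / (16 * α) < b + 1 := Nat.lt_floor_add_one _
  have ht1 : (t:ℝ) ≤ lm / (4 * ε) := Nat.floor_le (by positivity)
  have ht2 : lm / (4 * ε) < t + 1 := Nat.lt_floor_add_one _
  have hb16 : 16 ≤ b := by
    apply Nat.le_floor
    rw [le_div_iff₀ (by positivity)]
    push_cast
    linarith
  have ht8 : (1:ℝ) ≤ t := by
    have : 1 ≤ t := by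
      apply Nat.le_floor
      rw [le_div_iff₀ (by positivity)]
      push_cast
      linarith
    exact_mod_cast this
  have ht1N : 1 ≤ t := by exact_mod_cast ht8
  -- the instance
  set n : ℕ := m * (2 * t * b) with hn
  refine ⟨n, ?_, ?_⟩
  · rw [hn]
    push_cast
    have h1 : (2 * (t:ℝ) * b) ≤ 2 * (lm / (4 * ε)) * (1 / (16 * α)) := by
      apply mul_le_mul (by linarith) hb1 (by positivity) (by positivity)
    calc (m:ℝ) * (2 * t * b) ≤ m * (2 * (lm / (4 * ε)) * (1 / (16 * α))) :=
          mul_le_mul_of_nonneg_left h1 (by positivity)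
      _ = m * lm / (32 * ε * α) := by
          field_simp
          norm_num
  · intro s hs
    by_contra hcon
    push Not at hcon
    -- supply level reached
    have hsup : lm / (50 * ε * α) ≤ (((2 * b - 1) * t : ℕ) : ℝ) := by
      have h1 : ((2 * b - 1 : ℕ) : ℝ) = 2 * (b:ℝ) - 1 := by
        rw [Nat.cast_sub (by omega)]; push_cast; ring
      push_cast
      rw [h1]
      have h2 : 1 / (9 * α) ≤ 2 * (b:ℝ) - 1 := by
        have h3 : (1:ℝ) ≤ 1 / (256 * α) := by
          rw [le_div_iff₀ (by positivity)]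
          linarith
        have h4 : 1 / (9 * α) + 3 * (1 / (256 * α)) ≤ 2 * (1 / (16 * α)) := by
          have : 1 / (9 * α) + 3 * (1 / (256 * α)) = (1 / 9 + 3 / 256) * (1 / α) := by
            field_simp
          rw [this]
          have h5 : 2 * (1 / (16 * α)) = (1 / 8) * (1 / α) := by
            field_simp
            norm_num
          rw [h5]
          apply mul_le_mul_of_nonneg_right (by norm_num) (by positivity)
        linarith
      have h6 : lm / (5 * ε) ≤ t := by
        have h7 : (1:ℝ) ≤ lm / (20 * ε) := by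
          rw [le_div_iff₀ (by positivity)]
          linarith
        have h8 : lm / (5 * ε) + lm / (20 * ε) = lm / (4 * ε) := by
          field_simp
          norm_num
        linarith
      calc lm / (50 * ε * α) ≤ lm / (45 * ε * α) := by
            apply div_le_div_of_nonneg_left (by linarith) (by positivity)
            have : 0 < ε * α := by positivity
            nlinarith
        _ = (1 / (9 * α)) * (lm / (5 * ε)) := by
            field_simp
            norm_num
        _ ≤ (2 * (b:ℝ) - 1) * t := by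
            apply mul_le_mul h2 h6 (by positivity)
            have : (0:ℝ) < 1 / (9 * α) := by positivity
            linarith
    have hsle : s ≤ (2 * b - 1) * t := by
      have : (s:ℝ) ≤ (((2 * b - 1) * t : ℕ) : ℝ) := le_trans hcon hsup
      exact_mod_cast this
    obtain ⟨M, hA, hJ⟩ := hs (fun _ => (2 * b - 1) * t) (fun _ => hsle)
    have hcardn : Fintype.card (Ag m t b) = n := by
      simp [Ag, hn]
    let e : Fin n ≃ Ag m t b := (Fintype.equivFinOfCardEq hcardn).symm
    have hcore := core (m := m) (t := t) (b := b) (by omega) ht1N hε.le hδ hβ'.le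
      (wt M e) (wt_nonneg M e) (wt_sum M e) (wt_priv hδ M e hJ) (fun τ => wt_good M e hA τ)
    -- numerical contradiction
    have hmpos : (0:ℝ) < m := by linarith
    have hβ1 : 0 < 1 - β := by linarith
    have h4 : 4 * α * b ≤ 1 / 4 := by
      have : 4 * α * (b:ℝ) ≤ 4 * α * (1 / (16 * α)) :=
        mul_le_mul_of_nonneg_left hb1 (by positivity)
      have h5 : 4 * α * (1 / (16 * α)) = 1 / 4 := by
        field_simp
        norm_num
      linarith
    have hL : (1 - β) * (m * (1 / 4)) ≤ (1 - β) * (m * (1 / 2 - 4 * α * b)) := by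
      apply mul_le_mul_of_nonneg_left _ hβ1.le
      apply mul_le_mul_of_nonneg_left _ hmpos.le
      linarith
    have hexp : Real.exp (ε * (2 * t)) ≤ Real.sqrt m := by
      have h5 : ε * (2 * t) ≤ lm / 2 := by
        have := mul_le_mul_of_nonneg_left ht1 (by positivity : (0:ℝ) ≤ 2 * ε)
        have h6 : 2 * ε * (lm / (4 * ε)) = lm / 2 := by
          field_simp
          norm_num
        linarith
      calc Real.exp (ε * (2 * t)) ≤ Real.exp (lm / 2) := Real.exp_le_exp.2 h5
        _ = Real.sqrt m := by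
            rw [Real.sqrt_eq_rpow, Real.rpow_def_of_pos hmpos]
            congr 1
            rw [hlm]; ring
    have h2t : (m : ℝ) / 2 * (1 / 2 ^ t) ≤ 1 / 2 := by
      have h5 : (m:ℝ) ≤ 2 ^ t := by
        have h6 : Real.log m ≤ t * Real.log 2 := by
          have h7 : 2 * lm - 1 ≤ t := by
            have h8 : 2 * lm ≤ lm / (4 * ε) := by
              rw [le_div_iff₀ (by positivity)]
              have : 2 * lm * (4 * ε) = 8 * ε * lm := by ring
              rw [this]
              have : 8 * ε ≤ 1 := by linarith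
              nlinarith
            linarith
          have h9 : (2 * lm - 1) * 0.69 ≤ t * Real.log 2 := by
            have := Real.log_two_gt_d9
            apply mul_le_mul h7 (by linarith) (by norm_num) (by linarith)
          have : Real.log m ≤ (2 * lm - 1) * 0.69 := by
            rw [← hlm]
            linarith
          linarith
        have h10 : Real.log m ≤ Real.log (2 ^ t) := by
          rw [Real.log_pow]; exact h6
        exact (Real.log_le_log_iff hmpos (by positivity)).1 h10
      rw [mul_one_div, div_le_iff₀ (by positivity)]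
      linarith
    have hδt : m * t * δ ≤ 1 / 4 := by
      have h5 : m * t * δ ≤ m * (lm / (4 * ε)) * δ := by
        apply mul_le_mul_of_nonneg_right _ hδ
        exact mul_le_mul_of_nonneg_left ht1 hmpos.le
      have h6 : m * (lm / (4 * ε)) * δ = (δ * (m * lm)) / (4 * ε) := by
        field_simp
      have h7 : (δ * (m * lm)) / (4 * ε) ≤ 1 / 4 := by
        rw [div_le_iff₀ (by positivity)]
        linarith
      linarith
    have hR : Real.exp (ε * (2 * t)) * (1 + (m : ℝ) / 2 * (1 / 2 ^ t) + m * t * δ) ≤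
        Real.sqrt m * (7 / 4) := by
      apply mul_le_mul hexp (by linarith) _ (Real.sqrt_nonneg _)
      positivity
    have hfin : (1 - β) * (m * (1 / 4)) ≤ Real.sqrt m * (7 / 4) := by linarith
    have hsq : Real.sqrt m * Real.sqrt m = m := Real.mul_self_sqrt hmpos.le
    have hsqpos : 0 < Real.sqrt m := Real.sqrt_pos.2 hmpos
    have h11 : (1 - β) * Real.sqrt m ≤ 7 := by
      have h12 : Real.sqrt m * ((1 - β) * Real.sqrt m) ≤ Real.sqrt m * 7 := by
        calc Real.sqrt m * ((1 - β) * Real.sqrt m) = (1 - β) * (Real.sqrt m * Real.sqrt m) := by ring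
          _ = (1 - β) * m := by rw [hsq]
          _ ≤ Real.sqrt m * 7 := by linarith
      exact le_of_mul_le_mul_left h12 hsqpos
    have h13 : 8 ≤ (1 - β) * Real.sqrt m := by
      have h14 : (8 / (1 - β)) ^ 2 ≤ m := by
        rw [div_pow]
        norm_num
        exact hm
      have h15 : 8 / (1 - β) ≤ Real.sqrt m := Real.le_sqrt_of_sq_le h14
      rw [div_le_iff₀ hβ1] at h15
      linarith
    linarith

end Pool.Agent.Helper82.JDP
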