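import Mathlib

set_option autoImplicit false

/-!
Left random context E0L grammars and ET0L grammars. The total alphabet is `N ⊕ T` with `N` the
nonterminals (the symbols that are not terminals) and `T` the terminals.
-/

namespace Pool.Agent.Helper82.LP

/-- A rule `(a → x, U, W)`: the symbol `lhs = a` is rewritten to `rhs = x`; `perm = U` is the left
permitting set and `forb = W` the left forbidding set, both sets of nonterminals. -/
structure Rule (N T : Type) where
  lhs : N ⊕ T
  rhs : List (N ⊕ T)
  perm : Set N
  forb : Set N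

/-- `Step P p u v`: in a word `p ++ u` the part `u` is rewritten in parallel to `v` by rules in `P`;
each rule applied to an occurrence in `u` inspects everything to the left of this occurrence
(the part `p` included). A derivation step from `u` to `v` is `Step P [] u v`. -/
inductive Step {N T : Type} (P : Set (Rule N T)) :
    List (N ⊕ T) → List (N ⊕ T) → List (N ⊕ T) → Prop
  | nil (p : List (N ⊕ T)) : Step P p [] []
  | cons (p u v : List (N ⊕ T)) (r : Rule N T) (hr : r ∈ P)
      (hU : ∀ A ∈ r.perm, Sum.inl A ∈ p) (hW : ∀ A ∈ r.forb, Sum.inl A ∉ p)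
      (h : Step P (p ++ [r.lhs]) u v) : Step P p (r.lhs :: u) (r.rhs ++ v)

/-- Languages of left permitting E0L grammars (no forbidding conditions). -/
def IsLPE0L {T : Type} (L : Language T) : Prop :=
  ∃ (N : Type) (_ : Finite N) (P : Set (Rule N T)) (w : List (N ⊕ T)),
    P.Finite ∧ (∀ r ∈ P, r.forb = ∅) ∧ w ≠ [] ∧
    ∀ z : List T, z ∈ L ↔ Relation.ReflTransGen (Step P []) w (z.map Sum.inr)

/-- Languages of propagating left permitting E0L grammars (no forbidding conditions, no erasing
rules). -/
def IsLPEP0L {T : Type} (L : Language T) : Prop :=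
  ∃ (N : Type) (_ : Finite N) (P : Set (Rule N T)) (w : List (N ⊕ T)),
    P.Finite ∧ (∀ r ∈ P, r.forb = ∅) ∧ (∀ r ∈ P, r.rhs ≠ []) ∧ w ≠ [] ∧
    ∀ z : List T, z ∈ L ↔ Relation.ReflTransGen (Step P []) w (z.map Sum.inr)

/-- `TStep R u v`: the word `u` is rewritten in parallel to `v` by rules of the table `R`. -/
inductive TStep {N T : Type} (R : Set ((N ⊕ T) × List (N ⊕ T))) :
    List (N ⊕ T) → List (N ⊕ T) → Prop
  | nil : TStep R [] []
  | cons (a : N ⊕ T) (x u v : List (N ⊕ T)) (hr : (a, x) ∈ R) (h : TStep R u v) :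
      TStep R (a :: u) (x ++ v)

/-- Languages of ET0L grammars: a finite set of finite tables; in each derivation step one table is
chosen and all symbols are rewritten in parallel by rules of this table. -/
def IsET0L {T : Type} (L : Language T) : Prop :=
  ∃ (N : Type) (_ : Finite N) (𝓡 : Set (Set ((N ⊕ T) × List (N ⊕ T)))) (w : List (N ⊕ T)),
    𝓡.Finite ∧ (∀ R ∈ 𝓡, R.Finite) ∧
    ∀ z : List T, z ∈ L ↔
      Relation.ReflTransGen (fun u v => ∃ R ∈ 𝓡, TStep R u v) w (z.map Sum.inr)

end Pool.Agent.Helper82.LP
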