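import Pool.Agent.Helper82.LPPump

set_option autoImplicit false
open Classical

namespace Pool.Agent.Helper82.LP

section NV

variable {N T : Type}

/-- number of non-vanishing symbols -/
noncomputable def nv (A : List (Ann N T)) : ℕ := (A.filter (fun σ => σ.2 ≠ [])).length

@[simp] lemma nv_nil : nv ([] : List (Ann N T)) = 0 := rfl

lemma nv_append (A B : List (Ann N T)) : nv (A ++ B) = nv A + nv B := by
  simp [nv]

lemma nv_cons (σ : Ann N T) (A : List (Ann N T)) :
    nv (σ :: A) = (if σ.2 ≠ [] then 1 else 0) + nv A := by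
  unfold nv
  by_cases h : σ.2 = []
  · simp [h]
  · simp [h]; omega

lemma nv_le_length (A : List (Ann N T)) : nv A ≤ A.length := List.length_filter_le _ _

lemma yld_eq_nil_of_nv {A : List (Ann N T)} (h : nv A = 0) : yld A = [] := by
  induction A with
  | nil => rfl
  | cons σ A ih =>
    rw [nv_cons] at h
    split_ifs at h with h1
    · omega
    · rw [not_not] at h1
      rw [yld_cons, h1, ih (by omega)]; rfl

lemma nv_pos_of_yld {A : List (Ann N T)} (h : yld A ≠ []) : 1 ≤ nv A := by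
  by_contra hcon
  exact h (yld_eq_nil_of_nv (by omega))

lemma nv_le_yld (A : List (Ann N T)) : nv A ≤ (yld A).length := by
  induction A with
  | nil => simp
  | cons σ A ih =>
    rw [nv_cons, yld_cons, List.length_append]
    split_ifs with h
    · have : 1 ≤ σ.2.length := List.length_pos_iff.2 h
      omega
    · omega

lemma yld_len {A : List (Ann N T)} {B : ℕ} (h : ∀ σ ∈ A, σ.2.length ≤ B) :
    (yld A).length ≤ nv A * B := by
  induction A with
  | nil => simp
  | cons σ A ih =>
    rw [nv_cons, yld_cons, List.length_append, add_mul]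
    have h1 := ih (fun τ hτ => h τ (by simp [hτ]))
    have h2 := h σ (by simp)
    split_ifs with h3
    · omega
    · rw [not_not] at h3
      rw [h3]
      simpa using h1

lemma AStep.nv_le {R : Set ((N ⊕ T) × List (N ⊕ T))} {A B : List (Ann N T)} (h : AStep R A B) :
    nv A ≤ nv B := by
  induction h with
  | nil => exact le_rfl
  | cons X D U V hr _ ih =>
    rw [nv_cons, nv_append]
    split_ifs with h
    · have := nv_pos_of_yld h
      omega
    · omega

lemma Chain.nv_le {R : ℕ → Set ((N ⊕ T) × List (N ⊕ T))} {s t : ℕ} {A B : List (Ann N T)}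
    (h : Chain R s t A B) : nv A ≤ nv B := by
  induction h with
  | refl => exact le_rfl
  | head s t A B C h1 _ ih => exact le_trans h1.nv_le ih

end NV

section Levels

variable {N T : Type} {R : ℕ → Set ((N ⊕ T) × List (N ⊕ T))}
  {U : ℕ → List (Ann N T)} {k : ℕ} {a : T} {𝓡 : Set (Set ((N ⊕ T) × List (N ⊕ T)))}

/-- the type of an annotated symbol -/
def ty (a : T) (σ : Ann N T) : (N ⊕ T) × Prop × Prop := (σ.1, σ.2 ≠ [], a ∈ σ.2)

lemma level_chain (hstep : ∀ t < k, AStep (R t) (U t) (U (t + 1))) :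
    ∀ n s, s + n ≤ k → Chain R s (s + n) (U s) (U (s + n)) := by
  intro n
  induction n with
  | zero => intro s _; exact Chain.refl _ _
  | succ n ih =>
    intro s hs
    have h1 := ih (s + 1) (by omega)
    have e : s + 1 + n = s + (n + 1) := by ring
    rw [e] at h1
    exact Chain.head _ _ _ _ _ (hstep s (by omega)) h1

lemma level_chain' (hstep : ∀ t < k, AStep (R t) (U t) (U (t + 1))) {s t : ℕ} (hst : s ≤ t)
    (htk : t ≤ k) : Chain R s t (U s) (U t) := by
  have := level_chain hstep (t - s) s (by omega)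
  rwa [show s + (t - s) = t by omega] at this

lemma Chain.rtg {s t : ℕ} {A B : List (Ann N T)} (h : Chain R s t A B) (htk : t ≤ k)
    (hR : ∀ t < k, R t ∈ 𝓡) :
    Relation.ReflTransGen (fun u v => ∃ R ∈ 𝓡, TStep R u v) (und A) (und B) := by
  induction h with
  | refl => exact Relation.ReflTransGen.refl
  | head s t A B C h1 h2 ih =>
    have := h2.le
    exact Relation.ReflTransGen.head ⟨R s, hR s (by omega), h1.tstep⟩ (ih htk)

lemma term_of_subset {z : List T} : ∀ {D : List (Ann N T)},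
    D ⊆ z.map (fun c => ((Sum.inr c : N ⊕ T), [c])) → und D = (yld D).map Sum.inr := by
  intro D
  induction D with
  | nil => intro _; rfl
  | cons σ D ih =>
    intro h
    have h1 := h (List.mem_cons_self)
    rw [List.mem_map] at h1
    obtain ⟨c, _, rfl⟩ := h1
    have h2 := ih (fun x hx => h (List.mem_cons_of_mem _ hx))
    simp [h2]

/-- words over a level derive their yield -/
lemma derive_yld (hstep : ∀ t < k, AStep (R t) (U t) (U (t + 1))) (hR : ∀ t < k, R t ∈ 𝓡)
    {z : List T} (hz : U k = z.map (fun c => ((Sum.inr c : N ⊕ T), [c]))) {t : ℕ} (htk : t ≤ k)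
    {A : List (Ann N T)} (hA : A ⊆ U t) :
    Relation.ReflTransGen (fun u v => ∃ R ∈ 𝓡, TStep R u v) (und A) ((yld A).map Sum.inr) := by
  have h1 : ∀ σ : Ann N T, ∃ D, σ ∈ U t → (Chain R t k [σ] D ∧ D ⊆ U k) := by
    intro σ
    by_cases hσ : σ ∈ U t
    · obtain ⟨D, hD⟩ := (level_chain' hstep htk le_rfl).desc hσ
      exact ⟨D, fun _ => hD⟩
    · exact ⟨[], fun h => absurd h hσ⟩
  choose δ hδ using h1
  have h2 := chain_flatMap htk δ A (fun σ hσ => (hδ σ (hA hσ)).1)
  have h3 : A.flatMap δ ⊆ U k := by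
    intro x hx
    rw [List.mem_flatMap] at hx
    obtain ⟨σ, hσ, hx⟩ := hx
    exact (hδ σ (hA hσ)).2 hx
  have h4 := h2.rtg le_rfl hR
  rw [hz] at h3
  rw [term_of_subset h3, ← h2.yld_eq] at h4
  exact h4

/-- the pumping lemma -/
lemma pump [DecidableEq T] (hstep : ∀ t < k, AStep (R t) (U t) (U (t + 1))) (hR : ∀ t < k, R t ∈ 𝓡)
    {s t : ℕ} (hst : s < t) (htk : t ≤ k) (hone : ∀ σ ∈ U s, σ.2.count a ≤ 1)
    (honet : ∀ σ ∈ U t, σ.2.count a ≤ 1)
    (hty : ∀ σ ∈ U t, ∃ σ' ∈ U s, ty a σ' = ty a σ) {σ₀ σ₁ : Ann N T} (hσ₀ : σ₀ ∈ U s)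
    {D₀ : List (Ann N T)} (hD₀ : Chain R s t [σ₀] D₀) (hD₀U : D₀ ⊆ U t) (hσ₁ : σ₁ ∈ D₀)
    (hty₁ : ty a σ₁ = ty a σ₀) (hnv : 2 ≤ nv D₀) :
    ∀ j : ℕ, ∃ A : List (Ann N T), A ⊆ U t ∧ (∃ σ ∈ A, ty a σ = ty a σ₀) ∧
      (yld A).count a = (yld (U t)).count a ∧ j ≤ nv A ∧
      Relation.ReflTransGen (fun u v => ∃ R ∈ 𝓡, TStep R u v) (und (U 0)) (und A) := by
  have hex : ∀ σ : Ann N T, ∃ σ' : Ann N T, ∃ D, σ ∈ U t → (σ' ∈ U s ∧ ty a σ' = ty a σ ∧
      Chain R s t [σ'] D ∧ D ⊆ U t ∧ (ty a σ = ty a σ₀ → D = D₀)) := by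
    intro σ
    by_cases hσ : σ ∈ U t
    · by_cases h0 : ty a σ = ty a σ₀
      · exact ⟨σ₀, D₀, fun _ => ⟨hσ₀, h0.symm, hD₀, hD₀U, fun _ => rfl⟩⟩
      · obtain ⟨σ', h1, h2⟩ := hty σ hσ
        obtain ⟨D, h3, h4⟩ := (level_chain' hstep hst.le htk).desc h1
        exact ⟨σ', D, fun _ => ⟨h1, h2, h3, h4, fun h => absurd h h0⟩⟩
    · exact ⟨σ₀, [], fun h => absurd h hσ⟩
  choose r δ hδ using hex
  -- one pumping step on a word over level t
  have hchain : ∀ A : List (Ann N T), A ⊆ U t → Chain R s t (A.map r) (A.flatMap δ) := by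
    intro A
    induction A with
    | nil =>
      intro _
      exact chain_flatMap hst.le δ [] (by simp)
    | cons σ A ih =>
      intro hA
      rw [List.map_cons, List.flatMap_cons]
      exact Chain.append (A := [r σ]) (hδ σ (hA (by simp))).2.2.1
        (ih (fun x hx => hA (List.mem_cons_of_mem _ hx)))
  have hund : ∀ A : List (Ann N T), A ⊆ U t → und (A.map r) = und A := by
    intro A
    induction A with
    | nil => intro _; rfl
    | cons σ A ih =>
      intro hA
      rw [List.map_cons, und_cons, und_cons, ih (fun x hx => hA (List.mem_cons_of_mem _ hx))]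
      have := (hδ σ (hA (by simp))).2.1
      rw [show (r σ).1 = σ.1 from (Prod.mk.inj this).1]
  have hcount1 : ∀ σ ∈ U t, (yld (δ σ)).count a = σ.2.count a := by
    intro σ hσ
    obtain ⟨h1, h2, h3, h4, h5⟩ := hδ σ hσ
    rw [← h3.yld_eq]
    have h6 : yld [r σ] = (r σ).2 := by simp
    rw [h6]
    have h7 := hone (r σ) h1
    have h8 := honet σ hσ
    have h9 : (a ∈ (r σ).2) = (a ∈ σ.2) := (Prod.mk.inj (Prod.mk.inj h2).2).2
    by_cases ha : a ∈ σ.2
    · have h10 := List.count_pos_iff.2 ha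
      rw [← h9] at ha
      have h11 := List.count_pos_iff.2 ha
      omega
    · rw [List.count_eq_zero_of_not_mem ha]
      rw [← h9] at ha
      rw [List.count_eq_zero_of_not_mem ha]
  have hcount : ∀ A : List (Ann N T), A ⊆ U t →
      (yld (A.flatMap δ)).count a = (yld A).count a := by
    intro A
    induction A with
    | nil => intro _; rfl
    | cons σ A ih =>
      intro hA
      rw [List.flatMap_cons, yld_append, yld_cons, List.count_append, List.count_append,
        ih (fun x hx => hA (List.mem_cons_of_mem _ hx)), hcount1 σ (hA (by simp))]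
  have hnv1 : ∀ σ ∈ U t, (if σ.2 ≠ [] then 1 else 0) ≤ nv (δ σ) := by
    intro σ hσ
    obtain ⟨h1, h2, h3, h4, h5⟩ := hδ σ hσ
    split_ifs with h6
    · apply nv_pos_of_yld
      rw [← h3.yld_eq]
      have h7 : yld [r σ] = (r σ).2 := by simp
      rw [h7]
      have h9 : ((r σ).2 ≠ []) = (σ.2 ≠ []) := (Prod.mk.inj (Prod.mk.inj h2).2).1
      rw [h9]
      exact h6
    · omega
  have hnvA : ∀ A : List (Ann N T), A ⊆ U t → nv A ≤ nv (A.flatMap δ) := by
    intro A
    induction A with
    | nil => intro _; exact le_rfl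
    | cons σ A ih =>
      intro hA
      rw [List.flatMap_cons, nv_append, nv_cons]
      exact add_le_add (hnv1 σ (hA (by simp))) (ih (fun x hx => hA (List.mem_cons_of_mem _ hx)))
  have hnvA' : ∀ A : List (Ann N T), A ⊆ U t → (∃ σ ∈ A, ty a σ = ty a σ₀) →
      nv A + 1 ≤ nv (A.flatMap δ) := by
    intro A
    induction A with
    | nil => rintro _ ⟨σ, hσ, _⟩; exact absurd hσ (by simp)
    | cons σ A ih =>
      rintro hA ⟨τ, hτ, hτ2⟩
      have hA' : A ⊆ U t := fun x hx => hA (List.mem_cons_of_mem _ hx)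
      rw [List.flatMap_cons, nv_append, nv_cons]
      rcases List.mem_cons.1 hτ with rfl | hτ
      · have h1 : δ τ = D₀ := (hδ τ (hA (by simp))).2.2.2.2 hτ2
        rw [h1]
        have h2 := hnvA A hA'
        split_ifs <;> omega
      · have h1 := ih hA' ⟨τ, hτ, hτ2⟩
        have h2 := hnv1 σ (hA (by simp))
        omega
  intro j
  induction j with
  | zero =>
    exact ⟨U t, fun x hx => hx, ⟨σ₁, hD₀U hσ₁, hty₁⟩, rfl, Nat.zero_le _,
      (level_chain' hstep (Nat.zero_le t) htk).rtg htk hR⟩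
  | succ j ih =>
    obtain ⟨A, hA, ⟨σ, hσ, hσ2⟩, hc, hj, hd⟩ := ih
    refine ⟨A.flatMap δ, ?_, ⟨σ₁, ?_, hty₁⟩, ?_, ?_, ?_⟩
    · intro x hx
      rw [List.mem_flatMap] at hx
      obtain ⟨τ, hτ, hx⟩ := hx
      exact (hδ τ (hA hτ)).2.2.2.1 hx
    · rw [List.mem_flatMap]
      refine ⟨σ, hσ, ?_⟩
      rw [(hδ σ (hA hσ)).2.2.2.2 hσ2]
      exact hσ₁
    · rw [hcount A hA, hc]
    · have := hnvA' A hA ⟨σ, hσ, hσ2⟩
      omega
    · have h1 := (hchain A hA).rtg htk hR
      rw [hund A hA] at h1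
      exact hd.trans h1

/-- if no pumping is possible from level `t₁` on, then yields are bounded -/
lemma bound (hstep : ∀ t < k, AStep (R t) (U t) (U (t + 1))) {C : ℕ} (hC : 1 ≤ C)
    (hRC : ∀ t < k, ∀ x ∈ R t, x.2.length ≤ C)
    (hk : ∀ σ ∈ U k, σ.2.length ≤ 1) {t₁ : ℕ}
    (hno : ∀ s t (σ σ' : Ann N T) (D : List (Ann N T)), t₁ ≤ s → s < t → t ≤ k → σ ∈ U s →
      Chain R s t [σ] D → D ⊆ U t → σ' ∈ D → ty a σ' = ty a σ →
      (∀ τ ∈ U t, ∃ τ' ∈ U s, ty a τ' = ty a τ) → ¬ 2 ≤ nv D) :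
    ∀ (n : ℕ) (F : Finset (((N ⊕ T) × Prop × Prop) × Set ((N ⊕ T) × Prop × Prop))), F.card = n →
      ∀ m t, t + m = k → t₁ ≤ t → ∀ σ ∈ U t,
      (∀ t', t ≤ t' → t' < k → ∀ D, Chain R t t' [σ] D → D ⊆ U t' → ∀ σ' ∈ D,
        (∃ E, AStep (R t') [σ'] E ∧ E ⊆ U (t' + 1) ∧ 2 ≤ nv E) →
        (ty a σ', ty a '' {τ | τ ∈ U t'}) ∈ F) → σ.2.length ≤ C ^ n := by
  intro n
  induction n with
  | zero =>
    intro F hF m
    rw [Finset.card_eq_zero] at hF
    subst hF
    induction m with
    | zero =>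
      intro t ht _ σ hσ _
      rw [add_zero] at ht
      subst ht
      simpa using hk σ hσ
    | succ m ih =>
      intro t ht ht1 σ hσ hF
      obtain ⟨E, hE, hEU⟩ := (level_chain' hstep (show t ≤ t + 1 by omega) (by omega)).desc hσ
      obtain ⟨E', hE', hE''⟩ := chain_of_lt hE (by omega)
      have := chain_self hE''
      subst this
      have hy : yld E' = σ.2 := by rw [← hE'.yld_eq]; simp
      have hnv : nv E' ≤ 1 := by
        by_contra hcon
        have := hF t le_rfl (by omega) [σ] (Chain.refl _ _) (by simpa using hσ) σ (by simp)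
          ⟨E', hE', hEU, by omega⟩
        simp at this
      have h1 : ∀ τ ∈ E', τ.2.length ≤ C ^ 0 := by
        intro τ hτ
        apply ih (t + 1) (by omega) (by omega) τ (hEU hτ)
        intro t' ht' ht'k D hD hDU σ' hσ' hbr
        obtain ⟨E₁, E₂, rfl⟩ := List.append_of_mem hτ
        obtain ⟨D₁, D₂, hD12, h3, h4⟩ : ∃ D₁ D₂ : List (Ann N T), True ∧
            (Chain R (t + 1) t' E₁ D₁ ∧ D₁ ⊆ U t') ∧ (Chain R (t + 1) t' E₂ D₂ ∧ D₂ ⊆ U t') := by
          have hex : ∀ A : List (Ann N T), A ⊆ U (t + 1) →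
              ∃ B, Chain R (t + 1) t' A B ∧ B ⊆ U t' := by
            intro A
            induction A with
            | nil => intro _; exact ⟨_, chain_flatMap ht' (fun _ => []) [] (by simp), by simp⟩
            | cons x A ihA =>
              intro hA
              obtain ⟨B₁, hB₁, hB₂⟩ :=
                (level_chain' hstep ht' (by omega)).desc (hA (List.mem_cons_self))
              obtain ⟨B₃, hB₃, hB₄⟩ := ihA (fun y hy => hA (List.mem_cons_of_mem _ hy))
              exact ⟨B₁ ++ B₃, Chain.append (A := [x]) hB₁ hB₃, List.append_subset.2 ⟨hB₂, hB₄⟩⟩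
          obtain ⟨D₁, hD₁⟩ := hex E₁ (fun x hx => hEU (by simp [hx]))
          obtain ⟨D₂, hD₂⟩ := hex E₂ (fun x hx => hEU (by simp [hx]))
          exact ⟨D₁, D₂, trivial, hD₁, hD₂⟩
        refine hF t' (by omega) ht'k (D₁ ++ (D ++ D₂)) ?_ ?_ σ' (by simp [hσ']) hbr
        · exact Chain.head _ _ _ _ _ hE' (h3.1.append (Chain.append (A := [τ]) hD h4.1))
        · exact List.append_subset.2 ⟨h3.2, List.append_subset.2 ⟨hDU, h4.2⟩⟩
      have h2 := yld_len h1
      rw [hy] at h2
      calc σ.2.length ≤ nv E' * C ^ 0 := h2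
        _ ≤ 1 * C ^ 0 := Nat.mul_le_mul_right _ hnv
        _ = C ^ 0 := one_mul _
  | succ n ihn =>
    intro F hF m
    induction m with
    | zero =>
      intro t ht _ σ hσ _
      rw [add_zero] at ht
      subst ht
      exact le_trans (hk σ hσ) (Nat.one_le_pow _ _ hC)
    | succ m ih =>
      intro t ht ht1 σ hσ hF'
      obtain ⟨E, hE, hEU⟩ := (level_chain' hstep (show t ≤ t + 1 by omega) (by omega)).desc hσ
      obtain ⟨E', hE', hE''⟩ := chain_of_lt hE (by omega)
      have := chain_self hE''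
      subst this
      have hy : yld E' = σ.2 := by rw [← hE'.yld_eq]; simp
      -- extension of descendants of a child
      have hext : ∀ τ ∈ E', ∀ t', t + 1 ≤ t' → t' < k → ∀ D, Chain R (t + 1) t' [τ] D → D ⊆ U t' →
          ∃ D', Chain R t t' [σ] D' ∧ D' ⊆ U t' ∧ D ⊆ D' ∧ nv E' ≤ nv D' := by
        intro τ hτ t' ht' ht'k D hD hDU
        have hex : ∀ A : List (Ann N T), A ⊆ U (t + 1) →
            ∃ B, Chain R (t + 1) t' A B ∧ B ⊆ U t' := by
          intro A
          induction A with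
          | nil => intro _; exact ⟨_, chain_flatMap ht' (fun _ => []) [] (by simp), by simp⟩
          | cons x A ihA =>
            intro hA
            obtain ⟨B₁, hB₁, hB₂⟩ :=
              (level_chain' hstep ht' (by omega)).desc (hA (List.mem_cons_self))
            obtain ⟨B₃, hB₃, hB₄⟩ := ihA (fun y hy => hA (List.mem_cons_of_mem _ hy))
            exact ⟨B₁ ++ B₃, Chain.append (A := [x]) hB₁ hB₃, List.append_subset.2 ⟨hB₂, hB₄⟩⟩
        obtain ⟨E₁, E₂, rfl⟩ := List.append_of_mem hτ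
        obtain ⟨D₁, hD₁, hD₁'⟩ := hex E₁ (fun x hx => hEU (by simp [hx]))
        obtain ⟨D₂, hD₂, hD₂'⟩ := hex E₂ (fun x hx => hEU (by simp [hx]))
        have hch : Chain R (t + 1) t' (E₁ ++ τ :: E₂) (D₁ ++ (D ++ D₂)) :=
          hD₁.append (Chain.append (A := [τ]) hD hD₂)
        refine ⟨D₁ ++ (D ++ D₂), Chain.head _ _ _ _ _ hE' hch,
          List.append_subset.2 ⟨hD₁', List.append_subset.2 ⟨hDU, hD₂'⟩⟩, ?_, hch.nv_le⟩
        intro x hx
        simp [hx]
      by_cases hbr : 2 ≤ nv E'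
      · have hmem := hF' t le_rfl (by omega) [σ] (Chain.refl _ _) (by simpa using hσ) σ (by simp)
          ⟨E', hE', hEU, hbr⟩
        have h1 : ∀ τ ∈ E', τ.2.length ≤ C ^ n := by
          intro τ hτ
          refine ihn (F.erase (ty a σ, ty a '' {τ | τ ∈ U t})) ?_ m (t + 1) (by omega) (by omega) τ
            (hEU hτ) ?_
          · rw [Finset.card_erase_of_mem hmem, hF]; rfl
          · intro t' ht' ht'k D hD hDU σ' hσ' hbr'
            obtain ⟨D', h3, h4, h5, h6⟩ := hext τ hτ t' ht' ht'k D hD hDU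
            rw [Finset.mem_erase]
            refine ⟨?_, hF' t' (by omega) ht'k D' h3 h4 σ' (h5 hσ') hbr'⟩
            intro heq
            obtain ⟨h7, h8⟩ := Prod.mk.inj heq
            refine hno t t' σ σ' D' ht1 (by omega) (by omega) hσ h3 h4 (h5 hσ') h7 ?_ (by omega)
            intro τ' hτ'
            have : ty a τ' ∈ ty a '' {τ | τ ∈ U t} := by
              rw [← h8]
              exact ⟨τ', hτ', rfl⟩
            obtain ⟨τ'', h9, h10⟩ := this
            exact ⟨τ'', h9, h10⟩
        have h2 := yld_len h1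
        rw [hy] at h2
        have h3 : E'.length ≤ C := by
          have hmemR : ∃ x ∈ R t, x.2 = und E' := by
            generalize hs : [σ] = s at hE'
            cases hE' with
            | nil => cases hs
            | cons X D V W hr h =>
              rw [List.cons.injEq] at hs
              obtain ⟨_, hV⟩ := hs
              subst hV
              cases h
              exact ⟨_, hr, by simp⟩
          obtain ⟨x, hx, hx2⟩ := hmemR
          have := hRC t (by omega) x hx
          rw [hx2] at this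
          simpa [und] using this
        calc σ.2.length ≤ nv E' * C ^ n := h2
          _ ≤ C * C ^ n := Nat.mul_le_mul_right _ (le_trans (nv_le_length _) h3)
          _ = C ^ (n + 1) := by ring
      · have h1 : ∀ τ ∈ E', τ.2.length ≤ C ^ (n + 1) := by
          intro τ hτ
          apply ih (t + 1) (by omega) (by omega) τ (hEU hτ)
          intro t' ht' ht'k D hD hDU σ' hσ' hbr'
          obtain ⟨D', h3, h4, h5, h6⟩ := hext τ hτ t' ht' ht'k D hD hDU
          exact hF' t' (by omega) ht'k D' h3 h4 σ' (h5 hσ') hbr'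
        have h2 := yld_len h1
        rw [hy] at h2
        calc σ.2.length ≤ nv E' * C ^ (n + 1) := h2
          _ ≤ 1 * C ^ (n + 1) := Nat.mul_le_mul_right _ (by omega)
          _ = C ^ (n + 1) := one_mul _

end Levels

end Pool.Agent.Helper82.LP
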