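import Pool.Agent.Helper82.LPDefs

set_option autoImplicit false

namespace Pool.Agent.Helper82.LP

/-- nonterminals: `P` creator, `W` waiting cell, `F` waiting last cell, `O` fresh cell, `H` head,
`I` used cell, `E` last cell -/
inductive Nt : Type
  | P | W | F | O | H | I | E
  deriving DecidableEq

instance : Fintype Nt :=
  Fintype.ofList [Nt.P, Nt.W, Nt.F, Nt.O, Nt.H, Nt.I, Nt.E] (by intro x; cases x <;> simp)

/-- symbols -/
abbrev Sy : Type := Nt ⊕ Bool

/-- nonterminal as symbol -/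
abbrev n (A : Nt) : Sy := Sum.inl A

/-- the letter `a` -/
abbrev la : Sy := Sum.inr true
/-- the letter `b` -/
abbrev lb : Sy := Sum.inr false

/-- the list of rules -/
def rl : List (Rule Nt Bool) :=
  [⟨n Nt.P, [n Nt.P, n Nt.W], ∅, ∅⟩,
   ⟨n Nt.P, [n Nt.H], ∅, ∅⟩,
   ⟨n Nt.W, [n Nt.W], {Nt.P}, ∅⟩,
   ⟨n Nt.W, [n Nt.O], {Nt.P}, ∅⟩,
   ⟨n Nt.F, [n Nt.F], {Nt.P}, ∅⟩,
   ⟨n Nt.F, [n Nt.E], {Nt.P}, ∅⟩,
   ⟨n Nt.H, [n Nt.I, lb], ∅, ∅⟩,
   ⟨n Nt.H, [la], ∅, ∅⟩,
   ⟨n Nt.I, [n Nt.I, lb], ∅, ∅⟩,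
   ⟨n Nt.I, [la], ∅, ∅⟩,
   ⟨n Nt.O, [n Nt.O, lb], {Nt.H}, ∅⟩,
   ⟨n Nt.O, [n Nt.H, lb], {Nt.H}, ∅⟩,
   ⟨n Nt.O, [la], ∅, ∅⟩,
   ⟨n Nt.E, [n Nt.E, lb], {Nt.H}, ∅⟩,
   ⟨n Nt.E, [la], ∅, ∅⟩,
   ⟨lb, [lb], ∅, ∅⟩]

/-- the set of rules -/
def RL : Set (Rule Nt Bool) := {r | r ∈ rl}

lemma RL_finite : RL.Finite := List.finite_toSet rl

/-- steps -/
abbrev St : List Sy → List Sy → List Sy → Prop := Step RL

/-- applicability of a rewriting `A → x` in the left context `p` -/
inductive App (p : List Sy) : Sy → List Sy → Prop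
  | P1 : App p (n Nt.P) [n Nt.P, n Nt.W]
  | P2 : App p (n Nt.P) [n Nt.H]
  | W1 (h : n Nt.P ∈ p) : App p (n Nt.W) [n Nt.W]
  | W2 (h : n Nt.P ∈ p) : App p (n Nt.W) [n Nt.O]
  | F1 (h : n Nt.P ∈ p) : App p (n Nt.F) [n Nt.F]
  | F2 (h : n Nt.P ∈ p) : App p (n Nt.F) [n Nt.E]
  | H1 : App p (n Nt.H) [n Nt.I, lb]
  | H2 : App p (n Nt.H) [la]
  | I1 : App p (n Nt.I) [n Nt.I, lb]
  | I2 : App p (n Nt.I) [la]
  | O1 (h : n Nt.H ∈ p) : App p (n Nt.O) [n Nt.O, lb]
  | O2 (h : n Nt.H ∈ p) : App p (n Nt.O) [n Nt.H, lb]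
  | O3 : App p (n Nt.O) [la]
  | E1 (h : n Nt.H ∈ p) : App p (n Nt.E) [n Nt.E, lb]
  | E2 : App p (n Nt.E) [la]
  | B1 : App p lb [lb]

lemma app_of_rule {p : List Sy} {r : Rule Nt Bool} (hr : r ∈ RL)
    (hU : ∀ A ∈ r.perm, Sum.inl A ∈ p) : App p r.lhs r.rhs := by
  simp only [RL, rl, Set.mem_ofPred_eq, List.mem_cons, List.not_mem_nil, or_false] at hr
  rcases hr with rfl | rfl | rfl | rfl | rfl | rfl | rfl | rfl | rfl | rfl | rfl | rfl | rfl |
    rfl | rfl | rfl
  · exact App.P1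
  · exact App.P2
  · exact App.W1 (hU _ rfl)
  · exact App.W2 (hU _ rfl)
  · exact App.F1 (hU _ rfl)
  · exact App.F2 (hU _ rfl)
  · exact App.H1
  · exact App.H2
  · exact App.I1
  · exact App.I2
  · exact App.O1 (hU _ rfl)
  · exact App.O2 (hU _ rfl)
  · exact App.O3
  · exact App.E1 (hU _ rfl)
  · exact App.E2
  · exact App.B1

lemma step_nil {p y : List Sy} (h : St p [] y) : y = [] := by
  cases h; rfl

lemma step_cons_inv {p u y : List Sy} {a : Sy} (h : St p (a :: u) y) :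
    ∃ x v, App p a x ∧ St (p ++ [a]) u v ∧ y = x ++ v := by
  generalize hs : a :: u = s at h
  cases h with
  | nil => cases hs
  | cons _ u' v r hr hU hW h =>
    rw [List.cons.injEq] at hs
    obtain ⟨rfl, rfl⟩ := hs
    exact ⟨r.rhs, v, app_of_rule hr hU, h, rfl⟩

lemma step_cons {p u v x : List Sy} {a : Sy} (h1 : App p a x) (h2 : St (p ++ [a]) u v) :
    St p (a :: u) (x ++ v) := by
  have hW : ∀ A ∈ (∅ : Set Nt), (Sum.inl A : Sy) ∉ p := fun A hA => absurd hA (Set.notMem_empty _)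
  have hU : ∀ A ∈ (∅ : Set Nt), (Sum.inl A : Sy) ∈ p := fun A hA => absurd hA (Set.notMem_empty _)
  have hU' : ∀ B : Nt, n B ∈ p → ∀ A ∈ ({B} : Set Nt), (Sum.inl A : Sy) ∈ p := by
    intro B hB A hA
    rw [Set.mem_singleton_iff] at hA
    rw [hA]; exact hB
  cases h1 with
  | P1 => exact Step.cons p u v ⟨n Nt.P, [n Nt.P, n Nt.W], ∅, ∅⟩ (by simp [RL, rl]) hU hW h2
  | P2 => exact Step.cons p u v ⟨n Nt.P, [n Nt.H], ∅, ∅⟩ (by simp [RL, rl]) hU hW h2
  | W1 h => exact Step.cons p u v ⟨n Nt.W, [n Nt.W], {Nt.P}, ∅⟩ (by simp [RL, rl]) (hU' _ h) hW h2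
  | W2 h => exact Step.cons p u v ⟨n Nt.W, [n Nt.O], {Nt.P}, ∅⟩ (by simp [RL, rl]) (hU' _ h) hW h2
  | F1 h => exact Step.cons p u v ⟨n Nt.F, [n Nt.F], {Nt.P}, ∅⟩ (by simp [RL, rl]) (hU' _ h) hW h2
  | F2 h => exact Step.cons p u v ⟨n Nt.F, [n Nt.E], {Nt.P}, ∅⟩ (by simp [RL, rl]) (hU' _ h) hW h2
  | H1 => exact Step.cons p u v ⟨n Nt.H, [n Nt.I, lb], ∅, ∅⟩ (by simp [RL, rl]) hU hW h2
  | H2 => exact Step.cons p u v ⟨n Nt.H, [la], ∅, ∅⟩ (by simp [RL, rl]) hU hW h2
  | I1 => exact Step.cons p u v ⟨n Nt.I, [n Nt.I, lb], ∅, ∅⟩ (by simp [RL, rl]) hU hW h2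
  | I2 => exact Step.cons p u v ⟨n Nt.I, [la], ∅, ∅⟩ (by simp [RL, rl]) hU hW h2
  | O1 h => exact Step.cons p u v ⟨n Nt.O, [n Nt.O, lb], {Nt.H}, ∅⟩ (by simp [RL, rl]) (hU' _ h) hW h2
  | O2 h => exact Step.cons p u v ⟨n Nt.O, [n Nt.H, lb], {Nt.H}, ∅⟩ (by simp [RL, rl]) (hU' _ h) hW h2
  | O3 => exact Step.cons p u v ⟨n Nt.O, [la], ∅, ∅⟩ (by simp [RL, rl]) hU hW h2
  | E1 h => exact Step.cons p u v ⟨n Nt.E, [n Nt.E, lb], {Nt.H}, ∅⟩ (by simp [RL, rl]) (hU' _ h) hW h2
  | E2 => exact Step.cons p u v ⟨n Nt.E, [la], ∅, ∅⟩ (by simp [RL, rl]) hU hW h2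
  | B1 => exact Step.cons p u v ⟨lb, [lb], ∅, ∅⟩ (by simp [RL, rl]) hU hW h2

/-- runs of `b` -/
def bs (t : ℕ) : List Sy := List.replicate t lb

lemma step_bs_inv (t : ℕ) : ∀ {p u y : List Sy}, St p (bs t ++ u) y →
    ∃ v, St (p ++ bs t) u v ∧ y = bs t ++ v := by
  induction t with
  | zero => intro p u y h; exact ⟨y, by simpa [bs] using h, rfl⟩
  | succ t ih =>
    intro p u y h
    have e : bs (t + 1) = lb :: bs t := rfl
    rw [e, List.cons_append] at h
    obtain ⟨x, v, h1, h2, rfl⟩ := step_cons_inv h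
    cases h1
    obtain ⟨v', h3, rfl⟩ := ih h2
    refine ⟨v', ?_, ?_⟩
    · rw [e]; simpa using h3
    · rw [e]; rfl

lemma step_bs (t : ℕ) : ∀ {p u v : List Sy}, St (p ++ bs t) u v →
    St p (bs t ++ u) (bs t ++ v) := by
  induction t with
  | zero => intro p u v h; simpa [bs] using h
  | succ t ih =>
    intro p u v h
    have e : bs (t + 1) = lb :: bs t := rfl
    rw [e, List.cons_append, List.cons_append]
    exact step_cons (x := [lb]) App.B1 (ih (by rw [e] at h; simpa using h))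

/-- cells with `t` letters `b` each, and the last cell -/
def wd (cs : List Nt) (t : ℕ) : List Sy :=
  cs.flatMap (fun c => n c :: bs t) ++ (n Nt.E :: bs t)

lemma wd_nil (t : ℕ) : wd [] t = n Nt.E :: bs t := rfl
lemma wd_cons (c : Nt) (cs : List Nt) (t : ℕ) : wd (c :: cs) t = n c :: (bs t ++ wd cs t) := by
  simp [wd]

/-- final words -/
def fw (m t : ℕ) : List Sy := (List.replicate m (la :: bs t)).flatten

lemma fw_succ (m t : ℕ) : fw (m + 1) t = la :: (bs t ++ fw m t) := by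
  simp [fw, List.replicate_succ]

/-- ticks; the proposition says that there is a head in the left context -/
inductive Tick : Prop → List Nt → List Nt → Prop
  | nil (q : Prop) : Tick q [] []
  | I (q : Prop) (cs cs' : List Nt) (h : Tick q cs cs') : Tick q (Nt.I :: cs) (Nt.I :: cs')
  | H (q : Prop) (cs cs' : List Nt) (h : Tick True cs cs') : Tick q (Nt.H :: cs) (Nt.I :: cs')
  | O1 (q : Prop) (hq : q) (cs cs' : List Nt) (h : Tick True cs cs') :
      Tick q (Nt.O :: cs) (Nt.O :: cs')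
  | O2 (q : Prop) (hq : q) (cs cs' : List Nt) (h : Tick True cs cs') :
      Tick q (Nt.O :: cs) (Nt.H :: cs')

/-- proper cells -/
def Cell (c : Nt) : Prop := c = Nt.O ∨ c = Nt.H ∨ c = Nt.I

lemma step_wd_of_tick {q : Prop} {cs cs' : List Nt} (h : Tick q cs cs') (t : ℕ) :
    ∀ p : List Sy, (q → n Nt.H ∈ p) → (n Nt.H ∈ p ∨ Nt.H ∈ cs) →
      St p (wd cs t) (wd cs' (t + 1)) := by
  have e : bs (t + 1) = lb :: bs t := rfl
  induction h with
  | nil q =>
    intro p _ h2
    have h3 : n Nt.H ∈ p := by simpa using h2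
    rw [wd_nil, wd_nil, e]
    have h4 : St (p ++ [n Nt.E]) (bs t ++ []) (bs t ++ []) := step_bs t (Step.nil _)
    rw [List.append_nil] at h4
    exact step_cons (x := [n Nt.E, lb]) (App.E1 h3) h4
  | I q cs cs' _ ih =>
    intro p h1 h2
    rw [wd_cons, wd_cons, e]
    refine step_cons (x := [n Nt.I, lb]) App.I1 (step_bs t (ih _ ?_ ?_))
    · intro hq; simp [h1 hq]
    · rcases h2 with h2 | h2
      · left; simp [h2]
      · right; simpa using h2
  | H q cs cs' _ ih =>
    intro p h1 h2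
    rw [wd_cons, wd_cons, e]
    exact step_cons (x := [n Nt.I, lb]) App.H1 (step_bs t (ih _ (by simp) (by simp)))
  | O1 q hq cs cs' _ ih =>
    intro p h1 h2
    rw [wd_cons, wd_cons, e]
    exact step_cons (x := [n Nt.O, lb]) (App.O1 (h1 hq)) (step_bs t (ih _ (by simp [h1 hq])
      (by simp [h1 hq])))
  | O2 q hq cs cs' _ ih =>
    intro p h1 h2
    rw [wd_cons, wd_cons, e]
    exact step_cons (x := [n Nt.H, lb]) (App.O2 (h1 hq)) (step_bs t (ih _ (by simp [h1 hq])
      (by simp [h1 hq])))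

lemma step_wd_final {cs : List Nt} (hcs : ∀ c ∈ cs, Cell c) (t : ℕ) :
    ∀ p : List Sy, St p (wd cs t) (fw (cs.length + 1) t) := by
  induction cs with
  | nil =>
    intro p
    rw [wd_nil, List.length_nil, zero_add, show (1 : ℕ) = 0 + 1 from rfl, fw_succ]
    have h4 : St (p ++ [n Nt.E]) (bs t ++ []) (bs t ++ fw 0 t) := by
      refine step_bs t ?_
      exact Step.nil _
    rw [List.append_nil] at h4
    exact step_cons (x := [la]) App.E2 h4
  | cons c cs ih =>
    intro p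
    rw [wd_cons, List.length_cons, fw_succ]
    have hrest := step_bs t (ih (fun c hc => hcs c (by simp [hc])) (p ++ [n c] ++ bs t))
    rcases hcs c (by simp) with rfl | rfl | rfl
    · exact step_cons (x := [la]) App.O3 hrest
    · exact step_cons (x := [la]) App.H2 hrest
    · exact step_cons (x := [la]) App.I2 hrest

/-- steps from words of cells -/
lemma step_wd_inv {cs : List Nt} (hcs : ∀ c ∈ cs, Cell c) (t : ℕ) :
    ∀ (p y : List Sy), St p (wd cs t) y →
      y = fw (cs.length + 1) t ∨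
      (∃ cs', Tick (n Nt.H ∈ p) cs cs' ∧ y = wd cs' (t + 1) ∧ (n Nt.H ∈ p ∨ Nt.H ∈ cs)) ∨
      (la ∈ y ∧ ∃ A, n A ∈ y) := by
  have e : bs (t + 1) = lb :: bs t := rfl
  induction cs with
  | nil =>
    intro p y h
    rw [wd_nil] at h
    obtain ⟨x, v, h1, h2, rfl⟩ := step_cons_inv h
    rw [show bs t = bs t ++ [] by simp] at h2
    obtain ⟨v', h3, rfl⟩ := step_bs_inv t h2
    have := step_nil h3
    subst this
    cases h1 with
    | E1 hH =>
      right; left
      exact ⟨[], Tick.nil _, by rw [wd_nil, e]; simp, Or.inl hH⟩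
    | E2 =>
      left
      rw [List.length_nil, zero_add, show (1 : ℕ) = 0 + 1 from rfl, fw_succ]
      simp [fw]
  | cons c cs ih =>
    intro p y h
    rw [wd_cons] at h
    obtain ⟨x, v, h1, h2, rfl⟩ := step_cons_inv h
    obtain ⟨v', h3, rfl⟩ := step_bs_inv t h2
    have hrest := ih (fun c hc => hcs c (by simp [hc])) _ _ h3
    have hc := hcs c (by simp)
    -- either the cell is finished or it is advanced
    have hx : x = [la] ∨ ∃ c', x = [n c', lb] ∧
        ((c = Nt.I ∧ c' = Nt.I) ∨ (c = Nt.H ∧ c' = Nt.I) ∨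
          (c = Nt.O ∧ (c' = Nt.O ∨ c' = Nt.H) ∧ n Nt.H ∈ p)) := by
      rcases hc with rfl | rfl | rfl
      · cases h1 with
        | O1 hp => exact Or.inr ⟨_, rfl, Or.inr (Or.inr ⟨rfl, Or.inl rfl, hp⟩)⟩
        | O2 hp => exact Or.inr ⟨_, rfl, Or.inr (Or.inr ⟨rfl, Or.inr rfl, hp⟩)⟩
        | O3 => exact Or.inl rfl
      · cases h1 with
        | H1 => exact Or.inr ⟨_, rfl, Or.inr (Or.inl ⟨rfl, rfl⟩)⟩
        | H2 => exact Or.inl rfl
      · cases h1 with
        | I1 => exact Or.inr ⟨_, rfl, Or.inl ⟨rfl, rfl⟩⟩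
        | I2 => exact Or.inl rfl
    rcases hrest with hrest | ⟨cs', hT, hrest, hH⟩ | ⟨hla, A, hA⟩
    · -- the rest is finished
      rcases hx with rfl | ⟨c', rfl, _⟩
      · left
        rw [hrest, List.length_cons, fw_succ]; rfl
      · right; right
        refine ⟨?_, c', by simp⟩
        rw [hrest, fw_succ]
        simp
    · rcases hx with rfl | ⟨c', rfl, hcc⟩
      · right; right
        refine ⟨by simp, Nt.E, ?_⟩
        rw [hrest]
        simp [wd]
      · right; left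
        refine ⟨c' :: cs', ?_, ?_, ?_⟩
        · have hmem : (n Nt.H ∈ p ++ [n c] ++ bs t) = (n Nt.H ∈ p ∨ c = Nt.H) := by
            simp [bs, eq_comm]
          rw [hmem] at hT
          rcases hcc with ⟨rfl, rfl⟩ | ⟨rfl, rfl⟩ | ⟨rfl, h4, h5⟩
          · have : (n Nt.H ∈ p ∨ Nt.I = Nt.H) = (n Nt.H ∈ p) := by simp
            rw [this] at hT
            exact Tick.I _ _ _ hT
          · have : (n Nt.H ∈ p ∨ Nt.H = Nt.H) = True := by simp
            rw [this] at hT
            exact Tick.H _ _ _ hT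
          · have : (n Nt.H ∈ p ∨ Nt.O = Nt.H) = True := by simp [h5]
            rw [this] at hT
            rcases h4 with rfl | rfl
            · exact Tick.O1 _ h5 _ _ hT
            · exact Tick.O2 _ h5 _ _ hT
        · rw [hrest, wd_cons, e]; simp
        · have hmem : (n Nt.H ∈ p ++ [n c] ++ bs t) ↔ (n Nt.H ∈ p ∨ c = Nt.H) := by
            simp [bs, eq_comm]
          rw [hmem] at hH
          rcases hH with (hH | hH) | hH
          · exact Or.inl hH
          · right; simp [hH]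
          · right; simp [hH]
    · right; right
      exact ⟨by simp [hla], A, by simp [hA]⟩

lemma Tick.cells {q : Prop} {cs cs' : List Nt} (h : Tick q cs cs') : ∀ c ∈ cs', Cell c := by
  induction h with
  | nil => simp
  | I _ _ _ _ ih =>
    intro c hc
    rcases List.mem_cons.1 hc with rfl | hc
    · exact Or.inr (Or.inr rfl)
    · exact ih c hc
  | H _ _ _ _ ih =>
    intro c hc
    rcases List.mem_cons.1 hc with rfl | hc
    · exact Or.inr (Or.inr rfl)
    · exact ih c hc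
  | O1 _ _ _ _ _ ih =>
    intro c hc
    rcases List.mem_cons.1 hc with rfl | hc
    · exact Or.inl rfl
    · exact ih c hc
  | O2 _ _ _ _ _ ih =>
    intro c hc
    rcases List.mem_cons.1 hc with rfl | hc
    · exact Or.inr (Or.inl rfl)
    · exact ih c hc

lemma Tick.length {q : Prop} {cs cs' : List Nt} (h : Tick q cs cs') : cs'.length = cs.length := by
  induction h with
  | nil => rfl
  | I _ _ _ _ ih => simp [ih]
  | H _ _ _ _ ih => simp [ih]
  | O1 _ _ _ _ _ ih => simp [ih]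
  | O2 _ _ _ _ _ ih => simp [ih]

lemma Tick.count {q : Prop} {cs cs' : List Nt} (h : Tick q cs cs') :
    cs.count Nt.I + cs.count Nt.H ≤ cs'.count Nt.I := by
  induction h with
  | nil => simp
  | I _ _ _ _ ih => simp; omega
  | H _ _ _ _ ih => simp; omega
  | O1 _ _ _ _ _ ih => simpa using ih
  | O2 _ _ _ _ _ ih => simpa using ih

/-- no step from a word containing `a` -/
lemma no_step_of_la : ∀ {u p y : List Sy}, la ∈ u → ¬ St p u y := by
  intro u
  induction u with
  | nil => intro p y h; exact absurd h (by simp)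
  | cons c u ih =>
    intro p y h hs
    obtain ⟨x, v, h1, h2, rfl⟩ := step_cons_inv hs
    rcases List.mem_cons.1 h with h | h
    · rw [← h] at h1
      cases h1
    · exact ih h h2

/-- no step from a word with waiting cells but no creator -/
lemma no_step_of_wait : ∀ {u p y : List Sy}, (n Nt.W ∈ u ∨ n Nt.F ∈ u) → n Nt.P ∉ p → n Nt.P ∉ u →
    ¬ St p u y := by
  intro u
  induction u with
  | nil => intro p y h; simp at h
  | cons c u ih =>
    intro p y h hp hu hs
    obtain ⟨x, v, h1, h2, rfl⟩ := step_cons_inv hs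
    have hc : c ≠ n Nt.P := by
      intro hc; exact hu (by simp [hc])
    have h3 : (n Nt.W = c ∨ n Nt.F = c) ∨ (n Nt.W ∈ u ∨ n Nt.F ∈ u) := by
      rcases h with h | h
      · rcases List.mem_cons.1 h with h | h
        · exact Or.inl (Or.inl h)
        · exact Or.inr (Or.inl h)
      · rcases List.mem_cons.1 h with h | h
        · exact Or.inl (Or.inr h)
        · exact Or.inr (Or.inr h)
    rcases h3 with (h3 | h3) | h3
    · rw [← h3] at h1
      cases h1 with
      | W1 h => exact hp h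
      | W2 h => exact hp h
    · rw [← h3] at h1
      cases h1 with
      | F1 h => exact hp h
      | F2 h => exact hp h
    · refine ih h3 ?_ (fun h => hu (by simp [h])) h2
      rw [List.mem_append, List.mem_singleton]
      rintro (h | h)
      · exact hp h
      · exact hc h.symm

/-- fresh cells without head in the left context are finished -/
lemma step_fresh : ∀ {u p y : List Sy}, (n Nt.O ∈ u ∨ n Nt.E ∈ u) → n Nt.H ∉ p → n Nt.H ∉ u →
    St p u y → la ∈ y := by
  intro u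
  induction u with
  | nil => intro p y h; simp at h
  | cons c u ih =>
    intro p y h hp hu hs
    obtain ⟨x, v, h1, h2, rfl⟩ := step_cons_inv hs
    have hc : c ≠ n Nt.H := by
      intro hc; exact hu (by simp [hc])
    have h3 : (n Nt.O = c ∨ n Nt.E = c) ∨ (n Nt.O ∈ u ∨ n Nt.E ∈ u) := by
      rcases h with h | h
      · rcases List.mem_cons.1 h with h | h
        · exact Or.inl (Or.inl h)
        · exact Or.inr (Or.inl h)
      · rcases List.mem_cons.1 h with h | h
        · exact Or.inl (Or.inr h)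
        · exact Or.inr (Or.inr h)
    rcases h3 with (h3 | h3) | h3
    · rw [← h3] at h1
      cases h1 with
      | O1 h => exact absurd h hp
      | O2 h => exact absurd h hp
      | O3 => simp
    · rw [← h3] at h1
      cases h1 with
      | E1 h => exact absurd h hp
      | E2 => simp
    · have := ih h3 (p := p ++ [c]) (by
        rw [List.mem_append, List.mem_singleton]
        rintro (h | h)
        · exact hp h
        · exact hc h.symm) (fun h => hu (by simp [h])) h2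
      simp [this]

end Pool.Agent.Helper82.LP
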