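import Pool.Agent.Helper82.LPGap

set_option autoImplicit false
open Classical

namespace Pool.Agent.Helper82.LP

section Extract

variable {N T : Type} {𝓡 : Set (Set ((N ⊕ T) × List (N ⊕ T)))}

/-- annotated levels of a derivation of a terminal word -/
lemma exists_levels {u : List (N ⊕ T)} {z : List T}
    (h : Relation.ReflTransGen (fun u v => ∃ R ∈ 𝓡, TStep R u v) u (z.map Sum.inr)) :
    ∃ (k : ℕ) (R : ℕ → Set ((N ⊕ T) × List (N ⊕ T))) (U : ℕ → List (Ann N T)),
      (∀ t < k, R t ∈ 𝓡) ∧ (∀ t < k, AStep (R t) (U t) (U (t + 1))) ∧ und (U 0) = u ∧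
      U k = z.map (fun c => ((Sum.inr c : N ⊕ T), [c])) := by
  induction h using Relation.ReflTransGen.head_induction_on with
  | refl =>
    refine ⟨0, fun _ => ∅, fun _ => z.map (fun c => ((Sum.inr c : N ⊕ T), [c])), ?_, ?_, ?_, rfl⟩
    · intro t ht; omega
    · intro t ht; omega
    · simp [und, Function.comp_def]
  | head h1 _ ih =>
    obtain ⟨R₀, hR₀, hs⟩ := h1
    obtain ⟨k, R, U, h2, h3, h4, h5⟩ := ih
    obtain ⟨U₀, hU₀, hs₀⟩ := annotate hs (U 0) h4
    refine ⟨k + 1, fun t => Nat.casesOn t R₀ R, fun t => Nat.casesOn t U₀ U, ?_, ?_, hU₀, h5⟩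
    · intro t ht
      cases t with
      | zero => exact hR₀
      | succ t => exact h2 t (by omega)
    · intro t ht
      cases t with
      | zero => exact hs₀
      | succ t => exact h3 t (by omega)

lemma count_le_of_step [DecidableEq T] {R : Set ((N ⊕ T) × List (N ⊕ T))}
    {U V : List (Ann N T)} {a : T} (h : AStep R U V) (hU : ∀ σ ∈ U, σ.2.count a ≤ 1) :
    ∀ σ ∈ V, σ.2.count a ≤ 1 := by
  induction h with
  | nil => intro σ hσ; exact absurd hσ (by simp)
  | cons X D U V hr _ ih =>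
    intro σ hσ
    rw [List.mem_append] at hσ
    rcases hσ with hσ | hσ
    · have h1 := hU (X, yld D) (by simp)
      simp only at h1
      obtain ⟨D₁, D₂, rfl⟩ := List.append_of_mem hσ
      rw [yld_append, yld_cons, List.count_append, List.count_append] at h1
      omega
    · exact ih (fun τ hτ => hU τ (by simp [hτ])) σ hσ

lemma count_yld_le [DecidableEq T] {a : T} : ∀ {U : List (Ann N T)},
    (∀ σ ∈ U, σ.2.count a ≤ 1) → (yld U).count a ≤ U.length := by
  intro U
  induction U with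
  | nil => intro _; simp
  | cons σ U ih =>
    intro h
    rw [yld_cons, List.count_append, List.length_cons]
    have h1 := h σ (by simp)
    have h2 := ih (fun τ hτ => h τ (by simp [hτ]))
    omega

end Extract

/-- a gap theorem for ET0L languages: if for every `m` the words with exactly `m` letters `a` have
bounded length, then in every word with many letters `a` two of them are close -/
theorem et0l_gap {T : Type} [Finite T] [DecidableEq T] {L : Language T} (hL : IsET0L L) (a : T)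
    (hfin : ∀ m, ∃ B, ∀ z ∈ L, z.count a = m → z.length ≤ B) :
    ∃ D, ∀ z ∈ L, D < z.count a → ∃ y, y <:+: z ∧ 2 ≤ y.count a ∧ y.length ≤ D := by
  obtain ⟨N, hN, 𝓡, w, h𝓡, hRf, hL⟩ := hL
  -- bound for the right-hand sides
  have hCex : ∃ C : ℕ, 1 ≤ C ∧ ∀ R ∈ 𝓡, ∀ x ∈ R, x.2.length ≤ C := by
    have hfinU : (⋃₀ 𝓡).Finite := Set.Finite.sUnion h𝓡 hRf
    obtain ⟨C, hC⟩ := (hfinU.image (fun x => x.2.length)).bddAbove
    refine ⟨max 1 C, le_max_left _ _, fun R hR x hx => le_trans (hC ?_) (le_max_right _ _)⟩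
    exact ⟨x, Set.mem_sUnion.2 ⟨R, hR, hx⟩, rfl⟩
  obtain ⟨C, hC1, hC⟩ := hCex
  let Θ := ((N ⊕ T) × Prop × Prop) × Set ((N ⊕ T) × Prop × Prop)
  cases nonempty_fintype Θ
  set n₀ := (Finset.univ : Finset Θ).card with hn₀
  refine ⟨max w.length (C * C ^ n₀), ?_⟩
  intro z hz hcount
  by_contra hcon
  push Not at hcon
  obtain ⟨k, R, U, hR, hstep, hU0, hUk⟩ := exists_levels ((hL z).1 hz)
  have hyz : yld (U k) = z := by
    rw [hUk]
    clear hUk hU0 hz hcount hcon
    induction z with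
    | nil => rfl
    | cons c z ih => rw [List.map_cons, yld_cons, ih]; rfl
  have hyall : ∀ t, t ≤ k → yld (U t) = z := by
    intro t ht
    rw [← hyz]
    exact (level_chain' hstep ht le_rfl).yld_eq
  have hklen : ∀ σ ∈ U k, σ.2.length ≤ 1 := by
    intro σ hσ
    rw [hUk, List.mem_map] at hσ
    obtain ⟨c, _, rfl⟩ := hσ
    simp
  have hex : ∃ t, t ≤ k ∧ ∀ σ ∈ U t, σ.2.count a ≤ 1 :=
    ⟨k, le_rfl, fun σ hσ => le_trans List.count_le_length (hklen σ hσ)⟩
  set t₁ := Nat.find hex with ht₁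
  obtain ⟨ht₁k, hone₁⟩ := Nat.find_spec hex
  rw [← ht₁] at ht₁k hone₁
  have hone : ∀ n t, t = t₁ + n → t ≤ k → ∀ σ ∈ U t, σ.2.count a ≤ 1 := by
    intro n
    induction n with
    | zero => intro t ht _; rw [ht]; exact hone₁
    | succ n ih =>
      intro t ht htk
      have h1 := ih (t₁ + n) rfl (by omega)
      have h2 := hstep (t₁ + n) (by omega)
      rw [ht]
      exact count_le_of_step h2 h1
  have hone' : ∀ t, t₁ ≤ t → t ≤ k → ∀ σ ∈ U t, σ.2.count a ≤ 1 :=
    fun t h1 h2 => hone (t - t₁) t (by omega) h2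
  -- the critical level is not the first one
  have ht₁0 : t₁ ≠ 0 := by
    intro h0
    rw [h0] at hone₁
    have h1 := count_yld_le (a := a) hone₁
    rw [hyall 0 (Nat.zero_le _)] at h1
    have h2 : (U 0).length = w.length := by rw [← hU0]; simp [und]
    have := le_max_left w.length (C * C ^ n₀)
    omega
  obtain ⟨t₀, ht₀⟩ := Nat.exists_eq_succ_of_ne_zero ht₁0
  have hnot : ¬ (t₀ ≤ k ∧ ∀ σ ∈ U t₀, σ.2.count a ≤ 1) :=
    Nat.find_min hex (by rw [← ht₁]; omega)
  have hσex : ∃ σ ∈ U t₀, 2 ≤ σ.2.count a := by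
    by_contra h
    push Not at h
    exact hnot ⟨by omega, fun σ hσ => by have := h σ hσ; omega⟩
  obtain ⟨σ, hσ, hσ2⟩ := hσex
  have hσlen : max w.length (C * C ^ n₀) < σ.2.length := by
    apply hcon σ.2 _ hσ2
    rw [← hyall t₀ (by omega)]
    obtain ⟨A, B, hAB⟩ := List.append_of_mem hσ
    rw [hAB]
    exact ⟨yld A, yld B, by simp⟩
  obtain ⟨E, hE, hEU⟩ := (level_chain' hstep (show t₀ ≤ t₀ + 1 by omega) (by omega)).desc hσ
  obtain ⟨E', hE', hE''⟩ := chain_of_lt hE (by omega)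
  have := chain_self hE''
  subst this
  have hy : yld E' = σ.2 := by rw [← hE'.yld_eq]; simp
  have hElen : E'.length ≤ C := by
    have hmemR : ∃ x ∈ R t₀, x.2 = und E' := by
      generalize hs : [σ] = s at hE'
      cases hE' with
      | nil => cases hs
      | cons X D V W hr h =>
        rw [List.cons.injEq] at hs
        obtain ⟨_, hV⟩ := hs
        subst hV
        cases h
        exact ⟨_, hr, by simp⟩
    obtain ⟨x, hx, hx2⟩ := hmemR
    have := hC (R t₀) (hR t₀ (by omega)) x hx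
    rw [hx2] at this
    simpa [und] using this
  by_cases hno : ∀ s t (σ σ' : Ann N T) (D : List (Ann N T)), t₁ ≤ s → s < t → t ≤ k → σ ∈ U s →
      Chain R s t [σ] D → D ⊆ U t → σ' ∈ D → ty a σ' = ty a σ →
      (∀ τ ∈ U t, ∃ τ' ∈ U s, ty a τ' = ty a τ) → ¬ 2 ≤ nv D
  · have hb := bound hstep hC1 (fun t ht x hx => hC (R t) (hR t ht) x hx) hklen hno n₀
      Finset.univ rfl (k - t₁) t₁ (by omega) le_rfl
    have h1 : ∀ τ ∈ E', τ.2.length ≤ C ^ n₀ := by
      intro τ hτ
      have hτ' := hEU hτ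
      rw [show t₀ + 1 = t₁ by omega] at hτ'
      exact hb τ hτ' (fun _ _ _ _ _ _ _ _ _ => Finset.mem_univ _)
    have h2 := yld_len h1
    rw [hy] at h2
    have h3 : nv E' * C ^ n₀ ≤ C * C ^ n₀ :=
      Nat.mul_le_mul_right _ (le_trans (nv_le_length _) hElen)
    have := le_max_right w.length (C * C ^ n₀)
    omega
  · push Not at hno
    obtain ⟨s, t, σ₀, σ₁, D, hs, hst, htk, hσ₀, hch, hDU, hσ₁, hty₁, hty, hnv⟩ := hno
    obtain ⟨B, hB⟩ := hfin (z.count a)
    obtain ⟨A, hA, _, hc, hj, hd⟩ := pump hstep hR hst htk (hone' s hs (by omega))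
      (hone' t (by omega) htk) hty hσ₀ hch hDU hσ₁ hty₁ hnv (B + 1)
    rw [hU0] at hd
    have h1 := hd.trans (derive_yld hstep hR hUk htk hA)
    rw [hyall t htk] at hc
    have h2 := hB _ ((hL _).2 h1) hc
    have h3 := nv_le_yld A
    omega

end Pool.Agent.Helper82.LP
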