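import Pool.Agent.Helper82.LPDefs

set_option autoImplicit false

namespace Pool.Agent.Helper82.LP

section Sim

variable {N T : Type}

/-- nonterminals of the simulating grammar: start, old nonterminals, one control symbol per table -/
abbrev NN (N ι : Type) : Type := Option (N ⊕ ι)

/-- embedding of old symbols -/
def emb (ι : Type) : N ⊕ T → NN N ι ⊕ T
  | Sum.inl A => Sum.inl (some (Sum.inl A))
  | Sum.inr c => Sum.inr c

/-- control symbol -/
def ctl {ι : Type} (i : ι) : NN N ι ⊕ T := Sum.inl (some (Sum.inr i))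

/-- start symbol -/
def st {ι : Type} : NN N ι ⊕ T := Sum.inl none

lemma emb_inj (ι : Type) : Function.Injective (emb ι : N ⊕ T → NN N ι ⊕ T) := by
  intro a b h
  rcases a with a | a <;> rcases b with b | b <;> simp [emb] at h ⊢ <;> exact h

lemma emb_ne_ctl {ι : Type} (x : N ⊕ T) (i : ι) : emb ι x ≠ (ctl i : NN N ι ⊕ T) := by
  rcases x with x | x <;> simp [emb, ctl]

lemma emb_ne_st {ι : Type} (x : N ⊕ T) : emb ι x ≠ (st : NN N ι ⊕ T) := by
  rcases x with x | x <;> simp [emb, st]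

/-- the rules of the simulating grammar -/
inductive SimRule (𝓡 : Set (Set ((N ⊕ T) × List (N ⊕ T)))) (w : List (N ⊕ T)) :
    Rule (NN N 𝓡) T → Prop
  | start0 : SimRule 𝓡 w ⟨st, w.map (emb 𝓡), ∅, ∅⟩
  | start (j : 𝓡) : SimRule 𝓡 w ⟨st, ctl j :: w.map (emb 𝓡), ∅, ∅⟩
  | next (i j : 𝓡) : SimRule 𝓡 w ⟨ctl i, [ctl j], ∅, ∅⟩
  | stop (i : 𝓡) : SimRule 𝓡 w ⟨ctl i, [], ∅, ∅⟩
  | sim (i : 𝓡) (a : N ⊕ T) (x : List (N ⊕ T)) (h : (a, x) ∈ i.1) :
      SimRule 𝓡 w ⟨emb 𝓡 a, x.map (emb 𝓡), {some (Sum.inr i)}, ∅⟩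

variable {𝓡 : Set (Set ((N ⊕ T) × List (N ⊕ T)))} {w : List (N ⊕ T)}

lemma sim_step {i : 𝓡} {u v : List (N ⊕ T)} (h : TStep i.1 u v) :
    ∀ p, (ctl i : NN N 𝓡 ⊕ T) ∈ p →
      Step {r | SimRule 𝓡 w r} p (u.map (emb 𝓡)) (v.map (emb 𝓡)) := by
  induction h with
  | nil => intro p _; exact Step.nil p
  | cons a x u v hr h ih =>
    intro p hp
    rw [List.map_cons, List.map_append]
    exact Step.cons p _ _ ⟨emb 𝓡 a, x.map (emb 𝓡), {some (Sum.inr i)}, ∅⟩
      (SimRule.sim i a x hr) (by intro A hA; rw [Set.mem_singleton_iff] at hA; subst hA; exact hp)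
      (by intro A hA; exact absurd hA (Set.notMem_empty _))
      (ih _ (by simp [hp]))

lemma sim_step_next {i j : 𝓡} {u v : List (N ⊕ T)} (h : TStep i.1 u v) :
    Step {r | SimRule 𝓡 w r} [] (ctl i :: u.map (emb 𝓡)) (ctl j :: v.map (emb 𝓡)) :=
  Step.cons [] _ _ ⟨ctl i, [ctl j], ∅, ∅⟩ (SimRule.next i j)
    (by intro A hA; exact absurd hA (Set.notMem_empty _))
    (by intro A hA; exact absurd hA (Set.notMem_empty _))
    (sim_step h _ (by simp))

lemma sim_step_stop {i : 𝓡} {u v : List (N ⊕ T)} (h : TStep i.1 u v) :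
    Step {r | SimRule 𝓡 w r} [] (ctl i :: u.map (emb 𝓡)) (v.map (emb 𝓡)) :=
  Step.cons [] _ _ ⟨ctl i, [], ∅, ∅⟩ (SimRule.stop i)
    (by intro A hA; exact absurd hA (Set.notMem_empty _))
    (by intro A hA; exact absurd hA (Set.notMem_empty _))
    (sim_step h _ (by simp))

lemma step_start (x : List (NN N 𝓡 ⊕ T))
    (hx : SimRule 𝓡 w ⟨st, x, ∅, ∅⟩) : Step {r | SimRule 𝓡 w r} [] [st] x := by
  have := Step.cons (P := {r | SimRule 𝓡 w r}) [] [] [] ⟨st, x, ∅, ∅⟩ hx
    (by intro A hA; exact absurd hA (Set.notMem_empty _))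
    (by intro A hA; exact absurd hA (Set.notMem_empty _)) (Step.nil _)
  simpa using this

lemma sim_forward {u z : List (N ⊕ T)}
    (h : Relation.ReflTransGen (fun u v => ∃ R ∈ 𝓡, TStep R u v) u z) :
    u = z ∨ ∃ i : 𝓡, Relation.ReflTransGen (Step {r | SimRule 𝓡 w r} [])
      (ctl i :: u.map (emb 𝓡)) (z.map (emb 𝓡)) := by
  induction h using Relation.ReflTransGen.head_induction_on with
  | refl => exact Or.inl rfl
  | head h1 _ ih =>
    obtain ⟨R, hR, hs⟩ := h1
    right
    refine ⟨⟨R, hR⟩, ?_⟩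
    rcases ih with rfl | ⟨j, hj⟩
    · exact Relation.ReflTransGen.single (sim_step_stop (i := ⟨R, hR⟩) hs)
    · exact Relation.ReflTransGen.head (sim_step_next (i := ⟨R, hR⟩) hs) hj

/-- backward analysis of steps on embedded words -/
lemma step_emb_inv {i : 𝓡} : ∀ (u : List (N ⊕ T)) (p : List (NN N 𝓡 ⊕ T))
    (_ : ∀ j : 𝓡, (ctl j : NN N 𝓡 ⊕ T) ∈ p → j = i) (y : List (NN N 𝓡 ⊕ T)),
    Step {r | SimRule 𝓡 w r} p (u.map (emb 𝓡)) y → ∃ v, y = v.map (emb 𝓡) ∧ TStep i.1 u v := by
  intro u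
  induction u with
  | nil =>
    intro p _ y h
    cases h
    exact ⟨[], rfl, TStep.nil⟩
  | cons a u ih =>
    intro p hp y h
    rw [List.map_cons] at h
    generalize hs : emb 𝓡 a :: u.map (emb 𝓡) = s at h
    cases h with
    | nil => cases hs
    | cons _ u' v r hr hU hW h =>
      rw [List.cons.injEq] at hs
      obtain ⟨h1, h2⟩ := hs
      subst h2
      simp only [Set.mem_ofPred_eq] at hr
      cases hr with
      | start0 => exact absurd h1 (emb_ne_st _)
      | start j => exact absurd h1 (emb_ne_st _)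
      | next i' j => exact absurd h1 (emb_ne_ctl _ _)
      | stop i' => exact absurd h1 (emb_ne_ctl _ _)
      | sim i' a' x hax =>
        have hia : a = a' := emb_inj _ h1
        subst hia
        have hi : i' = i := hp i' (hU _ (by simp))
        subst hi
        obtain ⟨v', hv', hv''⟩ := ih _ (by
          intro j hj
          rw [List.mem_append, List.mem_singleton] at hj
          rcases hj with hj | hj
          · exact hp j hj
          · exact absurd hj.symm (emb_ne_ctl _ _)) v h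
        refine ⟨x ++ v', ?_, TStep.cons a x u v' hax hv''⟩
        rw [hv', List.map_append]

/-- no step from a nonempty embedded word without control symbol -/
lemma step_emb_none {u : List (N ⊕ T)} (p : List (NN N 𝓡 ⊕ T))
    (hp : ∀ j : 𝓡, (ctl j : NN N 𝓡 ⊕ T) ∉ p) (y : List (NN N 𝓡 ⊕ T))
    (h : Step {r | SimRule 𝓡 w r} p (u.map (emb 𝓡)) y) : u = [] ∧ y = [] := by
  cases u with
  | nil => cases h; exact ⟨rfl, rfl⟩
  | cons a u =>
    exfalso
    rw [List.map_cons] at h
    generalize hs : emb 𝓡 a :: u.map (emb 𝓡) = s at h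
    cases h with
    | nil => cases hs
    | cons _ u' v r hr hU hW h =>
      rw [List.cons.injEq] at hs
      obtain ⟨h1, h2⟩ := hs
      simp only [Set.mem_ofPred_eq] at hr
      cases hr with
      | start0 => exact absurd h1 (emb_ne_st _)
      | start j => exact absurd h1 (emb_ne_st _)
      | next i' j => exact absurd h1 (emb_ne_ctl _ _)
      | stop i' => exact absurd h1 (emb_ne_ctl _ _)
      | sim i' a' x hax => exact hp i' (hU _ (by simp))

/-- reachable sentential forms -/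
def Reach (𝓡 : Set (Set ((N ⊕ T) × List (N ⊕ T)))) (w : List (N ⊕ T))
    (s : List (NN N 𝓡 ⊕ T)) : Prop :=
  s = [st] ∨ ∃ u : List (N ⊕ T),
    Relation.ReflTransGen (fun u v => ∃ R ∈ 𝓡, TStep R u v) w u ∧
    (s = u.map (emb 𝓡) ∨ ∃ i : 𝓡, s = ctl i :: u.map (emb 𝓡))

lemma reach_step {s y : List (NN N 𝓡 ⊕ T)} (hs : Reach 𝓡 w s)
    (h : Step {r | SimRule 𝓡 w r} [] s y) : Reach 𝓡 w y := by
  rcases hs with rfl | ⟨u, hu, rfl | ⟨i, rfl⟩⟩
  · -- start
    generalize hst : [(st : NN N 𝓡 ⊕ T)] = s at h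
    cases h with
    | nil => cases hst
    | cons _ u' v r hr hU hW h =>
      rw [List.cons.injEq] at hst
      obtain ⟨h1, h2⟩ := hst
      subst h2
      cases h
      rw [List.append_nil]
      simp only [Set.mem_ofPred_eq] at hr
      cases hr with
      | start0 => exact Or.inr ⟨w, Relation.ReflTransGen.refl, Or.inl rfl⟩
      | start j => exact Or.inr ⟨w, Relation.ReflTransGen.refl, Or.inr ⟨j, rfl⟩⟩
      | next i' j => cases h1
      | stop i' => cases h1
      | sim i' a' x hax => exact absurd h1.symm (emb_ne_st _)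
  · obtain ⟨rfl, rfl⟩ := step_emb_none [] (by simp) y h
    exact Or.inr ⟨[], hu, Or.inl rfl⟩
  · generalize hst : ctl i :: u.map (emb 𝓡) = s at h
    cases h with
    | nil => cases hst
    | cons _ u' v r hr hU hW h =>
      rw [List.cons.injEq] at hst
      obtain ⟨h1, h2⟩ := hst
      subst h2
      have key : ∃ v', v = v.map id ∧ v = v'.map (emb 𝓡) ∧ TStep i.1 u v' := by
        obtain ⟨v', h3, h4⟩ := step_emb_inv (i := i) u _ (by
          intro j hj
          rw [List.nil_append, List.mem_singleton, ← h1] at hj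
          simp only [ctl, Sum.inl.injEq, Option.some.injEq, Sum.inr.injEq] at hj
          exact hj) v h
        exact ⟨v', by simp, h3, h4⟩
      obtain ⟨v', -, rfl, hv'⟩ := key
      have hred : Relation.ReflTransGen (fun u v => ∃ R ∈ 𝓡, TStep R u v) w v' :=
        hu.tail ⟨i.1, i.2, hv'⟩
      simp only [Set.mem_ofPred_eq] at hr
      cases hr with
      | start0 => cases h1
      | start j => cases h1
      | next i' j => exact Or.inr ⟨v', hred, Or.inr ⟨j, rfl⟩⟩
      | stop i' => exact Or.inr ⟨v', hred, Or.inl rfl⟩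
      | sim i' a' x hax => exact absurd h1.symm (emb_ne_ctl _ _)

lemma reach_of_derives {s : List (NN N 𝓡 ⊕ T)}
    (h : Relation.ReflTransGen (Step {r | SimRule 𝓡 w r} []) [st] s) : Reach 𝓡 w s := by
  induction h with
  | refl => exact Or.inl rfl
  | tail _ h1 ih => exact reach_step ih h1

lemma map_inr_emb (ι : Type) (z : List T) :
    (z.map (Sum.inr : T → N ⊕ T)).map (emb ι) = z.map Sum.inr := by
  rw [List.map_map]; rfl

lemma finite_simRule [Finite N] (h𝓡 : 𝓡.Finite) (hR : ∀ R ∈ 𝓡, R.Finite) :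
    {r | SimRule 𝓡 w r}.Finite := by
  have : Finite 𝓡 := h𝓡
  have hsim : (⋃ i : 𝓡, (fun ax : (N ⊕ T) × List (N ⊕ T) =>
      (⟨emb 𝓡 ax.1, ax.2.map (emb 𝓡), {some (Sum.inr i)}, ∅⟩ : Rule (NN N 𝓡) T)) '' i.1).Finite :=
    Set.finite_iUnion (fun i => (hR i.1 i.2).image _)
  have h1 : (Set.range (fun j : 𝓡 => (⟨st, ctl j :: w.map (emb 𝓡), ∅, ∅⟩ : Rule (NN N 𝓡) T))).Finite :=
    Set.finite_range _
  have h2 : (Set.range (fun ij : 𝓡 × 𝓡 => (⟨ctl ij.1, [ctl ij.2], ∅, ∅⟩ : Rule (NN N 𝓡) T))).Finite :=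
    Set.finite_range _
  have h3 : (Set.range (fun i : 𝓡 => (⟨ctl i, [], ∅, ∅⟩ : Rule (NN N 𝓡) T))).Finite :=
    Set.finite_range _
  have h0 : ({⟨st, w.map (emb 𝓡), ∅, ∅⟩} : Set (Rule (NN N 𝓡) T)).Finite := Set.finite_singleton _
  refine ((((h0.union h1).union h2).union h3).union hsim).subset ?_
  intro r hr
  simp only [Set.mem_ofPred_eq] at hr
  cases hr with
  | start0 => exact Or.inl (Or.inl (Or.inl (Or.inl rfl)))
  | start j => exact Or.inl (Or.inl (Or.inl (Or.inr ⟨j, rfl⟩)))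
  | next i j => exact Or.inl (Or.inl (Or.inr ⟨(i, j), rfl⟩))
  | stop i => exact Or.inl (Or.inr ⟨i, rfl⟩)
  | sim i a x hax => exact Or.inr (Set.mem_iUnion.2 ⟨i, (a, x), hax, rfl⟩)

end Sim

/-- every ET0L language is a left permitting E0L language -/
theorem isLPE0L_of_isET0L {T : Type} {L : Language T} (h : IsET0L L) : IsLPE0L L := by
  obtain ⟨N, hN, 𝓡, w, h𝓡, hR, hL⟩ := h
  have : Finite 𝓡 := h𝓡
  refine ⟨NN N 𝓡, inferInstance, {r | SimRule 𝓡 w r}, [st], finite_simRule h𝓡 hR, ?_,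
    by simp, ?_⟩
  · intro r hr
    simp only [Set.mem_ofPred_eq] at hr
    cases hr <;> rfl
  · intro z
    rw [hL]
    constructor
    · intro hz
      rcases sim_forward (w := w) hz with hw | ⟨i, hi⟩
      · have := step_start (𝓡 := 𝓡) (w := w) _ SimRule.start0
        rw [hw, map_inr_emb] at this
        rw [hw]
        exact Relation.ReflTransGen.single this
      · rw [map_inr_emb] at hi
        exact Relation.ReflTransGen.head (step_start _ (SimRule.start i)) hi
    · intro hz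
      rcases reach_of_derives hz with h1 | ⟨u, hu, h1 | ⟨i, h1⟩⟩
      · exfalso
        cases z with
        | nil => simp at h1
        | cons c z =>
          rw [List.map_cons, List.cons.injEq] at h1
          cases h1.1
      · rw [← map_inr_emb (N := N) 𝓡 z] at h1
        have := (List.map_injective_iff.2 (emb_inj 𝓡)) h1
        rw [this]
        exact hu
      · exfalso
        cases z with
        | nil => simp at h1
        | cons c z =>
          rw [List.map_cons, List.cons.injEq] at h1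
          cases h1.1

end Pool.Agent.Helper82.LP
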