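import Pool.Agent.Helper82.LPGram
import Pool.Agent.Helper82.LPNot
import Pool.Agent.Helper82.LPSim

set_option autoImplicit false

namespace Pool.Agent.Helper82.LP

/-- the language `{(a b^t)^m : m ≥ 2, t < m}` -/
def K : Language Bool :=
  {z | ∃ m t : ℕ, 2 ≤ m ∧ t < m ∧ z = (List.replicate m (true :: List.replicate t false)).flatten}

/-- words of the first phase -/
def w1 (i : ℕ) : List Sy := n Nt.P :: (List.replicate i (n Nt.W) ++ [n Nt.F])

lemma wait_inv (i : ℕ) : ∀ {p y : List Sy}, St p (List.replicate i (n Nt.W) ++ [n Nt.F]) y →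
    ∃ l : List Nt, l.length = i ∧ (∀ c ∈ l, c = Nt.W ∨ c = Nt.O) ∧
      ∃ e, (e = Nt.F ∨ e = Nt.E) ∧ y = l.map n ++ [n e] := by
  induction i with
  | zero =>
    intro p y h
    rw [List.replicate_zero, List.nil_append] at h
    obtain ⟨x, v, h1, h2, rfl⟩ := step_cons_inv h
    have := step_nil h2
    subst this
    cases h1 with
    | F1 _ => exact ⟨[], rfl, by simp, Nt.F, Or.inl rfl, rfl⟩
    | F2 _ => exact ⟨[], rfl, by simp, Nt.E, Or.inr rfl, rfl⟩
  | succ i ih =>
    intro p y h
    rw [List.replicate_succ, List.cons_append] at h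
    obtain ⟨x, v, h1, h2, rfl⟩ := step_cons_inv h
    obtain ⟨l, hl, hc, e, he, rfl⟩ := ih h2
    cases h1 with
    | W1 _ =>
      refine ⟨Nt.W :: l, by simp [hl], ?_, e, he, by simp⟩
      intro c hc'
      rcases List.mem_cons.1 hc' with rfl | hc'
      · exact Or.inl rfl
      · exact hc c hc'
    | W2 _ =>
      refine ⟨Nt.O :: l, by simp [hl], ?_, e, he, by simp⟩
      intro c hc'
      rcases List.mem_cons.1 hc' with rfl | hc'
      · exact Or.inr rfl
      · exact hc c hc'

/-- invariant of reachable words -/
def Inv (u : List Sy) : Prop :=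
  (∃ i, u = w1 i) ∨
  (∃ cs t, cs ≠ [] ∧ (∀ c ∈ cs, Cell c) ∧ t ≤ cs.count Nt.I ∧ u = wd cs t) ∨
  (∃ m t, 2 ≤ m ∧ t < m ∧ u = fw m t) ∨
  (la ∈ u ∧ ∃ A, n A ∈ u) ∨
  (∃ u', u = n Nt.P :: u' ∧ (n Nt.O ∈ u' ∨ n Nt.E ∈ u') ∧ n Nt.H ∉ u') ∨
  ((n Nt.W ∈ u ∨ n Nt.F ∈ u) ∧ n Nt.P ∉ u)

lemma inv_step {u y : List Sy} (hu : Inv u) (h : St [] u y) : Inv y := by
  rcases hu with ⟨i, rfl⟩ | ⟨cs, t, hne, hcs, ht, rfl⟩ | ⟨m, t, hm, ht, rfl⟩ | ⟨hla, _⟩ |
    ⟨u', rfl, h1, h2⟩ | ⟨h1, h2⟩
  · -- first phase
    unfold w1 at h
    obtain ⟨x, v, h1, h2, rfl⟩ := step_cons_inv h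
    obtain ⟨l, hl, hc, e, he, rfl⟩ := wait_inv i h2
    cases h1 with
    | P1 =>
      by_cases hall : (∀ c ∈ l, c = Nt.W) ∧ e = Nt.F
      · left
        obtain ⟨hall, rfl⟩ := hall
        refine ⟨i + 1, ?_⟩
        have : l = List.replicate i Nt.W := List.eq_replicate_iff.2 ⟨hl, hall⟩
        rw [this, List.map_replicate]
        simp [w1, List.replicate_succ]
      · right; right; right; right; left
        refine ⟨n Nt.W :: (l.map n ++ [n e]), rfl, ?_, ?_⟩
        · by_cases he' : e = Nt.E
          · right; simp [he']
          · left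
            have heF : e = Nt.F := by
              rcases he with he | he
              · exact he
              · exact absurd he he'
            have : ∃ c ∈ l, c ≠ Nt.W := by
              by_contra hcon
              push Not at hcon
              exact hall ⟨hcon, heF⟩
            obtain ⟨c, hc1, hc2⟩ := this
            have hcO : c = Nt.O := by
              rcases hc c hc1 with h | h
              · exact absurd h hc2
              · exact h
            subst hcO
            simp [hc1]
        · simp only [List.mem_cons, List.mem_append, List.mem_map, List.not_mem_nil, or_false,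
            Sum.inl.injEq, exists_eq_right]
          rintro (h | h | h)
          · cases h
          · rcases hc _ h with h | h <;> cases h
          · rcases he with rfl | rfl <;> cases h
    | P2 =>
      by_cases hall : (∀ c ∈ l, c = Nt.O) ∧ e = Nt.E
      · right; left
        obtain ⟨hall, rfl⟩ := hall
        have : l = List.replicate i Nt.O := List.eq_replicate_iff.2 ⟨hl, hall⟩
        refine ⟨Nt.H :: List.replicate i Nt.O, 0, by simp, ?_, Nat.zero_le _, ?_⟩
        · intro c hc'
          rcases List.mem_cons.1 hc' with rfl | hc'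
          · exact Or.inr (Or.inl rfl)
          · exact Or.inl (List.eq_of_mem_replicate hc')
        · rw [this]
          have h0 : ∀ j : ℕ, wd (List.replicate j Nt.O) 0 =
              (List.replicate j Nt.O).map n ++ [n Nt.E] := by
            intro j
            induction j with
            | zero => rfl
            | succ j ih =>
              rw [List.replicate_succ, wd_cons, ih]
              simp [bs]
          rw [wd_cons, h0]
          simp [bs]
      · right; right; right; right; right
        refine ⟨?_, ?_⟩
        · by_cases he' : e = Nt.F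
          · right; simp [he']
          · left
            have heF : e = Nt.E := by
              rcases he with he | he
              · exact absurd he he'
              · exact he
            have : ∃ c ∈ l, c ≠ Nt.O := by
              by_contra hcon
              push Not at hcon
              exact hall ⟨hcon, heF⟩
            obtain ⟨c, hc1, hc2⟩ := this
            have hcO : c = Nt.W := by
              rcases hc c hc1 with h | h
              · exact h
              · exact absurd h hc2
            subst hcO
            simp [hc1]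
        · simp only [List.mem_cons, List.mem_append, List.mem_map, List.not_mem_nil, or_false,
            Sum.inl.injEq, exists_eq_right, List.cons_append, List.nil_append]
          rintro (h | h | h)
          · cases h
          · rcases hc _ h with h | h <;> cases h
          · rcases he with rfl | rfl <;> cases h
  · -- second phase
    rcases step_wd_inv hcs t [] y h with rfl | ⟨cs', hT, rfl, hH⟩ | hdead
    · right; right; left
      have h1 : cs.count Nt.I ≤ cs.length := List.count_le_length
      have h2 : 1 ≤ cs.length := List.length_pos_iff.2 hne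
      exact ⟨cs.length + 1, t, by omega, by omega, rfl⟩
    · right; left
      have hH' : Nt.H ∈ cs := by simpa using hH
      have h1 := hT.count
      have h2 : 1 ≤ cs.count Nt.H := List.count_pos_iff.2 hH'
      refine ⟨cs', t + 1, ?_, hT.cells, by omega, rfl⟩
      intro h0
      have := hT.length
      rw [h0] at this
      exact hne (List.length_eq_zero_iff.1 this.symm)
    · right; right; right; left
      exact hdead
  · exfalso
    obtain ⟨m', rfl⟩ : ∃ m', m = m' + 1 := ⟨m - 1, by omega⟩
    rw [fw_succ] at h
    exact no_step_of_la (by simp) h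
  · exact absurd h (no_step_of_la hla)
  · right; right; right; left
    obtain ⟨x, v, h3, h4, rfl⟩ := step_cons_inv h
    have h5 : la ∈ v := step_fresh h1 (by simp) h2 h4
    cases h3 with
    | P1 => exact ⟨by simp [h5], Nt.P, by simp⟩
    | P2 => exact ⟨by simp [h5], Nt.H, by simp⟩
  · exact absurd h (no_step_of_wait h1 (by simp) h2)

lemma inv_of_derives {u : List Sy} (h : Relation.ReflTransGen (St []) (w1 0) u) : Inv u := by
  induction h with
  | refl => exact Or.inl ⟨0, rfl⟩
  | tail _ h1 ih => exact inv_step ih h1

lemma n_notMem_map (A : Nt) (z : List Bool) : n A ∉ z.map (Sum.inr : Bool → Sy) := by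
  simp

lemma fw_eq_map (m t : ℕ) : fw m t =
    ((List.replicate m (true :: List.replicate t false)).flatten).map Sum.inr := by
  induction m with
  | zero => rfl
  | succ m ih =>
    rw [fw_succ, ih, List.replicate_succ]
    simp [bs]

lemma mem_K_of_inv {z : List Bool} (h : Inv (z.map Sum.inr)) : z ∈ K := by
  rcases h with ⟨i, h⟩ | ⟨cs, t, _, _, _, h⟩ | ⟨m, t, hm, ht, h⟩ | ⟨_, A, hA⟩ |
    ⟨u', h, _, _⟩ | ⟨h1, _⟩
  · exact absurd (by rw [h]; simp [w1] : n Nt.P ∈ z.map (Sum.inr : Bool → Sy)) (n_notMem_map _ _)
  · exact absurd (by rw [h]; simp [wd] : n Nt.E ∈ z.map (Sum.inr : Bool → Sy)) (n_notMem_map _ _)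
  · rw [fw_eq_map] at h
    exact ⟨m, t, hm, ht, (List.map_injective_iff.2 Sum.inr_injective) h⟩
  · exact absurd hA (n_notMem_map _ _)
  · exact absurd (by rw [h]; simp : n Nt.P ∈ z.map (Sum.inr : Bool → Sy)) (n_notMem_map _ _)
  · rcases h1 with h1 | h1 <;> exact absurd h1 (n_notMem_map _ _)

/-! ### forward direction -/

lemma step_w1 (i : ℕ) : St [] (w1 i) (w1 (i + 1)) := by
  have h : ∀ j (p : List Sy), n Nt.P ∈ p →
      St p (List.replicate j (n Nt.W) ++ [n Nt.F]) (List.replicate j (n Nt.W) ++ [n Nt.F]) := by
    intro j
    induction j with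
    | zero =>
      intro p hp
      exact step_cons (x := [n Nt.F]) (App.F1 hp) (Step.nil _)
    | succ j ih =>
      intro p hp
      rw [List.replicate_succ, List.cons_append]
      exact step_cons (x := [n Nt.W]) (App.W1 hp) (ih _ (by simp [hp]))
  have h1 := step_cons (p := []) (x := [n Nt.P, n Nt.W]) App.P1 (h i [n Nt.P] (by simp))
  have e : w1 (i + 1) = [n Nt.P, n Nt.W] ++ (List.replicate i (n Nt.W) ++ [n Nt.F]) := by
    simp [w1, List.replicate_succ]
  rw [e]
  exact h1

lemma step_w1_wd (i : ℕ) : St [] (w1 i) (wd (Nt.H :: List.replicate i Nt.O) 0) := by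
  have h : ∀ j (p : List Sy), n Nt.P ∈ p →
      St p (List.replicate j (n Nt.W) ++ [n Nt.F]) (wd (List.replicate j Nt.O) 0) := by
    intro j
    induction j with
    | zero =>
      intro p hp
      exact step_cons (x := [n Nt.E]) (App.F2 hp) (Step.nil _)
    | succ j ih =>
      intro p hp
      rw [List.replicate_succ, List.cons_append, List.replicate_succ, wd_cons]
      exact step_cons (x := [n Nt.O]) (App.W2 hp) (ih _ (by simp [hp]))
  rw [wd_cons]
  exact step_cons (p := []) (x := [n Nt.H]) App.P2 (h i [n Nt.P] (by simp))

lemma tick_O (s : ℕ) : Tick True (List.replicate s Nt.O) (List.replicate s Nt.O) := by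
  induction s with
  | zero => exact Tick.nil _
  | succ s ih => exact Tick.O1 _ trivial _ _ ih

lemma tick_mid (t s : ℕ) : Tick False (List.replicate t Nt.I ++ Nt.H :: List.replicate (s + 1) Nt.O)
    (List.replicate (t + 1) Nt.I ++ Nt.H :: List.replicate s Nt.O) := by
  induction t with
  | zero => exact Tick.H _ _ _ (Tick.O2 _ trivial _ _ (tick_O s))
  | succ t ih => exact Tick.I _ _ _ ih

lemma tick_last (t : ℕ) : Tick False (List.replicate t Nt.I ++ [Nt.H])
    (List.replicate (t + 1) Nt.I) := by
  induction t with
  | zero => exact Tick.H _ _ _ (Tick.nil _)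
  | succ t ih => exact Tick.I _ _ _ ih

lemma derives_w1 (i : ℕ) : Relation.ReflTransGen (St []) (w1 0) (w1 i) := by
  induction i with
  | zero => exact Relation.ReflTransGen.refl
  | succ i ih => exact ih.tail (step_w1 i)

lemma derives_mid (i : ℕ) : ∀ t, t ≤ i → Relation.ReflTransGen (St []) (w1 0)
    (wd (List.replicate t Nt.I ++ Nt.H :: List.replicate (i - t) Nt.O) t) := by
  intro t
  induction t with
  | zero =>
    intro _
    exact (derives_w1 i).tail (step_w1_wd i)
  | succ t ih =>
    intro ht
    have h1 := ih (by omega)
    obtain ⟨s, hs⟩ : ∃ s, i - t = s + 1 := ⟨i - t - 1, by omega⟩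
    have hs' : i - (t + 1) = s := by omega
    rw [hs] at h1
    rw [hs']
    exact h1.tail (step_wd_of_tick (tick_mid t s) t [] (fun h => absurd h id) (by simp))

lemma cells_mid (t s : ℕ) :
    ∀ c ∈ List.replicate t Nt.I ++ Nt.H :: List.replicate s Nt.O, Cell c := by
  intro c hc
  rw [List.mem_append, List.mem_cons] at hc
  rcases hc with hc | hc | hc
  · exact Or.inr (Or.inr (List.eq_of_mem_replicate hc))
  · exact Or.inr (Or.inl hc)
  · exact Or.inl (List.eq_of_mem_replicate hc)

lemma derives_fw (m t : ℕ) (hm : 2 ≤ m) (ht : t < m) :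
    Relation.ReflTransGen (St []) (w1 0) (fw m t) := by
  obtain ⟨i, rfl⟩ : ∃ i, m = i + 2 := ⟨m - 2, by omega⟩
  by_cases h : t ≤ i
  · have h1 := derives_mid i t h
    have h2 := step_wd_final (cells_mid t (i - t)) t []
    have h3 : (List.replicate t Nt.I ++ Nt.H :: List.replicate (i - t) Nt.O).length + 1 = i + 2 := by
      simp; omega
    rw [h3] at h2
    exact h1.tail h2
  · have hti : t = i + 1 := by omega
    subst hti
    have h1 := derives_mid i i le_rfl
    rw [Nat.sub_self, List.replicate_zero] at h1
    have h2 := step_wd_of_tick (tick_last i) i [] (fun h => absurd h id) (by simp)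
    have h3 := step_wd_final (cs := List.replicate (i + 1) Nt.I)
      (fun c hc => Or.inr (Or.inr (List.eq_of_mem_replicate hc))) (i + 1) []
    rw [List.length_replicate] at h3
    exact (h1.tail h2).tail h3

theorem isLPEP0L_K : IsLPEP0L K := by
  refine ⟨Nt, inferInstance, RL, w1 0, RL_finite, ?_, ?_, by simp [w1], ?_⟩
  · intro r hr
    simp only [RL, rl, Set.mem_ofPred_eq, List.mem_cons, List.not_mem_nil, or_false] at hr
    rcases hr with rfl | rfl | rfl | rfl | rfl | rfl | rfl | rfl | rfl | rfl | rfl | rfl | rfl |
      rfl | rfl | rfl <;> rfl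
  · intro r hr
    simp only [RL, rl, Set.mem_ofPred_eq, List.mem_cons, List.not_mem_nil, or_false] at hr
    rcases hr with rfl | rfl | rfl | rfl | rfl | rfl | rfl | rfl | rfl | rfl | rfl | rfl | rfl |
      rfl | rfl | rfl <;> simp
  · intro z
    constructor
    · rintro ⟨m, t, hm, ht, rfl⟩
      rw [← fw_eq_map]
      exact derives_fw m t hm ht
    · intro h
      exact mem_K_of_inv (inv_of_derives h)

/-! ### `K` is not an ET0L language -/

lemma count_word (m t : ℕ) :
    ((List.replicate m (true :: List.replicate t false)).flatten).count true = m := by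
  induction m with
  | zero => rfl
  | succ m ih =>
    rw [List.replicate_succ, List.flatten_cons, List.count_append, ih]
    simp [List.count_replicate]
    omega

lemma length_word (m t : ℕ) :
    ((List.replicate m (true :: List.replicate t false)).flatten).length = m * (t + 1) := by
  induction m with
  | zero => simp
  | succ m ih =>
    rw [List.replicate_succ, List.flatten_cons, List.length_append, ih]
    simp
    ring

/-- in the word `(a b^t)^m`, position `j` carries `a` exactly if `t + 1` divides `j` -/
lemma getElem_word (m t : ℕ) : ∀ j, (h : j <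
    ((List.replicate m (true :: List.replicate t false)).flatten).length) →
    ((List.replicate m (true :: List.replicate t false)).flatten)[j] = true → (t + 1) ∣ j := by
  induction m with
  | zero => intro j h; simp at h
  | succ m ih =>
    intro j h hj
    simp only [List.replicate_succ, List.flatten_cons] at hj h
    by_cases hlt : j < (true :: List.replicate t false).length
    · rw [List.getElem_append_left hlt] at hj
      cases j with
      | zero => exact dvd_zero _
      | succ j => simp at hj
    · push Not at hlt
      rw [List.getElem_append_right hlt] at hj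
      have hlen : (true :: List.replicate t false).length = t + 1 := by simp
      have h1 := ih (j - (true :: List.replicate t false).length) (by
        rw [List.length_append] at h; omega) hj
      rw [hlen] at h1 hlt
      have : j = (j - (t + 1)) + (t + 1) := by omega
      rw [this]
      exact Dvd.dvd.add h1 (dvd_refl _)

/-- a factor with two letters `a` is long -/
lemma long_factor {m t : ℕ} {y : List Bool}
    (hy : y <:+: (List.replicate m (true :: List.replicate t false)).flatten)
    (h2 : 2 ≤ y.count true) : t < y.length := by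
  obtain ⟨A, B, hAB⟩ := hy
  -- two distinct positions
  have h3 : ∃ i j : ℕ, ∃ (hi : i < y.length) (hj : j < y.length), i < j ∧ y[i] = true ∧
      y[j] = true := by
    have : y.Duplicate true := by
      rw [List.duplicate_iff_two_le_count]
      exact h2
    obtain ⟨i, j, hij, h4, h5⟩ := List.duplicate_iff_exists_distinct_get.1 this
    exact ⟨i.1, j.1, i.2, j.2, hij, by simpa using h4.symm, by simpa using h5.symm⟩
  obtain ⟨i, j, hi, hj, hij, h4, h5⟩ := h3
  have key : ∀ l, (hl : l < y.length) → y[l] = true → (t + 1) ∣ (A.length + l) := by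
    intro l hl h6
    have hlen : A.length + l < ((List.replicate m (true :: List.replicate t false)).flatten).length := by
      rw [← hAB]; simp; omega
    apply getElem_word m t (A.length + l) hlen
    simp only [← hAB]
    rw [List.getElem_append_left (by simp; omega), List.getElem_append_right (by omega)]
    simpa using h6
  have h6 := key i hi h4
  have h7 := key j hj h5
  have h8 : (t + 1) ∣ (j - i) := by
    have := (Nat.dvd_sub h7 h6)
    rwa [show A.length + j - (A.length + i) = j - i by omega] at this
  have := Nat.le_of_dvd (by omega) h8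
  omega

theorem not_isET0L_K : ¬ IsET0L K := by
  intro h
  obtain ⟨D, hD⟩ := et0l_gap h true (by
    intro m
    refine ⟨m * m, ?_⟩
    rintro z ⟨m', t, hm, ht, rfl⟩ hc
    rw [count_word] at hc
    subst hc
    rw [length_word]
    exact Nat.mul_le_mul_left _ ht)
  set m := D + 2 with hm
  have hz : (List.replicate m (true :: List.replicate (m - 1) false)).flatten ∈ K :=
    ⟨m, m - 1, by omega, by omega, rfl⟩
  obtain ⟨y, hy1, hy2, hy3⟩ := hD _ hz (by rw [count_word]; omega)
  have := long_factor hy1 hy2
  omega

lemma IsLPEP0L.isLPE0L {T : Type} {L : Language T} (h : IsLPEP0L L) : IsLPE0L L := by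
  obtain ⟨N, hN, P, w, h1, h2, _, h4, h5⟩ := h
  exact ⟨N, hN, P, w, h1, h2, h4, h5⟩

end Pool.Agent.Helper82.LP
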