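import Pool.Agent.Helper82.LPDefs

set_option autoImplicit false
open Classical

namespace Pool.Agent.Helper82.LP

section Annot

variable {N T : Type}

/-- annotated symbols: a symbol together with the terminal word derived from it -/
abbrev Ann (N T : Type) : Type := (N ⊕ T) × List T

/-- the terminal word of an annotated word -/
def yld (U : List (Ann N T)) : List T := (U.map Prod.snd).flatten

/-- the underlying word -/
def und (U : List (Ann N T)) : List (N ⊕ T) := U.map Prod.fst

@[simp] lemma yld_nil : yld ([] : List (Ann N T)) = [] := rfl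
@[simp] lemma yld_cons (σ : Ann N T) (U : List (Ann N T)) : yld (σ :: U) = σ.2 ++ yld U := rfl
@[simp] lemma yld_append (U V : List (Ann N T)) : yld (U ++ V) = yld U ++ yld V := by
  simp [yld]
@[simp] lemma und_nil : und ([] : List (Ann N T)) = [] := rfl
@[simp] lemma und_cons (σ : Ann N T) (U : List (Ann N T)) : und (σ :: U) = σ.1 :: und U := rfl
@[simp] lemma und_append (U V : List (Ann N T)) : und (U ++ V) = und U ++ und V := by
  simp [und]

/-- annotated steps -/
inductive AStep (R : Set ((N ⊕ T) × List (N ⊕ T))) :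
    List (Ann N T) → List (Ann N T) → Prop
  | nil : AStep R [] []
  | cons (X : N ⊕ T) (D U V : List (Ann N T)) (hr : (X, und D) ∈ R) (h : AStep R U V) :
      AStep R ((X, yld D) :: U) (D ++ V)

lemma AStep.tstep {R : Set ((N ⊕ T) × List (N ⊕ T))} {U V : List (Ann N T)} (h : AStep R U V) :
    TStep R (und U) (und V) := by
  induction h with
  | nil => exact TStep.nil
  | cons X D U V hr _ ih =>
    rw [und_cons, und_append]
    exact TStep.cons _ _ _ _ hr ih

lemma AStep.yld_eq {R : Set ((N ⊕ T) × List (N ⊕ T))} {U V : List (Ann N T)} (h : AStep R U V) :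
    yld U = yld V := by
  induction h with
  | nil => rfl
  | cons X D U V hr _ ih => rw [yld_cons, yld_append, ih]

lemma annotate {R : Set ((N ⊕ T) × List (N ⊕ T))} {u v : List (N ⊕ T)} (h : TStep R u v) :
    ∀ V : List (Ann N T), und V = v → ∃ U, und U = u ∧ AStep R U V := by
  induction h with
  | nil =>
    intro V hV
    have : V = [] := by simpa [und] using hV
    subst this
    exact ⟨[], rfl, AStep.nil⟩
  | cons a x u v hr _ ih =>
    intro V hV
    obtain ⟨D, V', rfl, hD, hV'⟩ := List.map_eq_append_iff.1 hV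
    obtain ⟨U, hU, hs⟩ := ih V' hV'
    refine ⟨(a, yld D) :: U, by simp [hU], AStep.cons a D U V' ?_ hs⟩
    rw [show und D = x from hD]
    exact hr

lemma AStep.append {R : Set ((N ⊕ T) × List (N ⊕ T))} {A B A' B' : List (Ann N T)}
    (h1 : AStep R A A') (h2 : AStep R B B') : AStep R (A ++ B) (A' ++ B') := by
  induction h1 with
  | nil => exact h2
  | cons X D U V hr _ ih =>
    rw [List.cons_append, List.append_assoc]
    exact AStep.cons _ _ _ _ hr ih

lemma AStep.split {R : Set ((N ⊕ T) × List (N ⊕ T))} {A B : List (Ann N T)} :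
    ∀ {C : List (Ann N T)}, AStep R (A ++ B) C →
      ∃ C₁ C₂, C = C₁ ++ C₂ ∧ AStep R A C₁ ∧ AStep R B C₂ := by
  induction A with
  | nil => intro C h; exact ⟨[], C, rfl, AStep.nil, h⟩
  | cons σ A ih =>
    intro C h
    rw [List.cons_append] at h
    cases h with
    | cons X D U V hr h =>
      obtain ⟨C₁, C₂, rfl, h1, h2⟩ := ih h
      exact ⟨D ++ C₁, C₂, by simp, AStep.cons _ _ _ _ hr h1, h2⟩

/-- chains of annotated steps with the tables `R s, R (s+1), …` -/
inductive Chain (R : ℕ → Set ((N ⊕ T) × List (N ⊕ T))) :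
    ℕ → ℕ → List (Ann N T) → List (Ann N T) → Prop
  | refl (s : ℕ) (A : List (Ann N T)) : Chain R s s A A
  | head (s t : ℕ) (A B C : List (Ann N T)) (h1 : AStep (R s) A B) (h2 : Chain R (s + 1) t B C) :
      Chain R s t A C

lemma Chain.yld_eq {R : ℕ → Set ((N ⊕ T) × List (N ⊕ T))} {s t : ℕ} {A B : List (Ann N T)}
    (h : Chain R s t A B) : yld A = yld B := by
  induction h with
  | refl => rfl
  | head s t A B C h1 _ ih => rw [h1.yld_eq, ih]

lemma Chain.le {R : ℕ → Set ((N ⊕ T) × List (N ⊕ T))} {s t : ℕ} {A B : List (Ann N T)}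
    (h : Chain R s t A B) : s ≤ t := by
  induction h with
  | refl => exact le_rfl
  | head s t A B C h1 _ ih => omega

lemma chain_self {R : ℕ → Set ((N ⊕ T) × List (N ⊕ T))} {s : ℕ} {A B : List (Ann N T)}
    (h : Chain R s s A B) : A = B := by
  cases h with
  | refl => rfl
  | head _ _ _ B' _ h1 h2 => have := h2.le; omega

lemma chain_of_lt {R : ℕ → Set ((N ⊕ T) × List (N ⊕ T))} {s t : ℕ} {A C : List (Ann N T)}
    (h : Chain R s t A C) (hst : s < t) : ∃ B, AStep (R s) A B ∧ Chain R (s + 1) t B C := by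
  cases h with
  | refl => omega
  | head _ _ _ B _ h1 h2 => exact ⟨B, h1, h2⟩

lemma Chain.append {R : ℕ → Set ((N ⊕ T) × List (N ⊕ T))} {s t : ℕ}
    {A A' : List (Ann N T)} (h1 : Chain R s t A A') :
    ∀ {B B' : List (Ann N T)}, Chain R s t B B' → Chain R s t (A ++ B) (A' ++ B') := by
  induction h1 with
  | refl s A =>
    intro B B' h2
    rw [chain_self h2]
    exact Chain.refl _ _
  | head s t A C D h1 h2 ih =>
    intro B B' h3
    obtain ⟨E, h4, h5⟩ := chain_of_lt h3 (by have := h2.le; omega)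
    exact Chain.head _ _ _ _ _ (h1.append h4) (ih h5)

lemma Chain.split {R : ℕ → Set ((N ⊕ T) × List (N ⊕ T))} {s t : ℕ} {X C : List (Ann N T)}
    (h : Chain R s t X C) : ∀ (A B : List (Ann N T)), X = A ++ B →
      ∃ C₁ C₂, C = C₁ ++ C₂ ∧ Chain R s t A C₁ ∧ Chain R s t B C₂ := by
  induction h with
  | refl s X =>
    intro A B hX
    exact ⟨A, B, hX, Chain.refl _ _, Chain.refl _ _⟩
  | head s t X Y C h1 h2 ih =>
    intro A B hX
    subst hX
    obtain ⟨C₁, C₂, rfl, h3, h4⟩ := h1.split
    obtain ⟨D₁, D₂, rfl, h5, h6⟩ := ih _ _ rfl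
    exact ⟨D₁, D₂, rfl, Chain.head _ _ _ _ _ h3 h5, Chain.head _ _ _ _ _ h4 h6⟩

lemma Chain.trans {R : ℕ → Set ((N ⊕ T) × List (N ⊕ T))} {s t r : ℕ}
    {A B C : List (Ann N T)} (h1 : Chain R s t A B) (h2 : Chain R t r B C) : Chain R s r A C := by
  induction h1 with
  | refl => exact h2
  | head s t A B' D h3 _ ih => exact Chain.head _ _ _ _ _ h3 (ih h2)

/-- descendants of a member of a level -/
lemma Chain.desc {R : ℕ → Set ((N ⊕ T) × List (N ⊕ T))} {s t : ℕ} {U V : List (Ann N T)}
    (h : Chain R s t U V) {σ : Ann N T} (hσ : σ ∈ U) : ∃ D, Chain R s t [σ] D ∧ D ⊆ V := by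
  obtain ⟨A, B, rfl⟩ := List.append_of_mem hσ
  obtain ⟨C₁, C₂, rfl, h1, h2⟩ := h.split A (σ :: B) rfl
  obtain ⟨D₁, D₂, rfl, h3, h4⟩ := h2.split [σ] B rfl
  refine ⟨D₁, h3, ?_⟩
  intro x hx
  simp [hx]

/-- descendants of a word, member by member -/
lemma chain_flatMap {R : ℕ → Set ((N ⊕ T) × List (N ⊕ T))} {s t : ℕ} (hst : s ≤ t)
    (ρ : Ann N T → List (Ann N T)) :
    ∀ A : List (Ann N T), (∀ σ ∈ A, Chain R s t [σ] (ρ σ)) → Chain R s t A (A.flatMap ρ) := by
  intro A
  induction A with
  | nil =>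
    intro _
    have : ∀ n s, Chain R s (s + n) ([] : List (Ann N T)) [] := by
      intro n
      induction n with
      | zero => intro s; exact Chain.refl _ _
      | succ n ih =>
        intro s
        refine Chain.head _ _ _ _ _ AStep.nil ?_
        have := ih (s + 1)
        rwa [show s + 1 + n = s + (n + 1) by ring] at this
    have h := this (t - s) s
    rwa [show s + (t - s) = t by omega] at h
  | cons σ A ih =>
    intro h
    rw [List.flatMap_cons]
    exact Chain.append (A := [σ]) (h σ (by simp)) (ih (fun τ hτ => h τ (by simp [hτ])))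

end Annot

end Pool.Agent.Helper82.LP
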