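import Pool.Agent.Helper82.PEGSetup

set_option autoImplicit false
open Classical

namespace Pool.Agent.Helper82.PEG

section Average

variable {k G h : ℕ} {d : ℕ → ℕ} {C : Type} [Fintype C] {N : Type} {P : N → Exp Sym N}

/-- indicator -/
noncomputable def ind (p : Prop) : ℝ := if p then 1 else 0

lemma ind_nonneg (p : Prop) : 0 ≤ ind p := by unfold ind; split_ifs <;> norm_num

lemma sum_ind {A : Type*} [Fintype A] (p : A → Prop) :
    ∑ a, ind (p a) = ((Finset.univ.filter p).card : ℝ) := by
  unfold ind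
  rw [Finset.card_filter]
  push_cast
  rfl

/-- a fixed entry equals `c0` for a `1/K` fraction of the data -/
lemma sum_entry (c0 : C) (i : Fin G) (x : Idx k d i) :
    (Fintype.card C : ℝ) * ∑ D : Data k G d C, ind (D i x = c0) = (Fintype.card (Data k G d C) : ℝ) := by
  rw [sym_sum (fun (D : Data k G d C) (c : C) => Function.update D i (Function.update (D i) x c))
    (fun D => D i x) (by intro D c; simp) (by intro D c; simp)]
  have : ∀ D : Data k G d C, ∑ c : C,
      ind ((Function.update D i (Function.update (D i) x c)) i x = c0) = 1 := by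
    intro D
    simp only [Function.update_self]
    rw [sum_ind]
    have : Finset.univ.filter (fun c : C => c = c0) = {c0} := by ext; simp
    rw [this]; simp
  simp only [this]
  simp

/-- the determined entries as a sum of indicators -/
lemma card_NPs (E : Finset (Exp Sym N)) (c0 : C) (hd : ∀ g, d g ≤ h) (g : Fin G)
    (D : Data k G d C) (p : Fin h → Bool) (X : Idx k d g → C) :
    ((NPs P E c0 hd g D p X).card : ℝ) = ∑ a : Fin (d g) → Bool, ∑ q : Fin k → Bool,
      ind (NoProbe P (E : Set (Exp Sym N)) (Iv k d g) (wq q)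
          (uw c0 (Function.update D g X) (ovp d g p a)) ∧
        ∀ i : Fin G, i ≠ g → (Function.update D g X) i (pre hd i (ovp d g p a), q) ≠ c0) := by
  rw [← Fintype.sum_prod_type' (f := fun (a : Fin (d g) → Bool) (q : Fin k → Bool) =>
      ind (NoProbe P (E : Set (Exp Sym N)) (Iv k d g) (wq q)
          (uw c0 (Function.update D g X) (ovp d g p a)) ∧
        ∀ i : Fin G, i ≠ g → (Function.update D g X) i (pre hd i (ovp d g p a), q) ≠ c0))]
  rw [sum_ind]
  unfold NPs
  congr 2
  ext x
  simp only [Finset.mem_filter, Finset.mem_univ, true_and]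
  apply and_congr_right
  intro _
  apply forall_congr'
  intro i
  apply imp_congr_right
  intro hi
  rw [Function.update_of_ne hi]

/-- second part of the upper bound -/
lemma sum_Q {E : Finset (Exp Sym N)} (hE : Closed P (E : Set (Exp Sym N))) {S : N}
    (hS : Exp.nt S ∈ E) (hk : 1 ≤ k) (c0 : C) (hC : 2 ≤ Fintype.card C) (hd : ∀ g, d g ≤ h)
    (hP : ∀ w : List Sym, w ∈ L₁ * (⊤ : Language Sym) ↔ Run P (Exp.nt S) w (some []))
    (g : Fin G) (y : ℕ) (hy : 8 * (Fintype.card C * y) ≤ 2 ^ d g * 2 ^ k)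
    (hT : 8 * ((zl k d G + h + 1 + 3) ^ ((zl k d G - zl k d (g + 1)) * E.card) *
      (zl k d G + h + 1 + 3) ^ (2 ^ d g * ((h + 1) * E.card))) ≤ 2 ^ y) :
    ∑ D : Data k G d C, ∑ p : Fin h → Bool, ∑ q : Fin k → Bool,
      ind (NoProbe P (E : Set (Exp Sym N)) (Iv k d g) (wq q) (uw c0 D p) ∧
        ∀ i : Fin G, i ≠ g → D i (pre hd i p, q) ≠ c0) ≤
      (Fintype.card (Data k G d C) : ℝ) * 2 ^ h * 2 ^ k * (1 / 4) := by
  set Q : Data k G d C → (Fin h → Bool) → ℝ := fun D p => ∑ q : Fin k → Bool,
      ind (NoProbe P (E : Set (Exp Sym N)) (Iv k d g) (wq q) (uw c0 D p) ∧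
        ∀ i : Fin G, i ≠ g → D i (pre hd i p, q) ≠ c0) with hQ
  have hcardA : Fintype.card (Fin (d g) → Bool) = 2 ^ d g := by simp
  have hcardI : Fintype.card (Idx k d g) = 2 ^ d g * 2 ^ k := by simp [Idx]
  -- symmetrise over the path
  have s1 : ∀ D : Data k G d C, (2:ℝ) ^ (d g) * ∑ p, Q D p = ∑ p, ∑ a, Q D (ovp d g p a) := by
    intro D
    have := sym_sum (fun p a => ovp d g p a) (fun p => pre hd g p) (pre_ovp hd g) (ovp_ovp hd g)
      (fun p => Q D p)
    rw [hcardA] at this
    push_cast at this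
    exact this
  -- symmetrise over the data of epoch g
  have s2 : (Fintype.card (Idx k d g → C) : ℝ) * ∑ D, ∑ p, ∑ a, Q D (ovp d g p a) =
      ∑ D : Data k G d C, ∑ X : Idx k d g → C, ∑ p, ∑ a, Q (Function.update D g X) (ovp d g p a) :=
    sym_sum (fun (D : Data k G d C) X => Function.update D g X) (fun D => D g)
      (by intro D X; simp) (by intro D X; simp) (fun D => ∑ p, ∑ a, Q D (ovp d g p a))
  have s3 : ∑ D : Data k G d C, ∑ X : Idx k d g → C, ∑ p, ∑ a,
      Q (Function.update D g X) (ovp d g p a) =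
      ∑ D : Data k G d C, ∑ p, ∑ X : Idx k d g → C, ((NPs P E c0 hd g D p X).card : ℝ) := by
    apply Finset.sum_congr rfl
    intro D _
    rw [Finset.sum_comm]
    apply Finset.sum_congr rfl
    intro p _
    apply Finset.sum_congr rfl
    intro X _
    rw [card_NPs E c0 hd g D p X]
  have s4 : ∀ (D : Data k G d C) (p : Fin h → Bool),
      ∑ X : Idx k d g → C, ((NPs P E c0 hd g D p X).card : ℝ) ≤
        (Fintype.card C : ℝ) ^ Fintype.card (Idx k d g) * Fintype.card (Idx k d g) * (1 / 4) := by
    intro D p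
    apply sum_NP_le c0 hC (fun X => (tau1 (h := h) P E c0 g D X, tau2 P E c0 g D p X))
      (fun X => NPs P E c0 hd g D p X) _ y
    · rw [hcardI]; exact hy
    · have hcT : Fintype.card ((Fin (zl k d G - zl k d (g + 1)) × E → Fin (zl k d G + h + 1 + 3)) ×
          ((Fin (d g) → Bool) × Fin (h + 1) × E → Fin (zl k d G + h + 1 + 3))) =
          (zl k d G + h + 1 + 3) ^ ((zl k d G - zl k d (g + 1)) * E.card) *
          (zl k d G + h + 1 + 3) ^ (2 ^ d g * ((h + 1) * E.card)) := by
        simp
      rw [hcT]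
      have : ((8 * ((zl k d G + h + 1 + 3) ^ ((zl k d G - zl k d (g + 1)) * E.card) *
        (zl k d G + h + 1 + 3) ^ (2 ^ d g * ((h + 1) * E.card))) : ℕ) : ℝ) ≤ ((2 ^ y : ℕ) : ℝ) := by
        exact_mod_cast hT
      rw [Nat.cast_mul] at this
      push_cast at this ⊢
      linarith
    · intro X X' hXX
      have e1 := (Prod.mk.inj hXX).1
      have e2 := (Prod.mk.inj hXX).2
      exact consistent hE hS hk c0 hd hP g D p X X' e1 e2
  have hposX : (0:ℝ) < (Fintype.card (Idx k d g → C) : ℝ) := by
    have : Nonempty (Idx k d g → C) := ⟨fun _ => c0⟩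
    exact_mod_cast Fintype.card_pos
  have hcardX : (Fintype.card (Idx k d g → C) : ℝ) = (Fintype.card C : ℝ) ^ Fintype.card (Idx k d g) := by
    rw [Fintype.card_fun]; push_cast; rfl
  have s5 : (Fintype.card (Idx k d g → C) : ℝ) * ((2:ℝ) ^ (d g) * ∑ D, ∑ p, Q D p) ≤
      (Fintype.card (Idx k d g → C) : ℝ) * ((2:ℝ) ^ (d g) *
        ((Fintype.card (Data k G d C) : ℝ) * 2 ^ h * 2 ^ k * (1 / 4))) := by
    have e1 : (2:ℝ) ^ (d g) * ∑ D, ∑ p, Q D p = ∑ D, ∑ p, ∑ a, Q D (ovp d g p a) := by
      rw [Finset.mul_sum]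
      exact Finset.sum_congr rfl (fun D _ => s1 D)
    rw [e1, s2, s3]
    calc ∑ D : Data k G d C, ∑ p, ∑ X : Idx k d g → C, ((NPs P E c0 hd g D p X).card : ℝ)
        ≤ ∑ D : Data k G d C, ∑ p : Fin h → Bool,
          ((Fintype.card C : ℝ) ^ Fintype.card (Idx k d g) * Fintype.card (Idx k d g) * (1 / 4)) :=
          Finset.sum_le_sum (fun D _ => Finset.sum_le_sum (fun p _ => s4 D p))
      _ = _ := by
          simp only [Finset.sum_const, nsmul_eq_mul, Finset.card_univ]
          rw [hcardX, hcardI]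
          have : (Fintype.card (Fin h → Bool) : ℝ) = 2 ^ h := by simp
          rw [this]
          push_cast
          ring
  have s6 := le_of_mul_le_mul_left s5 hposX
  exact le_of_mul_le_mul_left s6 (by positivity)

/-- the averaging inequality -/
theorem average {E : Finset (Exp Sym N)} (hE : Closed P (E : Set (Exp Sym N))) {S : N}
    (hS : Exp.nt S ∈ E) (hk : 1 ≤ k) (c0 : C) (hC : 2 ≤ Fintype.card C) (hd : ∀ g, d g ≤ h)
    (hP : ∀ w : List Sym, w ∈ L₁ * (⊤ : Language Sym) ↔ Run P (Exp.nt S) w (some []))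
    (y : Fin G → ℕ) (hy : ∀ g, 8 * (Fintype.card C * y g) ≤ 2 ^ d g * 2 ^ k)
    (hT : ∀ g : Fin G, 8 * ((zl k d G + h + 1 + 3) ^ ((zl k d G - zl k d (g + 1)) * E.card) *
      (zl k d G + h + 1 + 3) ^ (2 ^ d g * ((h + 1) * E.card))) ≤ 2 ^ y g) :
    (G : ℝ) - k * E.card ≤ G * (G / Fintype.card C + 1 / 4) := by
  set Tot : ℝ := (Fintype.card (Data k G d C) : ℝ) * 2 ^ h * 2 ^ k with hTot
  have hCpos : (0:ℝ) < Fintype.card C := by
    have : 0 < Fintype.card C := by omega
    exact_mod_cast this
  have hTotpos : 0 < Tot := by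
    have : Nonempty (Data k G d C) := ⟨fun _ _ => c0⟩
    have h1 : (0:ℝ) < Fintype.card (Data k G d C) := by exact_mod_cast Fintype.card_pos
    positivity
  -- lower bound
  have hlow : ∀ (D : Data k G d C) (p : Fin h → Bool) (q : Fin k → Bool),
      (G : ℝ) - k * E.card ≤
        ∑ g : Fin G, ind (NoProbe P (E : Set (Exp Sym N)) (Iv k d g) (wq q) (uw c0 D p)) := by
    intro D p q
    have h1 := card_probed hE (fun g : Fin G => Iv k d g)
      (fun i j l hi hj => Fin.ext (Iv_disjoint k d i j l hi hj)) (wq q) (uw c0 D p)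
    rw [length_wq] at h1
    rw [sum_ind]
    have h2 := Finset.card_filter_add_card_filter_not (s := (Finset.univ : Finset (Fin G)))
      (fun g : Fin G => NoProbe P (E : Set (Exp Sym N)) (Iv k d g) (wq q) (uw c0 D p))
    rw [Finset.card_univ, Fintype.card_fin] at h2
    have h1' : ((Finset.univ.filter (fun g : Fin G => ¬ NoProbe P (E : Set (Exp Sym N)) (Iv k d g) (wq q)
      (uw c0 D p))).card : ℝ) ≤ k * E.card := by exact_mod_cast h1
    have h2' : ((Finset.univ.filter (fun g : Fin G => NoProbe P (E : Set (Exp Sym N)) (Iv k d g) (wq q)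
      (uw c0 D p))).card : ℝ) + ((Finset.univ.filter (fun g : Fin G => ¬ NoProbe P (E : Set (Exp Sym N))
      (Iv k d g) (wq q) (uw c0 D p))).card : ℝ) = G := by exact_mod_cast h2
    linarith
  have hlowsum : Tot * ((G : ℝ) - k * E.card) ≤
      ∑ D : Data k G d C, ∑ p : Fin h → Bool, ∑ q : Fin k → Bool,
        ∑ g : Fin G, ind (NoProbe P (E : Set (Exp Sym N)) (Iv k d g) (wq q) (uw c0 D p)) := by
    calc Tot * ((G : ℝ) - k * E.card) = ∑ D : Data k G d C, ∑ p : Fin h → Bool, ∑ q : Fin k → Bool,
        ((G : ℝ) - k * E.card) := by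
          simp only [Finset.sum_const, nsmul_eq_mul, Finset.card_univ]
          have e1 : (Fintype.card (Fin h → Bool) : ℝ) = 2 ^ h := by simp
          have e2 : (Fintype.card (Fin k → Bool) : ℝ) = 2 ^ k := by simp
          rw [e1, e2, hTot]; ring
      _ ≤ _ := Finset.sum_le_sum (fun D _ => Finset.sum_le_sum (fun p _ =>
          Finset.sum_le_sum (fun q _ => hlow D p q)))
  -- upper bound
  have hpt : ∀ (D : Data k G d C) (p : Fin h → Bool) (q : Fin k → Bool) (g : Fin G),
      ind (NoProbe P (E : Set (Exp Sym N)) (Iv k d g) (wq q) (uw c0 D p)) ≤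
        ∑ i : Fin G, ind (D i (pre hd i p, q) = c0) +
        ind (NoProbe P (E : Set (Exp Sym N)) (Iv k d g) (wq q) (uw c0 D p) ∧
          ∀ i : Fin G, i ≠ g → D i (pre hd i p, q) ≠ c0) := by
    intro D p q g
    by_cases hN : NoProbe P (E : Set (Exp Sym N)) (Iv k d g) (wq q) (uw c0 D p)
    · by_cases hA : ∀ i : Fin G, i ≠ g → D i (pre hd i p, q) ≠ c0
      · have h1 : 0 ≤ ∑ i : Fin G, ind (D i (pre hd i p, q) = c0) :=
          Finset.sum_nonneg (fun i _ => ind_nonneg _)
        have h2 : ind (NoProbe P (E : Set (Exp Sym N)) (Iv k d g) (wq q) (uw c0 D p) ∧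
          ∀ i : Fin G, i ≠ g → D i (pre hd i p, q) ≠ c0) = 1 := by
          unfold ind; rw [if_pos ⟨hN, hA⟩]
        have h3 : ind (NoProbe P (E : Set (Exp Sym N)) (Iv k d g) (wq q) (uw c0 D p)) = 1 := by
          unfold ind; rw [if_pos hN]
        rw [h2, h3]; linarith
      · push Not at hA
        obtain ⟨i, _, hi⟩ := hA
        have h1 : (1:ℝ) ≤ ∑ i : Fin G, ind (D i (pre hd i p, q) = c0) := by
          have h2 : ind (D i (pre hd i p, q) = c0) = 1 := by unfold ind; rw [if_pos hi]
          rw [← h2]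
          exact Finset.single_le_sum (f := fun i : Fin G => ind (D i (pre hd i p, q) = c0))
            (fun i _ => ind_nonneg _) (Finset.mem_univ i)
        have h3 : ind (NoProbe P (E : Set (Exp Sym N)) (Iv k d g) (wq q) (uw c0 D p)) ≤ 1 := by
          unfold ind; split_ifs <;> norm_num
        have h4 := ind_nonneg (NoProbe P (E : Set (Exp Sym N)) (Iv k d g) (wq q) (uw c0 D p) ∧
          ∀ i : Fin G, i ≠ g → D i (pre hd i p, q) ≠ c0)
        linarith
    · have h3 : ind (NoProbe P (E : Set (Exp Sym N)) (Iv k d g) (wq q) (uw c0 D p)) = 0 := by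
        unfold ind; rw [if_neg hN]
      rw [h3]
      have h1 : 0 ≤ ∑ i : Fin G, ind (D i (pre hd i p, q) = c0) :=
          Finset.sum_nonneg (fun i _ => ind_nonneg _)
      have h4 := ind_nonneg (NoProbe P (E : Set (Exp Sym N)) (Iv k d g) (wq q) (uw c0 D p) ∧
          ∀ i : Fin G, i ≠ g → D i (pre hd i p, q) ≠ c0)
      linarith
  have hfirst : ∑ D : Data k G d C, ∑ p : Fin h → Bool, ∑ q : Fin k → Bool,
      ∑ i : Fin G, ind (D i (pre hd i p, q) = c0) = Tot * (G / Fintype.card C) := by
    have e0 : ∀ (p : Fin h → Bool) (q : Fin k → Bool) (i : Fin G),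
        ∑ D : Data k G d C, ind (D i (pre hd i p, q) = c0) =
          (Fintype.card (Data k G d C) : ℝ) / Fintype.card C := by
      intro p q i
      rw [eq_div_iff (ne_of_gt hCpos), mul_comm]
      exact sum_entry c0 i (pre hd i p, q)
    calc ∑ D : Data k G d C, ∑ p : Fin h → Bool, ∑ q : Fin k → Bool,
        ∑ i : Fin G, ind (D i (pre hd i p, q) = c0)
        = ∑ p : Fin h → Bool, ∑ q : Fin k → Bool, ∑ i : Fin G,
          ∑ D : Data k G d C, ind (D i (pre hd i p, q) = c0) := by
          rw [Finset.sum_comm]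
          apply Finset.sum_congr rfl; intro p _
          rw [Finset.sum_comm]
          apply Finset.sum_congr rfl; intro q _
          rw [Finset.sum_comm]
      _ = ∑ p : Fin h → Bool, ∑ q : Fin k → Bool, ∑ i : Fin G,
          (Fintype.card (Data k G d C) : ℝ) / Fintype.card C := by
          apply Finset.sum_congr rfl; intro p _
          apply Finset.sum_congr rfl; intro q _
          apply Finset.sum_congr rfl; intro i _
          exact e0 p q i
      _ = Tot * (G / Fintype.card C) := by
          simp only [Finset.sum_const, nsmul_eq_mul, Finset.card_univ, Fintype.card_fin]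
          have e1 : (Fintype.card (Fin h → Bool) : ℝ) = 2 ^ h := by simp
          have e2 : (Fintype.card (Fin k → Bool) : ℝ) = 2 ^ k := by simp
          rw [e1, e2, hTot]; ring
  have hsecond : ∀ g : Fin G, ∑ D : Data k G d C, ∑ p : Fin h → Bool, ∑ q : Fin k → Bool,
      ind (NoProbe P (E : Set (Exp Sym N)) (Iv k d g) (wq q) (uw c0 D p) ∧
        ∀ i : Fin G, i ≠ g → D i (pre hd i p, q) ≠ c0) ≤ Tot * (1 / 4) :=
    fun g => sum_Q hE hS hk c0 hC hd hP g (y g) (hy g) (hT g)
  have hup : ∑ D : Data k G d C, ∑ p : Fin h → Bool, ∑ q : Fin k → Bool,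
        ∑ g : Fin G, ind (NoProbe P (E : Set (Exp Sym N)) (Iv k d g) (wq q) (uw c0 D p)) ≤
      Tot * (G * (G / Fintype.card C + 1 / 4)) := by
    calc ∑ D : Data k G d C, ∑ p : Fin h → Bool, ∑ q : Fin k → Bool,
        ∑ g : Fin G, ind (NoProbe P (E : Set (Exp Sym N)) (Iv k d g) (wq q) (uw c0 D p))
        = ∑ g : Fin G, ∑ D : Data k G d C, ∑ p : Fin h → Bool, ∑ q : Fin k → Bool,
          ind (NoProbe P (E : Set (Exp Sym N)) (Iv k d g) (wq q) (uw c0 D p)) := by
          rw [Finset.sum_comm' (s := (Finset.univ : Finset (Fin G)))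
            (t := fun _ => (Finset.univ : Finset (Data k G d C)))
            (t' := (Finset.univ : Finset (Data k G d C))) (s' := fun _ => Finset.univ) (by simp)]
          apply Finset.sum_congr rfl; intro D _
          rw [Finset.sum_comm' (s := (Finset.univ : Finset (Fin G)))
            (t := fun _ => (Finset.univ : Finset (Fin h → Bool)))
            (t' := (Finset.univ : Finset (Fin h → Bool))) (s' := fun _ => Finset.univ) (by simp)]
          apply Finset.sum_congr rfl; intro p _
          rw [Finset.sum_comm]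
      _ ≤ ∑ g : Fin G, ∑ D : Data k G d C, ∑ p : Fin h → Bool, ∑ q : Fin k → Bool,
          (∑ i : Fin G, ind (D i (pre hd i p, q) = c0) +
            ind (NoProbe P (E : Set (Exp Sym N)) (Iv k d g) (wq q) (uw c0 D p) ∧
              ∀ i : Fin G, i ≠ g → D i (pre hd i p, q) ≠ c0)) := by
          apply Finset.sum_le_sum; intro g _
          apply Finset.sum_le_sum; intro D _
          apply Finset.sum_le_sum; intro p _
          apply Finset.sum_le_sum; intro q _
          exact hpt D p q g
      _ ≤ ∑ g : Fin G, (Tot * (G / Fintype.card C) + Tot * (1 / 4)) := by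
          apply Finset.sum_le_sum; intro g _
          simp only [Finset.sum_add_distrib]
          rw [hfirst]
          have := hsecond g
          linarith
      _ = Tot * (G * (G / Fintype.card C + 1 / 4)) := by
          simp only [Finset.sum_const, nsmul_eq_mul, Finset.card_univ, Fintype.card_fin]
          ring
  exact le_of_mul_le_mul_left (le_trans hlowsum hup) hTotpos

end Average

end Pool.Agent.Helper82.PEG
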