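import Pool.Agent.Helper82.PEGDefs

set_option autoImplicit false
open Classical

namespace Pool.Agent.Helper82.PEG

variable {T N : Type} {P : N → Exp T N}

/-- the recursion defines a partial function -/
lemma Run.det {e : Exp T N} {w : List T} {r r' : Option (List T)}
    (h : Run P e w r) (h' : Run P e w r') : r = r' := by
  induction h generalizing r' with
  | eps w => cases h'; rfl
  | term_ok a s =>
    cases h' with
    | term_ok => rfl
    | term_fail _ _ h => exact absurd rfl (h s)
  | term_fail a w h =>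
    cases h' with
    | term_ok _ s => exact absurd rfl (h s)
    | term_fail => rfl
  | seq_ok e₁ e₂ w s r h₁ h₂ ih₁ ih₂ =>
    cases h' with
    | seq_ok _ _ _ s' _ h₁' h₂' =>
      have := ih₁ h₁'
      simp only [Option.some.injEq] at this
      subst this
      exact ih₂ h₂'
    | seq_fail _ _ _ h₁' =>
      have := ih₁ h₁'
      simp at this
  | seq_fail e₁ e₂ w h₁ ih₁ =>
    cases h' with
    | seq_ok _ _ _ s' _ h₁' h₂' =>
      have := ih₁ h₁'
      simp at this
    | seq_fail _ _ _ h₁' => rfl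
  | nt A w r h ih =>
    cases h' with
    | nt _ _ _ h' => exact ih h'
  | alt_left e₁ e₂ w s h₁ ih₁ =>
    cases h' with
    | alt_left _ _ _ s' h₁' => exact ih₁ h₁'
    | alt_right _ _ _ _ h₁' h₂' =>
      have := ih₁ h₁'
      simp at this
  | alt_right e₁ e₂ w r h₁ h₂ ih₁ ih₂ =>
    cases h' with
    | alt_left _ _ _ s' h₁' =>
      have := ih₁ h₁'
      simp at this
    | alt_right _ _ _ _ h₁' h₂' => exact ih₂ h₂'
  | neg_ok e w h ih =>
    cases h' with
    | neg_ok => rfl
    | neg_fail _ _ s h' =>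
      have := ih h'
      simp at this
  | neg_fail e w s h ih =>
    cases h' with
    | neg_ok _ _ h' =>
      have := ih h'
      simp at this
    | neg_fail => rfl

/-- the result is a suffix of the input -/
lemma Run.suffix {e : Exp T N} {w : List T} {r : Option (List T)}
    (h : Run P e w r) : ∀ s, r = some s → s <:+ w := by
  induction h with
  | eps w => intro s hs; simp only [Option.some.injEq] at hs; subst hs; exact List.suffix_refl _
  | term_ok a s =>
    intro s' hs
    simp only [Option.some.injEq] at hs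
    subst hs
    exact List.suffix_cons _ _
  | term_fail a w h => intro s hs; simp at hs
  | seq_ok e₁ e₂ w s r h₁ h₂ ih₁ ih₂ =>
    intro s' hs
    exact (ih₂ s' hs).trans (ih₁ s rfl)
  | seq_fail e₁ e₂ w h₁ ih₁ => intro s hs; simp at hs
  | nt A w r h ih => exact ih
  | alt_left e₁ e₂ w s h₁ ih₁ => exact ih₁
  | alt_right e₁ e₂ w r h₁ h₂ ih₁ ih₂ => exact ih₂
  | neg_ok e w h ih => intro s hs; simp only [Option.some.injEq] at hs; subst hs; exact List.suffix_refl _
  | neg_fail e w s h ih => intro s hs; simp at hs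

/-- numerical code of a result -/
def cr (r : Option (List T)) : ℕ :=
  match r with
  | none => 1
  | some s => s.length + 2

/-- numerical code of the value `R(e, w)`: `0` if undefined -/
noncomputable def code (P : N → Exp T N) (w : List T) (e : Exp T N) : ℕ :=
  if h : ∃ r, Run P e w r then cr h.choose else 0

lemma code_eq {e : Exp T N} {w : List T} {r : Option (List T)} (h : Run P e w r) :
    code P w e = cr r := by
  have h' : ∃ r, Run P e w r := ⟨r, h⟩
  unfold code
  rw [dif_pos h', Run.det h'.choose_spec h]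

lemma exists_run_of_code {e : Exp T N} {w : List T} (h : code P w e ≠ 0) :
    ∃ r, Run P e w r ∧ cr r = code P w e := by
  unfold code at h
  by_cases h' : ∃ r, Run P e w r
  · exact ⟨h'.choose, h'.choose_spec, (code_eq h'.choose_spec).symm⟩
  · rw [dif_neg h'] at h; exact absurd rfl h

lemma cr_pos (r : Option (List T)) : cr r ≠ 0 := by
  cases r <;> simp [cr]

lemma code_le (e : Exp T N) (w : List T) : code P w e ≤ w.length + 2 := by
  by_cases h : code P w e = 0
  · omega
  · obtain ⟨r, hr, hc⟩ := exists_run_of_code h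
    rw [← hc]
    cases r with
    | none => simp [cr]
    | some s =>
      have := (hr.suffix s rfl).length_le
      simp only [cr]
      omega

lemma run_none_of_code {e : Exp T N} {w : List T} (h : code P w e = 1) : Run P e w none := by
  obtain ⟨r, hr, hc⟩ := exists_run_of_code (P := P) (e := e) (w := w) (by omega)
  cases r with
  | none => exact hr
  | some s => simp only [cr] at hc; omega

lemma run_some_of_code {e : Exp T N} {w : List T} {l : ℕ} (h : code P w e = l + 2) :
    ∃ s, s.length = l ∧ Run P e w (some s) := by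
  obtain ⟨r, hr, hc⟩ := exists_run_of_code (P := P) (e := e) (w := w) (by omega)
  cases r with
  | none => simp only [cr] at hc; omega
  | some s => exact ⟨s, by simp only [cr] at hc; omega, hr⟩

/-- suffix of given length -/
def suf (w : List T) (l : ℕ) : List T := w.drop (w.length - l)

lemma suf_length {w : List T} {l : ℕ} (h : l ≤ w.length) : (suf w l).length = l := by
  unfold suf
  rw [List.length_drop]
  omega

lemma suf_append {x v : List T} {l : ℕ} (h : l ≤ v.length) : suf (x ++ v) l = suf v l := by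
  unfold suf
  rw [List.drop_append]
  have h1 : (x ++ v).length - l = x.length + (v.length - l) := by
    rw [List.length_append]; omega
  rw [h1]
  have h2 : x.drop (x.length + (v.length - l)) = [] := by
    apply List.drop_of_length_le; omega
  rw [h2]
  simp

lemma suf_cons {a : T} {v : List T} {l : ℕ} (h : l ≤ v.length) : suf (a :: v) l = suf v l :=
  suf_append (x := [a]) h

lemma suf_self (w : List T) : suf w w.length = w := by
  unfold suf; simp

lemma eq_suf_of_suffix {s w : List T} (h : s <:+ w) : s = suf w s.length := by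
  obtain ⟨t, rfl⟩ := h
  rw [suf_append le_rfl, suf_self]

/-- sets of expressions closed under everything the evaluation can reach -/
structure Closed (P : N → Exp T N) (E : Set (Exp T N)) : Prop where
  seq : ∀ e₁ e₂, Exp.seq e₁ e₂ ∈ E → e₁ ∈ E ∧ e₂ ∈ E
  alt : ∀ e₁ e₂, Exp.alt e₁ e₂ ∈ E → e₁ ∈ E ∧ e₂ ∈ E
  neg : ∀ e, Exp.neg e ∈ E → e ∈ E
  nt : ∀ A, Exp.nt A ∈ E → P A ∈ E

/-- all subexpressions -/
noncomputable def subs : Exp T N → Finset (Exp T N)
  | Exp.eps => {Exp.eps}
  | Exp.term a => {Exp.term a}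
  | Exp.nt A => {Exp.nt A}
  | Exp.seq e₁ e₂ => insert (Exp.seq e₁ e₂) (subs e₁ ∪ subs e₂)
  | Exp.alt e₁ e₂ => insert (Exp.alt e₁ e₂) (subs e₁ ∪ subs e₂)
  | Exp.neg e => insert (Exp.neg e) (subs e)

lemma self_mem_subs (e : Exp T N) : e ∈ subs e := by
  cases e <;> simp [subs]

lemma subs_closed (e : Exp T N) :
    (∀ e₁ e₂, Exp.seq e₁ e₂ ∈ subs e → e₁ ∈ subs e ∧ e₂ ∈ subs e) ∧
    (∀ e₁ e₂, Exp.alt e₁ e₂ ∈ subs e → e₁ ∈ subs e ∧ e₂ ∈ subs e) ∧
    (∀ e₁, Exp.neg e₁ ∈ subs e → e₁ ∈ subs e) := by
  induction e with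
  | eps => simp [subs]
  | term a => simp [subs]
  | nt A => simp [subs]
  | seq f₁ f₂ ih₁ ih₂ =>
    refine ⟨?_, ?_, ?_⟩
    · intro e₁ e₂ h
      simp only [subs, Finset.mem_insert, Finset.mem_union, Exp.seq.injEq] at h ⊢
      rcases h with ⟨rfl, rfl⟩ | h | h
      · exact ⟨Or.inr (Or.inl (self_mem_subs _)), Or.inr (Or.inr (self_mem_subs _))⟩
      · have := ih₁.1 e₁ e₂ h; tauto
      · have := ih₂.1 e₁ e₂ h; tauto
    · intro e₁ e₂ h
      simp only [subs, Finset.mem_insert, Finset.mem_union, reduceCtorEq, false_or] at h ⊢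
      rcases h with h | h
      · have := ih₁.2.1 e₁ e₂ h; tauto
      · have := ih₂.2.1 e₁ e₂ h; tauto
    · intro e₁ h
      simp only [subs, Finset.mem_insert, Finset.mem_union, reduceCtorEq, false_or] at h ⊢
      rcases h with h | h
      · have := ih₁.2.2 e₁ h; tauto
      · have := ih₂.2.2 e₁ h; tauto
  | alt f₁ f₂ ih₁ ih₂ =>
    refine ⟨?_, ?_, ?_⟩
    · intro e₁ e₂ h
      simp only [subs, Finset.mem_insert, Finset.mem_union, reduceCtorEq, false_or] at h ⊢
      rcases h with h | h
      · have := ih₁.1 e₁ e₂ h; tauto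
      · have := ih₂.1 e₁ e₂ h; tauto
    · intro e₁ e₂ h
      simp only [subs, Finset.mem_insert, Finset.mem_union, Exp.alt.injEq] at h ⊢
      rcases h with ⟨rfl, rfl⟩ | h | h
      · exact ⟨Or.inr (Or.inl (self_mem_subs _)), Or.inr (Or.inr (self_mem_subs _))⟩
      · have := ih₁.2.1 e₁ e₂ h; tauto
      · have := ih₂.2.1 e₁ e₂ h; tauto
    · intro e₁ h
      simp only [subs, Finset.mem_insert, Finset.mem_union, reduceCtorEq, false_or] at h ⊢
      rcases h with h | h
      · have := ih₁.2.2 e₁ h; tauto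
      · have := ih₂.2.2 e₁ h; tauto
  | neg f ih =>
    refine ⟨?_, ?_, ?_⟩
    · intro e₁ e₂ h
      simp only [subs, Finset.mem_insert, reduceCtorEq, false_or] at h ⊢
      have := ih.1 e₁ e₂ h; tauto
    · intro e₁ e₂ h
      simp only [subs, Finset.mem_insert, reduceCtorEq, false_or] at h ⊢
      have := ih.2.1 e₁ e₂ h; tauto
    · intro e₁ h
      simp only [subs, Finset.mem_insert, Exp.neg.injEq] at h ⊢
      rcases h with rfl | h
      · exact Or.inr (self_mem_subs _)
      · have := ih.2.2 e₁ h; tauto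

/-- a finite closed set containing the start symbol -/
lemma exists_closed [Finite N] (P : N → Exp T N) (S : N) :
    ∃ E : Finset (Exp T N), Closed P (E : Set (Exp T N)) ∧ Exp.nt S ∈ E := by
  cases nonempty_fintype N
  let E : Finset (Exp T N) := (Finset.univ.biUnion (fun A : N => subs (P A))) ∪
    Finset.univ.image (fun A : N => Exp.nt A)
  have hmem : ∀ e, e ∈ E ↔ (∃ A, e ∈ subs (P A)) ∨ ∃ A, Exp.nt A = e := by
    intro e
    simp [E]
  refine ⟨E, ⟨?_, ?_, ?_, ?_⟩, ?_⟩
  · intro e₁ e₂ h
    simp only [Finset.mem_coe, hmem] at h ⊢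
    rcases h with ⟨A, h⟩ | ⟨A, h⟩
    · have := (subs_closed (P A)).1 e₁ e₂ h
      exact ⟨Or.inl ⟨A, this.1⟩, Or.inl ⟨A, this.2⟩⟩
    · simp at h
  · intro e₁ e₂ h
    simp only [Finset.mem_coe, hmem] at h ⊢
    rcases h with ⟨A, h⟩ | ⟨A, h⟩
    · have := (subs_closed (P A)).2.1 e₁ e₂ h
      exact ⟨Or.inl ⟨A, this.1⟩, Or.inl ⟨A, this.2⟩⟩
    · simp at h
  · intro e₁ h
    simp only [Finset.mem_coe, hmem] at h ⊢
    rcases h with ⟨A, h⟩ | ⟨A, h⟩
    · have := (subs_closed (P A)).2.2 e₁ h
      exact Or.inl ⟨A, this⟩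
    · simp at h
  · intro A _
    simp only [Finset.mem_coe, hmem]
    exact Or.inl ⟨A, self_mem_subs _⟩
  · rw [hmem]
    exact Or.inr ⟨S, rfl⟩

end Pool.Agent.Helper82.PEG
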