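import Mathlib

set_option autoImplicit false
open Classical

namespace Pool.Agent.Helper82.PEG

/-- symmetrisation of sums -/
lemma sym_sum {P A : Type*} [Fintype P] [Fintype A] (ov : P → A → P) (pr : P → A)
    (h1 : ∀ p a, pr (ov p a) = a) (h2 : ∀ p a, ov (ov p a) (pr p) = p) (F : P → ℝ) :
    (Fintype.card A : ℝ) * ∑ p, F p = ∑ p, ∑ a, F (ov p a) := by
  have e1 : ∑ p, ∑ a, F (ov p a) = ∑ x : P × A, F (ov x.1 x.2) := by
    rw [Fintype.sum_prod_type]
  have e2 : ∑ x : P × A, F (ov x.1 x.2) = ∑ x : P × A, F x.1 := by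
    refine Finset.sum_bij' (fun x _ => (ov x.1 x.2, pr x.1)) (fun x _ => (ov x.1 x.2, pr x.1))
      ?_ ?_ ?_ ?_ ?_
    · intro x _; simp
    · intro x _; simp
    · intro x _; simp [h1, h2]
    · intro x _; simp [h1, h2]
    · intro x _; rfl
  rw [e1, e2, Fintype.sum_prod_type]
  simp only [Finset.sum_const, nsmul_eq_mul, Finset.card_univ]
  rw [Finset.mul_sum]

section Counting

variable {A C T : Type*} [Fintype A] [DecidableEq A] [Fintype C] [Fintype T]

/-- a fibre lies in a small box -/
lemma card_fibre (c0 : C) (hC : 2 ≤ Fintype.card C) (D0 : A → C) (S : Finset A)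
    (X : Finset (A → C)) (hX : ∀ D ∈ X, ∀ a ∈ S, (D a = c0 ↔ D0 a = c0)) :
    X.card ≤ (Fintype.card C - 1) ^ S.card * Fintype.card C ^ (Fintype.card A - S.card) := by
  let box : A → Finset C := fun a =>
    if a ∈ S then (if D0 a = c0 then {c0} else Finset.univ.erase c0) else Finset.univ
  have hsub : X ⊆ Fintype.piFinset box := by
    intro D hD
    rw [Fintype.mem_piFinset]
    intro a
    simp only [box]
    split_ifs with h1 h2
    · simpa using (hX D hD a h1).2 h2
    · simp only [Finset.mem_erase, Finset.mem_univ, and_true]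
      exact fun h => h2 ((hX D hD a h1).1 h)
    · simp
  refine le_trans (Finset.card_le_card hsub) ?_
  rw [Fintype.card_piFinset]
  calc ∏ a, (box a).card ≤ ∏ a, (if a ∈ S then (Fintype.card C - 1) else Fintype.card C) := by
        apply Finset.prod_le_prod'
        intro a _
        simp only [box]
        split_ifs with h1 h2
        · simp; omega
        · rw [Finset.card_erase_of_mem (Finset.mem_univ _), Finset.card_univ]
        · rw [Finset.card_univ]
    _ = (Fintype.card C - 1) ^ S.card * Fintype.card C ^ (Fintype.card A - S.card) := by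
        rw [Finset.prod_ite, Finset.prod_const, Finset.prod_const]
        congr 2
        · congr 1; ext; simp
        · have : Finset.univ.filter (fun a => a ∉ S) = Sᶜ := by ext; simp
          rw [this, Finset.card_compl]

/-- number of configurations with many determined entries -/
lemma card_many (c0 : C) (hC : 2 ≤ Fintype.card C) (τ : (A → C) → T) (NP : (A → C) → Finset A)
    (hτ : ∀ D D', τ D = τ D' → NP D = NP D' ∧ ∀ a ∈ NP D, (D a = c0 ↔ D' a = c0))
    (x : ℕ) :
    (Finset.univ.filter (fun D : A → C => x ≤ (NP D).card)).card ≤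
      Fintype.card T * ((Fintype.card C - 1) ^ x * Fintype.card C ^ (Fintype.card A - x)) := by
  have h1 : (Finset.univ.filter (fun D : A → C => x ≤ (NP D).card)).card =
      ∑ t : T, ((Finset.univ.filter (fun D : A → C => x ≤ (NP D).card)).filter
        (fun D => τ D = t)).card :=
    Finset.card_eq_sum_card_fiberwise (fun D _ => by simp)
  rw [h1]
  have h2 : ∀ t : T, ((Finset.univ.filter (fun D : A → C => x ≤ (NP D).card)).filter
        (fun D => τ D = t)).card ≤
      (Fintype.card C - 1) ^ x * Fintype.card C ^ (Fintype.card A - x) := by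
    intro t
    rcases Finset.eq_empty_or_nonempty ((Finset.univ.filter (fun D : A → C => x ≤ (NP D).card)).filter
        (fun D => τ D = t)) with h | ⟨D0, hD0⟩
    · rw [h]; simp
    · simp only [Finset.mem_filter, Finset.mem_univ, true_and] at hD0
      obtain ⟨S, hS, hScard⟩ := Finset.exists_subset_card_eq hD0.1
      have := card_fibre c0 hC D0 S ((Finset.univ.filter (fun D : A → C => x ≤ (NP D).card)).filter
        (fun D => τ D = t)) (by
          intro D hD a ha
          simp only [Finset.mem_filter, Finset.mem_univ, true_and] at hD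
          have h3 := hτ D0 D (by rw [hD0.2, hD.2])
          exact (h3.2 a (hS ha)).symm)
      rw [hScard] at this
      exact this
  calc _ ≤ ∑ t : T, (Fintype.card C - 1) ^ x * Fintype.card C ^ (Fintype.card A - x) :=
        Finset.sum_le_sum (fun t _ => h2 t)
    _ = _ := by rw [Finset.sum_const, smul_eq_mul, Finset.card_univ]

lemma pow_half (K : ℕ) (hK : 1 ≤ K) (y : ℕ) : ((K : ℝ) - 1) ^ (K * y) ≤ (1 / 2) ^ y * (K : ℝ) ^ (K * y) := by
  have hK' : (1:ℝ) ≤ K := by exact_mod_cast hK
  have hpos : (0:ℝ) < K := by linarith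
  have h1 : ((K : ℝ) - 1) ^ K ≤ (1 / 2) * (K : ℝ) ^ K := by
    have h2 : (1 - 1 / (K:ℝ)) ≤ Real.exp (-(1 / (K:ℝ))) := by
      have := Real.add_one_le_exp (-(1 / (K:ℝ)))
      linarith
    have h0 : 0 ≤ 1 - 1 / (K:ℝ) := by
      rw [sub_nonneg, div_le_one hpos]; exact hK'
    have h3 : (1 - 1 / (K:ℝ)) ^ K ≤ 1 / 2 := by
      calc (1 - 1 / (K:ℝ)) ^ K ≤ (Real.exp (-(1 / (K:ℝ)))) ^ K :=
            pow_le_pow_left₀ h0 h2 K
        _ = Real.exp (-1) := by
            rw [← Real.exp_nat_mul]
            congr 1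
            field_simp
        _ ≤ 1 / 2 := by
            rw [Real.exp_neg]
            rw [one_div]
            apply inv_anti₀ (by norm_num)
            have := Real.add_one_le_exp (1:ℝ)
            linarith
    have h4 : ((K : ℝ) - 1) = (1 - 1 / (K:ℝ)) * K := by
      field_simp
    rw [h4, mul_pow]
    exact mul_le_mul_of_nonneg_right h3 (by positivity)
  rw [pow_mul, pow_mul, ← mul_pow]
  apply pow_le_pow_left₀ _ h1
  have : 0 ≤ (K:ℝ) - 1 := by linarith
  positivity

/-- average number of determined entries -/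
lemma sum_NP_le (c0 : C) (hC : 2 ≤ Fintype.card C) (τ : (A → C) → T) (NP : (A → C) → Finset A)
    (hτ : ∀ D D', τ D = τ D' → NP D = NP D' ∧ ∀ a ∈ NP D, (D a = c0 ↔ D' a = c0))
    (y : ℕ) (hy : 8 * (Fintype.card C * y) ≤ Fintype.card A)
    (hT : (Fintype.card T : ℝ) * 8 ≤ 2 ^ y) :
    ∑ D : A → C, ((NP D).card : ℝ) ≤
      (Fintype.card C : ℝ) ^ Fintype.card A * Fintype.card A * (1 / 4) := by
  set K := Fintype.card C with hKdef
  set n := Fintype.card A with hn
  have hK1 : 1 ≤ K := by omega
  have hmany := card_many c0 hC τ NP hτ (K * y)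
  have hKx : K * y ≤ n := by omega
  have hmany' : ((Finset.univ.filter (fun D : A → C => K * y ≤ (NP D).card)).card : ℝ) ≤
      (K : ℝ) ^ n * (1 / 8) := by
    have h1 : ((Finset.univ.filter (fun D : A → C => K * y ≤ (NP D).card)).card : ℝ) ≤
        (Fintype.card T : ℝ) * (((K:ℝ) - 1) ^ (K * y) * (K:ℝ) ^ (n - K * y)) := by
      have h2 : ((Finset.univ.filter (fun D : A → C => K * y ≤ (NP D).card)).card : ℝ) ≤
        ((Fintype.card T * ((K - 1) ^ (K * y) * K ^ (n - K * y)) : ℕ) : ℝ) := by
        exact_mod_cast hmany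
      rw [Nat.cast_mul, Nat.cast_mul, Nat.cast_pow, Nat.cast_pow, Nat.cast_sub hK1, Nat.cast_one] at h2
      exact h2
    have h3 := pow_half K hK1 y
    have hKpos : (0:ℝ) < K := by exact_mod_cast hK1
    calc ((Finset.univ.filter (fun D : A → C => K * y ≤ (NP D).card)).card : ℝ) ≤
        (Fintype.card T : ℝ) * (((K:ℝ) - 1) ^ (K * y) * (K:ℝ) ^ (n - K * y)) := h1
      _ ≤ (Fintype.card T : ℝ) * (((1 / 2) ^ y * (K : ℝ) ^ (K * y)) * (K:ℝ) ^ (n - K * y)) := by
          apply mul_le_mul_of_nonneg_left _ (by positivity)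
          exact mul_le_mul_of_nonneg_right h3 (by positivity)
      _ = ((Fintype.card T : ℝ) * (1 / 2) ^ y) * ((K : ℝ) ^ (K * y) * (K:ℝ) ^ (n - K * y)) := by ring
      _ = ((Fintype.card T : ℝ) * (1 / 2) ^ y) * (K : ℝ) ^ n := by
          rw [← pow_add]; congr 2; omega
      _ ≤ (1 / 8) * (K : ℝ) ^ n := by
          apply mul_le_mul_of_nonneg_right _ (by positivity)
          rw [one_div, inv_pow, ← div_eq_mul_inv, div_le_div_iff₀ (by positivity) (by norm_num)]
          linarith
      _ = (K : ℝ) ^ n * (1 / 8) := by ring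
  have hpt : ∀ D : A → C, ((NP D).card : ℝ) ≤
      (K * y : ℕ) + (if K * y ≤ (NP D).card then (n:ℝ) else 0) := by
    intro D
    split_ifs with h
    · have h1 : ((NP D).card : ℝ) ≤ n := by exact_mod_cast (Finset.card_le_univ (NP D))
      have h2 : (0:ℝ) ≤ (K * y : ℕ) := by positivity
      linarith
    · push Not at h
      have : ((NP D).card : ℝ) ≤ (K * y : ℕ) := by exact_mod_cast h.le
      linarith
  have hcardX : (Fintype.card (A → C) : ℝ) = (K:ℝ) ^ n := by
    rw [Fintype.card_fun]; push_cast; rfl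
  calc ∑ D : A → C, ((NP D).card : ℝ)
      ≤ ∑ D : A → C, (((K * y : ℕ) : ℝ) + (if K * y ≤ (NP D).card then (n:ℝ) else 0)) :=
        Finset.sum_le_sum (fun D _ => hpt D)
    _ = (K:ℝ) ^ n * ((K * y : ℕ) : ℝ) +
        ((Finset.univ.filter (fun D : A → C => K * y ≤ (NP D).card)).card : ℝ) * n := by
        rw [Finset.sum_add_distrib, Finset.sum_const, nsmul_eq_mul, Finset.card_univ, hcardX,
          ← Finset.sum_filter, Finset.sum_const, nsmul_eq_mul]
    _ ≤ (K:ℝ) ^ n * ((n:ℝ) / 8) + ((K : ℝ) ^ n * (1 / 8)) * n := by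
        apply add_le_add
        · apply mul_le_mul_of_nonneg_left _ (by positivity)
          rw [le_div_iff₀ (by norm_num)]
          have : 8 * (K * y) ≤ n := hy
          have h2 : ((8 * (K * y) : ℕ) : ℝ) ≤ n := by exact_mod_cast this
          push_cast at h2 ⊢
          linarith
        · exact mul_le_mul_of_nonneg_right hmany' (by positivity)
    _ = (K : ℝ) ^ n * n * (1 / 4) := by ring

end Counting

end Pool.Agent.Helper82.PEG
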