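import Mathlib

set_option autoImplicit false

/-!
Parsing expression grammars, with the semantics of the problem file: `Run P e w r` says that the
(partial) function `R(e, w)` is defined and equal to `r`, where `none` stands for the failure
symbol and `some s` for the unconsumed suffix `s`.
-/

namespace Pool.Agent.Helper82.PEG

/-- Parsing expressions over the terminals `T` and the nonterminals `N`. -/
inductive Exp (T N : Type) : Type
  | eps : Exp T N
  | term (a : T) : Exp T N
  | nt (A : N) : Exp T N
  | seq (e₁ e₂ : Exp T N) : Exp T N
  | alt (e₁ e₂ : Exp T N) : Exp T N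
  | neg (e : Exp T N) : Exp T N

/-- `Run P e w r`: with the rules `A ← P A`, the value `R(e, w)` is defined and equals `r`
(`none` is failure, `some s` is success with unconsumed suffix `s`). -/
inductive Run {T N : Type} (P : N → Exp T N) : Exp T N → List T → Option (List T) → Prop
  | eps (w : List T) : Run P Exp.eps w (some w)
  | term_ok (a : T) (s : List T) : Run P (Exp.term a) (a :: s) (some s)
  | term_fail (a : T) (w : List T) (h : ∀ s, w ≠ a :: s) : Run P (Exp.term a) w none
  | seq_ok (e₁ e₂ : Exp T N) (w s : List T) (r : Option (List T))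
      (h₁ : Run P e₁ w (some s)) (h₂ : Run P e₂ s r) : Run P (Exp.seq e₁ e₂) w r
  | seq_fail (e₁ e₂ : Exp T N) (w : List T)
      (h₁ : Run P e₁ w none) : Run P (Exp.seq e₁ e₂) w none
  | nt (A : N) (w : List T) (r : Option (List T)) (h : Run P (P A) w r) : Run P (Exp.nt A) w r
  | alt_left (e₁ e₂ : Exp T N) (w s : List T)
      (h₁ : Run P e₁ w (some s)) : Run P (Exp.alt e₁ e₂) w (some s)
  | alt_right (e₁ e₂ : Exp T N) (w : List T) (r : Option (List T))
      (h₁ : Run P e₁ w none) (h₂ : Run P e₂ w r) : Run P (Exp.alt e₁ e₂) w r
  | neg_ok (e : Exp T N) (w : List T) (h : Run P e w none) : Run P (Exp.neg e) w (some w)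
  | neg_fail (e : Exp T N) (w s : List T) (h : Run P e w (some s)) : Run P (Exp.neg e) w none

/-- A language is a parsing expression language if for some finite set `N` of nonterminals, rules
`P` and start symbol `S` it consists of the words `w` with `R(S, w) = ε`. -/
def IsPEL {T : Type} (L : Language T) : Prop :=
  ∃ (N : Type) (_ : Finite N) (P : N → Exp T N) (S : N),
    ∀ w : List T, w ∈ L ↔ Run P (Exp.nt S) w (some [])

end Pool.Agent.Helper82.PEG
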