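import Pool.Agent.Helper82.PEGMain

set_option autoImplicit false

namespace Pool.Agent.Helper82.PEG

theorem isPEL_L₁ : IsPEL L₁ := ⟨NT, inferInstance, rules, NT.S, fun _ => Iff.rfl⟩

/-- the rule of the grammar for all words -/
def allRule : Unit → Exp Sym Unit := fun _ =>
  Exp.alt (Exp.seq (Exp.term Sym.z) (Exp.nt ()))
    (Exp.alt (Exp.seq (Exp.term Sym.o) (Exp.nt ()))
      (Exp.alt (Exp.seq (Exp.term Sym.b) (Exp.nt ()))
        (Exp.alt (Exp.seq (Exp.term Sym.w) (Exp.nt ()))
          (Exp.alt (Exp.seq (Exp.term Sym.h) (Exp.nt ())) Exp.eps))))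

lemma run_all (w : List Sym) : Run allRule (Exp.nt ()) w (some []) := by
  induction w with
  | nil =>
    have hf : ∀ a : Sym, Run allRule (Exp.seq (Exp.term a) (Exp.nt ())) [] none :=
      fun a => Run.seq_fail _ _ _ (Run.term_fail _ _ (by intro s hs; cases hs))
    exact Run.nt _ _ _ (Run.alt_right _ _ _ _ (hf _) (Run.alt_right _ _ _ _ (hf _)
      (Run.alt_right _ _ _ _ (hf _) (Run.alt_right _ _ _ _ (hf _)
        (Run.alt_right _ _ _ _ (hf _) (Run.eps _))))))
  | cons c w ih =>
    have hf : ∀ a : Sym, a ≠ c → Run allRule (Exp.seq (Exp.term a) (Exp.nt ())) (c :: w) none :=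
      fun a ha => Run.seq_fail _ _ _ (Run.term_fail _ _ (by
        intro s hs
        rw [List.cons.injEq] at hs
        exact ha hs.1.symm))
    have hs : Run allRule (Exp.seq (Exp.term c) (Exp.nt ())) (c :: w) (some []) :=
      Run.seq_ok _ _ _ _ _ (Run.term_ok _ _) ih
    refine Run.nt _ _ _ ?_
    cases c with
    | z => exact Run.alt_left _ _ _ _ hs
    | o => exact Run.alt_right _ _ _ _ (hf _ (by decide)) (Run.alt_left _ _ _ _ hs)
    | b => exact Run.alt_right _ _ _ _ (hf _ (by decide)) (Run.alt_right _ _ _ _ (hf _ (by decide))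
        (Run.alt_left _ _ _ _ hs))
    | w => exact Run.alt_right _ _ _ _ (hf _ (by decide)) (Run.alt_right _ _ _ _ (hf _ (by decide))
        (Run.alt_right _ _ _ _ (hf _ (by decide)) (Run.alt_left _ _ _ _ hs)))
    | h => exact Run.alt_right _ _ _ _ (hf _ (by decide)) (Run.alt_right _ _ _ _ (hf _ (by decide))
        (Run.alt_right _ _ _ _ (hf _ (by decide)) (Run.alt_right _ _ _ _ (hf _ (by decide))
          (Run.alt_left _ _ _ _ hs))))

theorem isPEL_top : IsPEL (⊤ : Language Sym) :=
  ⟨Unit, inferInstance, allRule, (), fun w => ⟨fun _ => run_all w, fun _ => trivial⟩⟩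

end Pool.Agent.Helper82.PEG
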