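import Pool.Agent.Helper82.PEGBasic

set_option autoImplicit false

namespace Pool.Agent.Helper82.PEG

section Inversion

variable {T N : Type} {P : N → Exp T N}

lemma run_eps {w : List T} {r : Option (List T)} : Run P Exp.eps w r ↔ r = some w := by
  constructor
  · intro h; cases h; rfl
  · rintro rfl; exact Run.eps _

lemma run_term_some {a : T} {w y : List T} : Run P (Exp.term a) w (some y) ↔ w = a :: y := by
  constructor
  · intro h; cases h; rfl
  · rintro rfl; exact Run.term_ok _ _

lemma run_term_none {a : T} {w : List T} : Run P (Exp.term a) w none ↔ ∀ s, w ≠ a :: s := by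
  constructor
  · intro h; cases h; assumption
  · intro h; exact Run.term_fail _ _ h

lemma run_nt {A : N} {w : List T} {r : Option (List T)} :
    Run P (Exp.nt A) w r ↔ Run P (P A) w r := by
  constructor
  · intro h; cases h; assumption
  · intro h; exact Run.nt _ _ _ h

lemma run_seq_some {e₁ e₂ : Exp T N} {w y : List T} :
    Run P (Exp.seq e₁ e₂) w (some y) ↔ ∃ s, Run P e₁ w (some s) ∧ Run P e₂ s (some y) := by
  constructor
  · intro h
    cases h with
    | seq_ok _ _ _ s _ h₁ h₂ => exact ⟨s, h₁, h₂⟩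
  · rintro ⟨s, h₁, h₂⟩; exact Run.seq_ok _ _ _ _ _ h₁ h₂

lemma run_seq_none {e₁ e₂ : Exp T N} {w : List T} :
    Run P (Exp.seq e₁ e₂) w none ↔
      Run P e₁ w none ∨ ∃ s, Run P e₁ w (some s) ∧ Run P e₂ s none := by
  constructor
  · intro h
    cases h with
    | seq_ok _ _ _ s _ h₁ h₂ => exact Or.inr ⟨s, h₁, h₂⟩
    | seq_fail _ _ _ h₁ => exact Or.inl h₁
  · rintro (h | ⟨s, h₁, h₂⟩)
    · exact Run.seq_fail _ _ _ h
    · exact Run.seq_ok _ _ _ _ _ h₁ h₂

lemma run_alt_some {e₁ e₂ : Exp T N} {w y : List T} :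
    Run P (Exp.alt e₁ e₂) w (some y) ↔
      Run P e₁ w (some y) ∨ (Run P e₁ w none ∧ Run P e₂ w (some y)) := by
  constructor
  · intro h
    cases h with
    | alt_left _ _ _ _ h => exact Or.inl h
    | alt_right _ _ _ _ h₁ h₂ => exact Or.inr ⟨h₁, h₂⟩
  · rintro (h | ⟨h₁, h₂⟩)
    · exact Run.alt_left _ _ _ _ h
    · exact Run.alt_right _ _ _ _ h₁ h₂

lemma run_alt_none {e₁ e₂ : Exp T N} {w : List T} :
    Run P (Exp.alt e₁ e₂) w none ↔ (Run P e₁ w none ∧ Run P e₂ w none) := by
  constructor
  · intro h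
    cases h with
    | alt_right _ _ _ _ h₁ h₂ => exact ⟨h₁, h₂⟩
  · rintro ⟨h₁, h₂⟩
    exact Run.alt_right _ _ _ _ h₁ h₂

lemma run_neg_some {e : Exp T N} {w y : List T} :
    Run P (Exp.neg e) w (some y) ↔ y = w ∧ Run P e w none := by
  constructor
  · intro h
    cases h with
    | neg_ok _ _ h => exact ⟨rfl, h⟩
  · rintro ⟨rfl, h⟩; exact Run.neg_ok _ _ h

lemma run_neg_none {e : Exp T N} {w : List T} :
    Run P (Exp.neg e) w none ↔ ∃ s, Run P e w (some s) := by
  constructor
  · intro h
    cases h with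
    | neg_fail _ _ s h => exact ⟨s, h⟩
  · rintro ⟨s, h⟩; exact Run.neg_fail _ _ _ h

/-- and-predicate on a terminal -/
lemma run_and_some {a : T} {w y : List T} :
    Run P (Exp.neg (Exp.neg (Exp.term a))) w (some y) ↔ y = w ∧ ∃ s, w = a :: s := by
  rw [run_neg_some]
  constructor
  · rintro ⟨rfl, h⟩
    rw [run_neg_none] at h
    obtain ⟨s, hs⟩ := h
    exact ⟨rfl, s, run_term_some.1 hs⟩
  · rintro ⟨rfl, s, hs⟩
    exact ⟨rfl, run_neg_none.2 ⟨s, run_term_some.2 hs⟩⟩

end Inversion

/-- the alphabet: two bits, branch, wait and hash -/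
inductive Sym : Type
  | z | o | b | w | h
  deriving DecidableEq

instance : Fintype Sym :=
  Fintype.ofList [Sym.z, Sym.o, Sym.b, Sym.w, Sym.h] (by intro x; cases x <;> simp)

/-- the nonterminals of the grammar -/
inductive NT : Type
  | S | W | Q | M | X | Tr
  deriving DecidableEq

instance : Fintype NT :=
  Fintype.ofList [NT.S, NT.W, NT.Q, NT.M, NT.X, NT.Tr] (by intro x; cases x <;> simp)

open Exp

/-- the rules of the grammar for `L₁` -/
def rules : NT → Exp Sym NT
  | NT.S => seq (nt NT.W) (term Sym.o)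
  | NT.W => alt (seq (term Sym.z) (seq (nt NT.W) (term Sym.b)))
      (alt (seq (term Sym.o) (seq (nt NT.W) (seq (term Sym.b) (nt NT.Tr))))
        (seq (term Sym.h) (seq (nt NT.Q) (term Sym.w))))
  | NT.Q => alt (seq (term Sym.z) (seq (nt NT.Q) (alt (term Sym.b) (neg (neg (term Sym.w))))))
      (alt (seq (term Sym.o) (seq (nt NT.Q)
          (alt (seq (term Sym.b) (nt NT.Tr)) (neg (neg (term Sym.w))))))
        (seq (term Sym.h) (nt NT.M)))
  | NT.M => alt (seq (nt NT.X) (seq (term Sym.h) (nt NT.M))) eps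
  | NT.X => alt (seq (term Sym.z) (nt NT.X)) (alt (seq (term Sym.o) (nt NT.X))
      (alt (seq (term Sym.b) (nt NT.X)) (alt (seq (term Sym.w) (nt NT.X)) eps)))
  | NT.Tr => alt (seq (term Sym.b) (seq (nt NT.Tr) (nt NT.Tr)))
      (alt (seq (term Sym.w) (nt NT.Tr)) (alt (term Sym.z) (term Sym.o)))

/-- the language `L₁` -/
def L₁ : Language Sym := {u | Run rules (nt NT.S) u (some [])}

/-- bits as symbols -/
def bit : Bool → Sym
  | true => Sym.o
  | false => Sym.z

/-- bit strings as words -/
def bits (l : List Bool) : List Sym := l.map bit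

lemma bit_inj {c d : Bool} (h : bit c = bit d) : c = d := by
  cases c <;> cases d <;> simp [bit] at h ⊢

lemma bit_ne_h (c : Bool) : bit c ≠ Sym.h := by cases c <;> simp [bit]

/-- codes of the lower trees -/
def encS : ℕ → (List Bool → Bool) → List Sym
  | 0, f => [bit (f [])]
  | k + 1, f => Sym.b :: (encS k (fun l => f (false :: l)) ++ encS k (fun l => f (true :: l)))

/-- codes of the records -/
def encT (k : ℕ) : ℕ → (List Bool → List Bool → Bool) → List Sym
  | 0, F => Sym.w :: encS k (F [])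
  | d + 1, F => Sym.b :: (encT k d (fun l => F (false :: l)) ++ encT k d (fun l => F (true :: l)))

lemma encS_succ (k : ℕ) (f : List Bool → Bool) : encS (k + 1) f =
    Sym.b :: (encS k (fun l => f (false :: l)) ++ encS k (fun l => f (true :: l))) := rfl

lemma encT_succ (k d : ℕ) (F : List Bool → List Bool → Bool) : encT k (d + 1) F =
    Sym.b :: (encT k d (fun l => F (false :: l)) ++ encT k d (fun l => F (true :: l))) := rfl

/-- the data word: records of the epochs `g < G`, the oldest (`0`) rightmost -/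
def Zw (k : ℕ) (dd : ℕ → ℕ) (F : ℕ → List Bool → List Bool → Bool) : ℕ → List Sym
  | 0 => []
  | g + 1 => Sym.h :: (encT k (dd g) (F g) ++ Zw k dd F g)

section Tr

lemma tr_inv {y y' : List Sym} (h : Run rules (nt NT.Tr) y (some y')) :
    (∃ t y₁, y = Sym.b :: t ∧ Run rules (nt NT.Tr) t (some y₁) ∧
      Run rules (nt NT.Tr) y₁ (some y')) ∨
    (∃ t, y = Sym.w :: t ∧ Run rules (nt NT.Tr) t (some y')) ∨
    y = Sym.z :: y' ∨ y = Sym.o :: y' := by
  rw [run_nt] at h
  unfold rules at h
  simp only [run_alt_some, run_seq_some, run_term_some] at h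
  rcases h with ⟨s, hs, s₂, h1, h2⟩ | ⟨_, ⟨s, hs, h1⟩ | ⟨_, h1 | ⟨_, h1⟩⟩⟩
  · exact Or.inl ⟨s, s₂, hs, h1, h2⟩
  · exact Or.inr (Or.inl ⟨s, hs, h1⟩)
  · exact Or.inr (Or.inr (Or.inl h1))
  · exact Or.inr (Or.inr (Or.inr h1))

lemma tr_b {t y₁ y' : List Sym} (h1 : Run rules (nt NT.Tr) t (some y₁))
    (h2 : Run rules (nt NT.Tr) y₁ (some y')) :
    Run rules (nt NT.Tr) (Sym.b :: t) (some y') := by
  rw [run_nt]
  unfold rules
  simp only [run_alt_some, run_seq_some, run_term_some]
  exact Or.inl ⟨t, rfl, y₁, h1, h2⟩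

lemma term_none_of_ne {a c : Sym} (hac : a ≠ c) (t : List Sym) :
    Run rules (term a) (c :: t) none := by
  rw [run_term_none]
  intro s hs
  rw [List.cons.injEq] at hs
  exact hac hs.1.symm

lemma seq_none_of_ne {a c : Sym} (hac : a ≠ c) (t : List Sym) (e : Exp Sym NT) :
    Run rules (seq (term a) e) (c :: t) none :=
  Run.seq_fail _ _ _ (term_none_of_ne hac t)

lemma tr_w {t y' : List Sym} (h1 : Run rules (nt NT.Tr) t (some y')) :
    Run rules (nt NT.Tr) (Sym.w :: t) (some y') := by
  rw [run_nt]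
  refine Run.alt_right _ _ _ _ (seq_none_of_ne (by decide) _ _) ?_
  exact Run.alt_left _ _ _ _ (Run.seq_ok _ _ _ _ _ (Run.term_ok _ _) h1)

lemma tr_bit (c : Bool) (t : List Sym) : Run rules (nt NT.Tr) (bit c :: t) (some t) := by
  rw [run_nt]
  cases c with
  | false =>
    refine Run.alt_right _ _ _ _ (seq_none_of_ne (by decide) _ _) ?_
    refine Run.alt_right _ _ _ _ (seq_none_of_ne (by decide) _ _) ?_
    exact Run.alt_left _ _ _ _ (Run.term_ok _ _)
  | true =>
    refine Run.alt_right _ _ _ _ (seq_none_of_ne (by decide) _ _) ?_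
    refine Run.alt_right _ _ _ _ (seq_none_of_ne (by decide) _ _) ?_
    exact Run.alt_right _ _ _ _ (term_none_of_ne (by decide) _) (Run.term_ok _ _)

lemma tr_encS (k : ℕ) : ∀ (f : List Bool → Bool) (v : List Sym),
    Run rules (nt NT.Tr) (encS k f ++ v) (some v) := by
  induction k with
  | zero => intro f v; exact tr_bit _ _
  | succ k ih =>
    intro f v
    unfold encS
    rw [List.cons_append, List.append_assoc]
    exact tr_b (ih _ _) (ih _ _)

lemma tr_encT (k d : ℕ) : ∀ (F : List Bool → List Bool → Bool) (v : List Sym),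
    Run rules (nt NT.Tr) (encT k d F ++ v) (some v) := by
  induction d with
  | zero => intro F v; exact tr_w (tr_encS _ _ _)
  | succ d ih =>
    intro F v
    unfold encT
    rw [List.cons_append, List.append_assoc]
    exact tr_b (ih _ _) (ih _ _)

/-- consuming a tree does not depend on what follows -/
lemma tr_ext (n : ℕ) : ∀ (y y' v : List Sym), y.length ≤ n →
    Run rules (nt NT.Tr) y (some y') → Run rules (nt NT.Tr) (y ++ v) (some (y' ++ v)) := by
  induction n with
  | zero =>
    intro y y' v hn h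
    have : y = [] := List.length_eq_zero_iff.1 (by omega)
    subst this
    rcases tr_inv h with ⟨t, y₁, h0, _⟩ | ⟨t, h0, _⟩ | h0 | h0 <;> simp at h0
  | succ n ih =>
    intro y y' v hn h
    rcases tr_inv h with ⟨t, y₁, rfl, h1, h2⟩ | ⟨t, rfl, h1⟩ | rfl | rfl
    · have l1 : t.length ≤ n := by simpa using hn
      have l2 : y₁.length ≤ n := le_trans (h1.suffix _ rfl).length_le l1
      rw [List.cons_append]
      exact tr_b (ih _ _ v l1 h1) (ih _ _ v l2 h2)
    · have l1 : t.length ≤ n := by simpa using hn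
      rw [List.cons_append]
      exact tr_w (ih _ _ v l1 h1)
    · exact tr_bit false _
    · exact tr_bit true _

end Tr

section Steps

/-- the two step expressions in the `q`-phase -/
def sS : Bool → Exp Sym NT
  | false => term Sym.b
  | true => seq (term Sym.b) (nt NT.Tr)

/-- the two step expressions in the `p`-phase -/
def sP : Bool → Exp Sym NT
  | false => alt (term Sym.b) (neg (neg (term Sym.w)))
  | true => alt (seq (term Sym.b) (nt NT.Tr)) (neg (neg (term Sym.w)))

/-- apply steps, the last element of the list first -/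
def Steps (s : Bool → Exp Sym NT) : List Bool → List Sym → List Sym → Prop
  | [], y₀, y => y₀ = y
  | c :: l, y₀, y => ∃ y₁, Steps s l y₀ y₁ ∧ Run rules (s c) y₁ (some y)

/-- apply steps, the first element of the list first -/
def StepsR (s : Bool → Exp Sym NT) : List Bool → List Sym → List Sym → Prop
  | [], y₀, y => y₀ = y
  | c :: l, y₀, y => ∃ y₁, Run rules (s c) y₀ (some y₁) ∧ StepsR s l y₁ y

lemma Steps_append (s : Bool → Exp Sym NT) (l l' : List Bool) (y₀ y : List Sym) :
    Steps s (l ++ l') y₀ y ↔ ∃ y₁, Steps s l' y₀ y₁ ∧ Steps s l y₁ y := by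
  induction l generalizing y with
  | nil => simp [Steps]
  | cons c l ih =>
    simp only [List.cons_append, Steps, ih]
    constructor
    · rintro ⟨y₁, ⟨y₂, h1, h2⟩, h3⟩
      exact ⟨y₂, h1, y₁, h2, h3⟩
    · rintro ⟨y₂, h1, y₁, h2, h3⟩
      exact ⟨y₁, ⟨y₂, h1, h2⟩, h3⟩

lemma Steps_reverse (s : Bool → Exp Sym NT) (l : List Bool) (y₀ y : List Sym) :
    Steps s l.reverse y₀ y ↔ StepsR s l y₀ y := by
  induction l generalizing y₀ with
  | nil => simp [Steps, StepsR]
  | cons c l ih =>
    rw [List.reverse_cons, Steps_append]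
    simp only [StepsR, ih]
    constructor
    · rintro ⟨y₁, ⟨y₂, h1, h2⟩, h3⟩
      have h1' : y₀ = y₂ := h1
      subst h1'
      exact ⟨y₁, h2, h3⟩
    · rintro ⟨y₁, h1, h2⟩
      exact ⟨y₁, ⟨y₀, rfl, h1⟩, h2⟩

lemma StepsR_det (s : Bool → Exp Sym NT) (l : List Bool) {y₀ y y' : List Sym}
    (h : StepsR s l y₀ y) (h' : StepsR s l y₀ y') : y = y' := by
  induction l generalizing y₀ with
  | nil => exact h.symm.trans h'
  | cons c l ih =>
    obtain ⟨y₁, h1, h2⟩ := h
    obtain ⟨y₁', h1', h2'⟩ := h'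
    have := Run.det h1 h1'
    simp only [Option.some.injEq] at this
    subst this
    exact ih h2 h2'

lemma sS_ext (c : Bool) (y y' v : List Sym) (h : Run rules (sS c) y (some y')) :
    Run rules (sS c) (y ++ v) (some (y' ++ v)) := by
  cases c with
  | false =>
    rw [sS, run_term_some] at h ⊢
    rw [h]; rfl
  | true =>
    rw [sS, run_seq_some] at h ⊢
    obtain ⟨s, h1, h2⟩ := h
    rw [run_term_some] at h1
    subst h1
    exact ⟨s ++ v, Run.term_ok _ _, tr_ext _ _ _ _ le_rfl h2⟩

lemma sP_ext (c : Bool) (y y' v : List Sym) (h : Run rules (sP c) y (some y')) :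
    Run rules (sP c) (y ++ v) (some (y' ++ v)) := by
  cases c with
  | false =>
    rw [sP, run_alt_some, run_term_some, run_and_some] at h
    rcases h with rfl | ⟨_, rfl, t, rfl⟩
    · exact Run.alt_left _ _ _ _ (Run.term_ok _ _)
    · refine Run.alt_right _ _ _ _ (term_none_of_ne (by decide) _) ?_
      rw [run_and_some]
      exact ⟨rfl, t ++ v, rfl⟩
  | true =>
    rw [sP, run_alt_some, run_seq_some, run_and_some] at h
    rcases h with ⟨s, h1, h2⟩ | ⟨_, rfl, t, rfl⟩
    · rw [run_term_some] at h1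
      subst h1
      exact Run.alt_left _ _ _ _ (Run.seq_ok _ _ _ _ _ (Run.term_ok _ _) (tr_ext _ _ _ _ le_rfl h2))
    · refine Run.alt_right _ _ _ _ (seq_none_of_ne (by decide) _ _) ?_
      rw [run_and_some]
      exact ⟨rfl, t ++ v, rfl⟩

lemma StepsR_ext {s : Bool → Exp Sym NT}
    (hs : ∀ c y y' v, Run rules (s c) y (some y') → Run rules (s c) (y ++ v) (some (y' ++ v)))
    (l : List Bool) (y y' v : List Sym) (h : StepsR s l y y') : StepsR s l (y ++ v) (y' ++ v) := by
  induction l generalizing y with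
  | nil => exact congrArg (· ++ v) h
  | cons c l ih =>
    obtain ⟨y₁, h1, h2⟩ := h
    exact ⟨y₁ ++ v, hs _ _ _ _ h1, ih _ h2⟩

lemma sP_w (c : Bool) (v : List Sym) : Run rules (sP c) (Sym.w :: v) (some (Sym.w :: v)) := by
  cases c with
  | false =>
    refine Run.alt_right _ _ _ _ (term_none_of_ne (by decide) _) ?_
    rw [run_and_some]; exact ⟨rfl, v, rfl⟩
  | true =>
    refine Run.alt_right _ _ _ _ (seq_none_of_ne (by decide) _ _) ?_
    rw [run_and_some]; exact ⟨rfl, v, rfl⟩

lemma StepsR_sP_w (l : List Bool) (v : List Sym) : StepsR sP l (Sym.w :: v) (Sym.w :: v) := by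
  induction l with
  | nil => rfl
  | cons c l ih => exact ⟨_, sP_w c v, ih⟩

lemma pwalk (k d : ℕ) : ∀ (F : List Bool → List Bool → Bool) (l : List Bool), d ≤ l.length →
    ∃ stem post, encT k d F = stem ++ Sym.w :: (encS k (F (l.take d)) ++ post) ∧
      ∀ v, StepsR sP l (stem ++ Sym.w :: v) (Sym.w :: v) := by
  induction d with
  | zero =>
    intro F l _
    exact ⟨[], [], by simp [encT], fun v => StepsR_sP_w l v⟩
  | succ d ih =>
    intro F l hl
    cases l with
    | nil => simp at hl
    | cons c l =>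
      have hl' : d ≤ l.length := by simpa using hl
      obtain ⟨stem, post, h1, h2⟩ := ih (fun x => F (c :: x)) l hl'
      cases c with
      | false =>
        refine ⟨Sym.b :: stem, post ++ encT k d (fun x => F (true :: x)), ?_, ?_⟩
        · rw [encT_succ, h1]
          simp
        · intro v
          refine ⟨stem ++ Sym.w :: v, ?_, h2 v⟩
          exact Run.alt_left _ _ _ _ (Run.term_ok _ _)
      | true =>
        refine ⟨Sym.b :: (encT k d (fun x => F (false :: x)) ++ stem), post, ?_, ?_⟩
        · rw [encT_succ, h1]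
          simp
        · intro v
          refine ⟨stem ++ Sym.w :: v, ?_, h2 v⟩
          rw [List.cons_append, List.append_assoc]
          exact Run.alt_left _ _ _ _ (Run.seq_ok _ _ _ _ _ (Run.term_ok _ _) (tr_encT _ _ _ _))

lemma swalk (k : ℕ) : ∀ (f : List Bool → Bool) (l : List Bool), l.length = k →
    ∃ stem post, encS k f = stem ++ bit (f l) :: post ∧
      ∀ v, StepsR sS l (stem ++ v) v := by
  induction k with
  | zero =>
    intro f l hl
    have : l = [] := List.length_eq_zero_iff.1 hl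
    subst this
    exact ⟨[], [], rfl, fun v => rfl⟩
  | succ k ih =>
    intro f l hl
    cases l with
    | nil => simp at hl
    | cons c l =>
      have hl' : l.length = k := by simpa using hl
      obtain ⟨stem, post, h1, h2⟩ := ih (fun x => f (c :: x)) l hl'
      cases c with
      | false =>
        refine ⟨Sym.b :: stem, post ++ encS k (fun x => f (true :: x)), ?_, ?_⟩
        · rw [encS_succ, h1]
          simp
        · intro v
          exact ⟨stem ++ v, Run.term_ok _ _, h2 v⟩
      | true =>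
        refine ⟨Sym.b :: (encS k (fun x => f (false :: x)) ++ stem), post, ?_, ?_⟩
        · rw [encS_succ, h1]
          simp
        · intro v
          refine ⟨stem ++ v, ?_, h2 v⟩
          rw [List.cons_append, List.append_assoc]
          exact Run.seq_ok _ _ _ _ _ (Run.term_ok _ _) (tr_encS _ _ _)

/-- the whole walk inside a record -/
def Walk (lp lq : List Bool) (y y' : List Sym) : Prop :=
  ∃ y₁, StepsR sP lp y (Sym.w :: y₁) ∧ StepsR sS lq y₁ y'

lemma Walk_det {lp lq : List Bool} {y y' y'' : List Sym} (h : Walk lp lq y y')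
    (h' : Walk lp lq y y'') : y' = y'' := by
  obtain ⟨y₁, h1, h2⟩ := h
  obtain ⟨y₁', h1', h2'⟩ := h'
  have := StepsR_det _ _ h1 h1'
  simp only [List.cons.injEq, true_and] at this
  subst this
  exact StepsR_det _ _ h2 h2'

lemma Walk_ext {lp lq : List Bool} {y y' : List Sym} (v : List Sym) (h : Walk lp lq y y') :
    Walk lp lq (y ++ v) (y' ++ v) := by
  obtain ⟨y₁, h1, h2⟩ := h
  exact ⟨y₁ ++ v, StepsR_ext sP_ext _ _ _ v h1, StepsR_ext sS_ext _ _ _ v h2⟩

lemma walk_enc (k d : ℕ) (F : List Bool → List Bool → Bool) (lp lq : List Bool)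
    (hp : d ≤ lp.length) (hq : lq.length = k) :
    ∃ stem post, encT k d F = stem ++ bit (F (lp.take d) lq) :: post ∧
      ∀ v, Walk lp lq (stem ++ v) v := by
  obtain ⟨s1, p1, h1, h2⟩ := pwalk k d F lp hp
  obtain ⟨s2, p2, h3, h4⟩ := swalk k (F (lp.take d)) lq hq
  refine ⟨s1 ++ Sym.w :: s2, p2 ++ p1, ?_, ?_⟩
  · rw [h1, h3]
    simp
  · intro v
    refine ⟨s2 ++ v, ?_, h4 v⟩
    have := h2 (s2 ++ v)
    simpa using this

end Steps

section Parse

lemma noh_encS (k : ℕ) : ∀ f : List Bool → Bool, Sym.h ∉ encS k f := by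
  induction k with
  | zero =>
    intro f hf
    simp only [encS, List.mem_singleton] at hf
    exact bit_ne_h _ hf.symm
  | succ k ih =>
    intro f hf
    simp only [encS, List.mem_cons, List.mem_append, reduceCtorEq, false_or] at hf
    rcases hf with hf | hf
    · exact ih _ hf
    · exact ih _ hf

lemma noh_encT (k d : ℕ) : ∀ F : List Bool → List Bool → Bool, Sym.h ∉ encT k d F := by
  induction d with
  | zero =>
    intro f hf
    simp only [encT, List.mem_cons, reduceCtorEq, false_or] at hf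
    exact noh_encS _ _ hf
  | succ k ih =>
    intro f hf
    simp only [encT, List.mem_cons, List.mem_append, reduceCtorEq, false_or] at hf
    rcases hf with hf | hf
    · exact ih _ hf
    · exact ih _ hf

/-- `y` is the part of `u` after the last hash (or `u` itself) -/
def Last (u y : List Sym) : Prop :=
  Sym.h ∉ y ∧ (u = y ∨ ∃ pre, u = pre ++ Sym.h :: y)

lemma x_run (x v : List Sym) (hx : Sym.h ∉ x) (hv : v = [] ∨ ∃ t, v = Sym.h :: t) :
    Run rules (nt NT.X) (x ++ v) (some v) := by
  induction x with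
  | nil =>
    rw [run_nt]
    have hne : ∀ a : Sym, a ≠ Sym.h → ∀ e, Run rules (seq (term a) e) v none := by
      intro a ha e
      apply Run.seq_fail
      rw [run_term_none]
      intro s hs
      rcases hv with rfl | ⟨t, rfl⟩
      · simp at hs
      · rw [List.cons.injEq] at hs
        exact ha hs.1.symm
    refine Run.alt_right _ _ _ _ (hne _ (by decide) _) ?_
    refine Run.alt_right _ _ _ _ (hne _ (by decide) _) ?_
    refine Run.alt_right _ _ _ _ (hne _ (by decide) _) ?_
    refine Run.alt_right _ _ _ _ (hne _ (by decide) _) ?_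
    exact Run.eps _
  | cons a x ih =>
    have ha : Sym.h ≠ a := fun h => hx (by simp [h])
    have ih' := ih (fun h => hx (by simp [h]))
    rw [run_nt, List.cons_append]
    cases a with
    | z => exact Run.alt_left _ _ _ _ (Run.seq_ok _ _ _ _ _ (Run.term_ok _ _) ih')
    | o =>
      refine Run.alt_right _ _ _ _ (seq_none_of_ne (by decide) _ _) ?_
      exact Run.alt_left _ _ _ _ (Run.seq_ok _ _ _ _ _ (Run.term_ok _ _) ih')
    | b =>
      refine Run.alt_right _ _ _ _ (seq_none_of_ne (by decide) _ _) ?_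
      refine Run.alt_right _ _ _ _ (seq_none_of_ne (by decide) _ _) ?_
      exact Run.alt_left _ _ _ _ (Run.seq_ok _ _ _ _ _ (Run.term_ok _ _) ih')
    | w =>
      refine Run.alt_right _ _ _ _ (seq_none_of_ne (by decide) _ _) ?_
      refine Run.alt_right _ _ _ _ (seq_none_of_ne (by decide) _ _) ?_
      refine Run.alt_right _ _ _ _ (seq_none_of_ne (by decide) _ _) ?_
      exact Run.alt_left _ _ _ _ (Run.seq_ok _ _ _ _ _ (Run.term_ok _ _) ih')
    | h => exact absurd rfl ha

lemma m_run (n : ℕ) : ∀ u : List Sym, u.length ≤ n → ∃ y, Last u y ∧ Run rules (nt NT.M) u (some y) := by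
  induction n with
  | zero =>
    intro u hu
    have : u = [] := List.length_eq_zero_iff.1 (by omega)
    subst this
    refine ⟨[], ⟨by simp, Or.inl rfl⟩, ?_⟩
    rw [run_nt]
    refine Run.alt_right _ _ _ _ ?_ (Run.eps _)
    refine Run.seq_ok _ _ _ _ _ (x_run [] [] (by simp) (Or.inl rfl)) ?_
    apply Run.seq_fail
    rw [run_term_none]
    intro s hs; simp at hs
  | succ n ih =>
    intro u hu
    by_cases hmem : Sym.h ∈ u
    · obtain ⟨x, v, rfl, hx⟩ := List.eq_append_cons_of_mem hmem
      obtain ⟨y, hy1, hy2⟩ := ih v (by simp at hu; omega)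
      refine ⟨y, ⟨hy1.1, ?_⟩, ?_⟩
      · right
        rcases hy1.2 with rfl | ⟨pre, rfl⟩
        · exact ⟨x, rfl⟩
        · exact ⟨x ++ Sym.h :: pre, by simp⟩
      · rw [run_nt]
        refine Run.alt_left _ _ _ _ (Run.seq_ok _ _ _ _ _ (x_run x _ hx (Or.inr ⟨v, rfl⟩)) ?_)
        exact Run.seq_ok _ _ _ _ _ (Run.term_ok _ _) hy2
    · refine ⟨u, ⟨hmem, Or.inl rfl⟩, ?_⟩
      rw [run_nt]
      refine Run.alt_right _ _ _ _ ?_ (Run.eps _)
      have hx := x_run u [] hmem (Or.inl rfl)
      rw [List.append_nil] at hx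
      refine Run.seq_ok _ _ _ _ _ hx ?_
      apply Run.seq_fail
      rw [run_term_none]
      intro s hs; simp at hs

end Parse

end Pool.Agent.Helper82.PEG
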