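import Pool.Agent.Helper82.PEGAverage

set_option autoImplicit false
open Classical

namespace Pool.Agent.Helper82.PEG

section Params

/-- the difference of data lengths is small compared to the record of epoch `g` -/
lemma zl_diff (k : ℕ) (d : ℕ → ℕ) (g M : ℕ) (B : ℕ) (hB : ∀ j, g < j → rl k (d j) ≤ B) :
    zl k d (g + 1 + M) - zl k d (g + 1) ≤ M * B := by
  induction M with
  | zero => simp
  | succ M ih =>
    have h1 : zl k d (g + 1 + (M + 1)) = zl k d (g + 1 + M) + rl k (d (g + 1 + M)) := by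
      rw [← add_assoc, zl]
    have h2 := hB (g + 1 + M) (by omega)
    rw [h1, add_mul, one_mul]
    omega

lemma zl_le (k : ℕ) (d : ℕ → ℕ) (M : ℕ) (B : ℕ) (hB : ∀ j, rl k (d j) ≤ B) :
    zl k d M ≤ M * B := by
  induction M with
  | zero => simp [zl]
  | succ M ih =>
    rw [zl, add_mul, one_mul]
    have := hB M
    omega

lemma rl_le (k d : ℕ) : rl k d ≤ 2 ^ d * 2 ^ (k + 2) := by
  unfold rl
  apply Nat.mul_le_mul_left
  have h1 : 1 ≤ 2 ^ (k + 1) := Nat.one_le_two_pow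
  have h2 : 2 ^ (k + 2) = 2 ^ (k + 1) + 2 ^ (k + 1) := by ring
  omega

lemma exists_r (c : ℕ) : ∃ r : ℕ, 1 ≤ r ∧ 11648 * c ^ 4 * r ^ 5 ≤ 2 ^ r := by
  have h1 : Filter.Tendsto (fun n : ℕ => (n : ℝ) ^ 5 / (2:ℝ) ^ n) Filter.atTop (nhds 0) :=
    tendsto_pow_const_div_const_pow_of_one_lt 5 (by norm_num)
  have hpos : (0:ℝ) < 1 / (11648 * (c:ℝ) ^ 4 + 1) := by positivity
  have h2 : ∀ᶠ n : ℕ in Filter.atTop, (n : ℝ) ^ 5 / (2:ℝ) ^ n < 1 / (11648 * (c:ℝ) ^ 4 + 1) :=
    h1.eventually_lt_const hpos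
  obtain ⟨r, hr1, hr2⟩ := (h2.and (Filter.eventually_ge_atTop 1)).exists
  refine ⟨r, hr2, ?_⟩
  rw [div_lt_div_iff₀ (by positivity) (by positivity)] at hr1
  have h3 : (11648 * (c:ℝ) ^ 4 * (r:ℝ) ^ 5) ≤ 2 ^ r := by
    have : (0:ℝ) ≤ (r:ℝ) ^ 5 := by positivity
    nlinarith
  exact_mod_cast h3

end Params

/-- the key negative result -/
theorem not_isPEL : ¬ IsPEL (L₁ * (⊤ : Language Sym)) := by
  rintro ⟨N, hN, P, S, hP⟩
  obtain ⟨E, hE, hS⟩ := exists_closed P S
  set c := E.card with hc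
  have hc1 : 1 ≤ c := Finset.card_pos.2 ⟨_, hS⟩
  obtain ⟨r, hr1, hr⟩ := exists_r c
  set G := 2 * c * r with hG
  set h := r * G with hh
  set d : ℕ → ℕ := fun g => r * (G - g) with hd
  have hGpos : 1 ≤ G := by
    rw [hG]
    exact Nat.one_le_iff_ne_zero.2 (by positivity)
  have hd_le : ∀ g, d g ≤ h := fun g => Nat.mul_le_mul_left _ (Nat.sub_le _ _)
  set Λ := G + h + r + 3 with hΛ
  have hL : zl r d G + h + 1 + 3 ≤ 2 ^ Λ := by
    have h1 : zl r d G ≤ G * (2 ^ h * 2 ^ (r + 2)) := by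
      apply zl_le
      intro j
      refine le_trans (rl_le _ _) ?_
      apply Nat.mul_le_mul_right
      exact Nat.pow_le_pow_right (by norm_num) (hd_le j)
    have h2 : G ≤ 2 ^ G := Nat.lt_two_pow_self.le
    have h3 : h + 1 ≤ 2 ^ h := Nat.lt_two_pow_self
    have h4 : h + 1 + 3 ≤ 2 ^ (G + h + r + 2) := by
      have h5 : 2 ^ h * 4 ≤ 2 ^ (G + h + r + 2) := by
        calc 2 ^ h * 4 = 2 ^ (h + 2) := by ring
          _ ≤ _ := Nat.pow_le_pow_right (by norm_num) (by omega)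
      omega
    calc zl r d G + h + 1 + 3 ≤ G * (2 ^ h * 2 ^ (r + 2)) + (h + 1 + 3) := by omega
      _ ≤ 2 ^ G * (2 ^ h * 2 ^ (r + 2)) + 2 ^ (G + h + r + 2) :=
          add_le_add (Nat.mul_le_mul_right _ h2) h4
      _ = 2 ^ Λ := by rw [hΛ]; ring
  -- side information bound
  set m1 : ℕ → ℕ := fun g => (zl r d G - zl r d (g + 1)) * c with hm1
  set m2 : ℕ → ℕ := fun g => 2 ^ d g * ((h + 1) * c) with hm2
  set y : Fin G → ℕ := fun g => Λ * (m1 g + m2 g) + 3 with hy
  have hm1le : ∀ g : Fin G, m1 g ≤ 2 ^ d g * (4 * G * c) := by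
    intro g
    have h1 : zl r d G - zl r d (g + 1) ≤ (G - (g + 1)) * (2 ^ (d g - r) * 2 ^ (r + 2)) := by
      have h2 := zl_diff r d g (G - (g + 1)) (2 ^ (d g - r) * 2 ^ (r + 2)) (by
        intro j hj
        refine le_trans (rl_le _ _) ?_
        apply Nat.mul_le_mul_right
        apply Nat.pow_le_pow_right (by norm_num)
        simp only [hd]
        have h3 : r * (G - j) ≤ r * (G - (g + 1)) := Nat.mul_le_mul_left _ (by omega)
        have h4 : r * (G - (g + 1)) + r = r * (G - g) := by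
          have : G - g = G - (g + 1) + 1 := by have := g.2; omega
          rw [this]; ring
        omega)
      have h3 : (g : ℕ) + 1 + (G - (g + 1)) = G := by have := g.2; omega
      rw [h3] at h2
      exact h2
    have h2 : 2 ^ (d g - r) * 2 ^ (r + 2) = 2 ^ d g * 4 := by
      have h3 : r ≤ d g := by
        simp only [hd]
        calc r = r * 1 := by ring
          _ ≤ r * (G - g) := Nat.mul_le_mul_left _ (by have := g.2; omega)
      rw [← pow_add]
      have : d g - r + (r + 2) = d g + 2 := by omega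
      rw [this]; ring
    rw [h2] at h1
    calc m1 g ≤ ((G - (g + 1)) * (2 ^ d g * 4)) * c := Nat.mul_le_mul_right _ h1
      _ ≤ (G * (2 ^ d g * 4)) * c := by
          apply Nat.mul_le_mul_right
          apply Nat.mul_le_mul_right
          omega
      _ = 2 ^ d g * (4 * G * c) := by ring
  have hyle : ∀ g : Fin G, y g ≤ 2 ^ d g * (Λ * (4 * G * c + (h + 1) * c) + 3) := by
    intro g
    have h1 := hm1le g
    have h2 : 1 ≤ 2 ^ d g := Nat.one_le_two_pow
    calc y g ≤ Λ * (2 ^ d g * (4 * G * c) + m2 g) + 3 * 2 ^ d g := by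
          simp only [hy]
          apply add_le_add
          · apply Nat.mul_le_mul_left
            omega
          · omega
      _ = _ := by simp only [hm2]; ring
  have hpoly : 64 * G * (Λ * (4 * G * c + (h + 1) * c) + 3) ≤ 2 ^ r := by
    refine le_trans ?_ hr
    have e1 : h = 2 * c * r ^ 2 := by rw [hh, hG]; ring
    have hrr : r ≤ r ^ 2 := by nlinarith
    have hr2 : 1 ≤ r ^ 2 := Nat.one_le_pow _ _ hr1
    have hcr : r ^ 2 ≤ c * r ^ 2 := Nat.le_mul_of_pos_left _ hc1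
    have hcr' : c * r ≤ c * r ^ 2 := Nat.mul_le_mul_left _ hrr
    have e2 : Λ ≤ 8 * (c * r ^ 2) := by
      rw [hΛ, e1, hG]
      have : 2 * c * r = 2 * (c * r) := by ring
      have : 2 * c * r ^ 2 = 2 * (c * r ^ 2) := by ring
      omega
    have e3 : 4 * G * c + (h + 1) * c ≤ 11 * (c ^ 2 * r ^ 2) := by
      have : 4 * G * c + (h + 1) * c = (4 * G + h + 1) * c := by ring
      rw [this]
      have h4 : 4 * G + h + 1 ≤ 11 * (c * r ^ 2) := by
        rw [e1, hG]
        have : 4 * (2 * c * r) = 8 * (c * r) := by ring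
        have : 2 * c * r ^ 2 = 2 * (c * r ^ 2) := by ring
        omega
      calc (4 * G + h + 1) * c ≤ 11 * (c * r ^ 2) * c := Nat.mul_le_mul_right _ h4
        _ = _ := by ring
    have e4 : Λ * (4 * G * c + (h + 1) * c) + 3 ≤ 91 * (c ^ 3 * r ^ 4) := by
      have h5 : Λ * (4 * G * c + (h + 1) * c) ≤ 8 * (c * r ^ 2) * (11 * (c ^ 2 * r ^ 2)) :=
        Nat.mul_le_mul e2 e3
      have h6 : 8 * (c * r ^ 2) * (11 * (c ^ 2 * r ^ 2)) = 88 * (c ^ 3 * r ^ 4) := by ring
      have h7 : 1 ≤ c ^ 3 * r ^ 4 := Nat.one_le_iff_ne_zero.2 (by positivity)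
      omega
    calc 64 * G * (Λ * (4 * G * c + (h + 1) * c) + 3) ≤ 64 * G * (91 * (c ^ 3 * r ^ 4)) :=
          Nat.mul_le_mul_left _ e4
      _ = 11648 * c ^ 4 * r ^ 5 := by rw [hG]; ring
  have hav := average (k := r) (G := G) (h := h) (d := d) (C := Fin (8 * G)) hE hS hr1
    ⟨0, by omega⟩ (by simp; omega) hd_le hP y
    (by
      intro g
      rw [Fintype.card_fin]
      calc 8 * (8 * G * y g) = 64 * G * y g := by ring
        _ ≤ 64 * G * (2 ^ d g * (Λ * (4 * G * c + (h + 1) * c) + 3)) :=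
            Nat.mul_le_mul_left _ (hyle g)
        _ = 2 ^ d g * (64 * G * (Λ * (4 * G * c + (h + 1) * c) + 3)) := by ring
        _ ≤ 2 ^ d g * 2 ^ r := Nat.mul_le_mul_left _ hpoly)
    (by
      intro g
      calc 8 * ((zl r d G + h + 1 + 3) ^ ((zl r d G - zl r d (g + 1)) * E.card) *
              (zl r d G + h + 1 + 3) ^ (2 ^ d g * ((h + 1) * E.card)))
          = 8 * (zl r d G + h + 1 + 3) ^ (m1 g + m2 g) := by
            rw [← pow_add]
        _ ≤ 8 * (2 ^ Λ) ^ (m1 g + m2 g) := by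
            apply Nat.mul_le_mul_left
            exact Nat.pow_le_pow_left hL _
        _ = 2 ^ y g := by
            rw [← pow_mul]
            simp only [hy]
            rw [pow_add]
            ring)
  rw [Fintype.card_fin, ← hc] at hav
  have hGr : (G : ℝ) = 2 * c * r := by rw [hG]; push_cast; ring
  have hGposR : (0:ℝ) < G := by exact_mod_cast hGpos
  have h8 : (G:ℝ) / ((8 * G : ℕ) : ℝ) = 1 / 8 := by
    push_cast
    field_simp
  rw [h8] at hav
  nlinarith

end Pool.Agent.Helper82.PEG
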