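import Pool.Agent.Helper82.PEGLang

set_option autoImplicit false

namespace Pool.Agent.Helper82.PEG

open Exp

lemma m_last {u y : List Sym} (h : Run rules (nt NT.M) u (some y)) : Last u y := by
  obtain ⟨y', h1, h2⟩ := m_run u.length u le_rfl
  have := Run.det h h2
  simp only [Option.some.injEq] at this
  subst this
  exact h1

/-- the part after the last hash is unique -/
lemma last_unique {u y y' : List Sym} (h : Last u y) (h' : Last u y') : y = y' := by
  obtain ⟨hn, h⟩ := h
  obtain ⟨hn', h'⟩ := h'
  rcases h with rfl | ⟨pre, rfl⟩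
  · rcases h' with rfl | ⟨pre', rfl⟩
    · rfl
    · exact absurd (by simp) hn
  · rcases h' with rfl | ⟨pre', h'⟩
    · exact absurd (by simp) hn'
    · -- both have a last hash
      have h1 := congrArg List.reverse h'
      simp only [List.reverse_append, List.reverse_cons, List.append_assoc, List.cons_append,
        List.nil_append] at h1
      -- y.reverse ++ h :: _ = y'.reverse ++ h :: _
      have key : ∀ (a b c d : List Sym), Sym.h ∉ a → Sym.h ∉ b →
          a ++ Sym.h :: c = b ++ Sym.h :: d → a = b := by
        intro a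
        induction a with
        | nil =>
          intro b c d _ hb hab
          cases b with
          | nil => rfl
          | cons x b =>
            simp only [List.nil_append, List.cons_append, List.cons.injEq] at hab
            exact absurd (by simp [hab.1]) hb
        | cons x a ih =>
          intro b c d ha hb hab
          cases b with
          | nil =>
            simp only [List.nil_append, List.cons_append, List.cons.injEq] at hab
            exact absurd (by simp [hab.1]) ha
          | cons x' b =>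
            simp only [List.cons_append, List.cons.injEq] at hab
            rw [hab.1, ih b c d (fun h => ha (by simp [h])) (fun h => hb (by simp [h])) hab.2]
      have := key _ _ _ _ (by simpa using hn) (by simpa using hn') h1
      exact List.reverse_injective this

lemma m_of_last {u y : List Sym} (h : Last u y) : Run rules (nt NT.M) u (some y) := by
  obtain ⟨y', h1, h2⟩ := m_run u.length u le_rfl
  rw [last_unique h h1]
  exact h2

lemma q_inv (n : ℕ) : ∀ u y : List Sym, u.length ≤ n → Run rules (nt NT.Q) u (some y) →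
    ∃ (l : List Bool) (v y₀ : List Sym), u = bits l ++ Sym.h :: v ∧ Last v y₀ ∧ Steps sP l y₀ y := by
  induction n with
  | zero =>
    intro u y hu h
    have : u = [] := List.length_eq_zero_iff.1 (by omega)
    subst this
    rw [run_nt] at h
    unfold rules at h
    simp only [run_alt_some, run_seq_some, run_term_some] at h
    rcases h with ⟨s, hs, _⟩ | ⟨_, ⟨s, hs, _⟩ | ⟨_, ⟨s, hs, _⟩⟩⟩ <;> simp at hs
  | succ n ih =>
    intro u y hu h
    rw [run_nt] at h
    unfold rules at h
    rw [run_alt_some, run_alt_some] at h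
    rcases h with h | ⟨_, h | ⟨_, h⟩⟩
    · rw [run_seq_some] at h
      obtain ⟨s, h1, h2⟩ := h
      rw [run_term_some] at h1
      subst h1
      rw [run_seq_some] at h2
      obtain ⟨s2, h2, h3⟩ := h2
      obtain ⟨l, v, y₀, rfl, h5, h6⟩ := ih s s2 (by simpa using hu) h2
      exact ⟨false :: l, v, y₀, rfl, h5, s2, h6, h3⟩
    · rw [run_seq_some] at h
      obtain ⟨s, h1, h2⟩ := h
      rw [run_term_some] at h1
      subst h1
      rw [run_seq_some] at h2
      obtain ⟨s2, h2, h3⟩ := h2
      obtain ⟨l, v, y₀, rfl, h5, h6⟩ := ih s s2 (by simpa using hu) h2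
      exact ⟨true :: l, v, y₀, rfl, h5, s2, h6, h3⟩
    · rw [run_seq_some] at h
      obtain ⟨s, h1, h2⟩ := h
      rw [run_term_some] at h1
      subst h1
      exact ⟨[], s, y, rfl, m_last h2, rfl⟩

lemma q_intro (l : List Bool) : ∀ (v y₀ y : List Sym), Last v y₀ → Steps sP l y₀ y →
    Run rules (nt NT.Q) (bits l ++ Sym.h :: v) (some y) := by
  induction l with
  | nil =>
    intro v y₀ y hv hs
    have hs' : y₀ = y := hs
    subst hs'
    rw [run_nt]
    refine Run.alt_right _ _ _ _ (seq_none_of_ne (by decide) _ _) ?_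
    refine Run.alt_right _ _ _ _ (seq_none_of_ne (by decide) _ _) ?_
    exact Run.seq_ok _ _ _ _ _ (Run.term_ok _ _) (m_of_last hv)
  | cons c l ih =>
    intro v y₀ y hv hs
    obtain ⟨y₁, h1, h2⟩ := hs
    have h3 := ih v y₀ y₁ hv h1
    rw [run_nt]
    cases c with
    | false =>
      refine Run.alt_left _ _ _ _ (Run.seq_ok _ _ _ _ _ (Run.term_ok _ _) ?_)
      exact Run.seq_ok _ _ _ _ _ h3 h2
    | true =>
      refine Run.alt_right _ _ _ _ (seq_none_of_ne (by decide) _ _) ?_
      refine Run.alt_left _ _ _ _ (Run.seq_ok _ _ _ _ _ (Run.term_ok _ _) ?_)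
      exact Run.seq_ok _ _ _ _ _ h3 h2

lemma w_inv (n : ℕ) : ∀ u y : List Sym, u.length ≤ n → Run rules (nt NT.W) u (some y) →
    ∃ (l : List Bool) (v y₀ : List Sym), u = bits l ++ Sym.h :: v ∧
      Run rules (nt NT.Q) v (some (Sym.w :: y₀)) ∧ Steps sS l y₀ y := by
  induction n with
  | zero =>
    intro u y hu h
    have : u = [] := List.length_eq_zero_iff.1 (by omega)
    subst this
    rw [run_nt] at h
    unfold rules at h
    simp only [run_alt_some, run_seq_some, run_term_some] at h
    rcases h with ⟨s, hs, _⟩ | ⟨_, ⟨s, hs, _⟩ | ⟨_, ⟨s, hs, _⟩⟩⟩ <;> simp at hs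
  | succ n ih =>
    intro u y hu h
    rw [run_nt] at h
    unfold rules at h
    rw [run_alt_some, run_alt_some] at h
    rcases h with h | ⟨_, h | ⟨_, h⟩⟩
    · rw [run_seq_some] at h
      obtain ⟨s, h1, h2⟩ := h
      rw [run_term_some] at h1
      subst h1
      rw [run_seq_some] at h2
      obtain ⟨s2, h2, h3⟩ := h2
      obtain ⟨l, v, y₀, rfl, h5, h6⟩ := ih s s2 (by simpa using hu) h2
      exact ⟨false :: l, v, y₀, rfl, h5, s2, h6, h3⟩
    · rw [run_seq_some] at h
      obtain ⟨s, h1, h2⟩ := h
      rw [run_term_some] at h1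
      subst h1
      rw [run_seq_some] at h2
      obtain ⟨s2, h2, h3⟩ := h2
      obtain ⟨l, v, y₀, rfl, h5, h6⟩ := ih s s2 (by simpa using hu) h2
      exact ⟨true :: l, v, y₀, rfl, h5, s2, h6, h3⟩
    · rw [run_seq_some] at h
      obtain ⟨s, h1, h2⟩ := h
      rw [run_term_some] at h1
      subst h1
      rw [run_seq_some] at h2
      obtain ⟨s2, h2, h3⟩ := h2
      rw [run_term_some] at h3
      subst h3
      exact ⟨[], s, y, rfl, h2, rfl⟩

lemma w_intro (l : List Bool) : ∀ (v y₀ y : List Sym),
    Run rules (nt NT.Q) v (some (Sym.w :: y₀)) → Steps sS l y₀ y →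
    Run rules (nt NT.W) (bits l ++ Sym.h :: v) (some y) := by
  induction l with
  | nil =>
    intro v y₀ y hv hs
    have hs' : y₀ = y := hs
    subst hs'
    rw [run_nt]
    refine Run.alt_right _ _ _ _ (seq_none_of_ne (by decide) _ _) ?_
    refine Run.alt_right _ _ _ _ (seq_none_of_ne (by decide) _ _) ?_
    exact Run.seq_ok _ _ _ _ _ (Run.term_ok _ _) (Run.seq_ok _ _ _ _ _ hv (Run.term_ok _ _))
  | cons c l ih =>
    intro v y₀ y hv hs
    obtain ⟨y₁, h1, h2⟩ := hs
    have h3 := ih v y₀ y₁ hv h1
    rw [run_nt]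
    cases c with
    | false =>
      refine Run.alt_left _ _ _ _ (Run.seq_ok _ _ _ _ _ (Run.term_ok _ _) ?_)
      exact Run.seq_ok _ _ _ _ _ h3 h2
    | true =>
      refine Run.alt_right _ _ _ _ (seq_none_of_ne (by decide) _ _) ?_
      refine Run.alt_left _ _ _ _ (Run.seq_ok _ _ _ _ _ (Run.term_ok _ _) ?_)
      exact Run.seq_ok _ _ _ _ _ h3 h2

/-- explicit description of `L₁` -/
lemma mem_L₁ (u : List Sym) : u ∈ L₁ ↔ ∃ (lq lp : List Bool) (v y₀ : List Sym),
    u = bits lq ++ Sym.h :: (bits lp ++ Sym.h :: v) ∧ Last v y₀ ∧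
      Walk lp.reverse lq.reverse y₀ [Sym.o] := by
  constructor
  · intro h
    have h' : Run rules (nt NT.S) u (some []) := h
    rw [run_nt] at h'
    unfold rules at h'
    rw [run_seq_some] at h'
    obtain ⟨s, h1, h2⟩ := h'
    rw [run_term_some] at h2
    subst h2
    obtain ⟨lq, v, y₀, rfl, h3, h4⟩ := w_inv _ _ _ le_rfl h1
    obtain ⟨lp, v', y₁, rfl, h5, h6⟩ := q_inv _ _ _ le_rfl h3
    refine ⟨lq, lp, v', y₁, rfl, h5, y₀, ?_, ?_⟩
    · rw [← Steps_reverse, List.reverse_reverse]; exact h6
    · rw [← Steps_reverse, List.reverse_reverse]; exact h4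
  · rintro ⟨lq, lp, v, y₀, rfl, h1, y₁, h2, h3⟩
    rw [← Steps_reverse, List.reverse_reverse] at h2 h3
    show Run rules (nt NT.S) _ (some [])
    rw [run_nt]
    exact Run.seq_ok _ _ _ _ _ (w_intro lq _ _ _ (q_intro lp _ _ _ h1 h2) h3) (Run.term_ok _ _)

lemma noh_bits (l : List Bool) : Sym.h ∉ bits l := by
  intro h
  simp only [bits, List.mem_map] at h
  obtain ⟨c, _, hc⟩ := h
  exact bit_ne_h c hc

lemma bits_inj {l l' : List Bool} (h : bits l = bits l') : l = l' :=
  List.map_injective_iff.2 (fun _ _ => bit_inj) h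

/-- splitting at the first hash -/
lemma split_unique : ∀ (a b c d : List Sym), Sym.h ∉ a → Sym.h ∉ b →
    a ++ Sym.h :: c = b ++ Sym.h :: d → a = b ∧ c = d := by
  intro a
  induction a with
  | nil =>
    intro b c d _ hb hab
    cases b with
    | nil => simpa using hab
    | cons x b =>
      simp only [List.nil_append, List.cons_append, List.cons.injEq] at hab
      exact absurd (by simp [hab.1]) hb
  | cons x a ih =>
    intro b c d ha hb hab
    cases b with
    | nil =>
      simp only [List.nil_append, List.cons_append, List.cons.injEq] at hab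
      exact absurd (by simp [hab.1]) ha
    | cons x' b =>
      simp only [List.cons_append, List.cons.injEq] at hab
      obtain ⟨h1, h2⟩ := ih b c d (fun h => ha (by simp [h])) (fun h => hb (by simp [h])) hab.2
      exact ⟨by rw [hab.1, h1], h2⟩

/-- a hash-free factor following a hash of the data word lies in one record -/
lemma zw_factor (k : ℕ) (dd : ℕ → ℕ) (F : ℕ → List Bool → List Bool → Bool) (G : ℕ) :
    ∀ (A y rest : List Sym), Sym.h ∉ y → Zw k dd F G = A ++ Sym.h :: (y ++ rest) →
    ∃ g, g < G ∧ ∃ v, encT k (dd g) (F g) = y ++ v := by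
  induction G with
  | zero => intro A y rest _ h; simp [Zw] at h
  | succ G ih =>
    intro A y rest hy h
    unfold Zw at h
    cases A with
    | nil =>
      simp only [List.nil_append, List.cons.injEq, true_and] at h
      refine ⟨G, by omega, ?_⟩
      rcases List.append_eq_append_iff.1 h with ⟨t, h1, h2⟩ | ⟨t, h1, h2⟩
      · -- y = enc ++ t
        cases t with
        | nil => exact ⟨[], by rw [h1]; simp⟩
        | cons x t =>
          exfalso
          cases G with
          | zero => simp [Zw] at h2
          | succ G =>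
            simp only [Zw, List.cons_append, List.cons.injEq] at h2
            apply hy
            rw [h1, ← h2.1]
            simp
      · exact ⟨t, h1⟩
    | cons x A =>
      simp only [List.cons_append, List.cons.injEq] at h
      obtain ⟨_, h⟩ := h
      -- enc ++ Zw = A ++ h :: (y ++ rest)
      rcases List.append_eq_append_iff.1 h with ⟨t, h1, h2⟩ | ⟨t, h1, h2⟩
      · obtain ⟨g, hg, v, hv⟩ := ih t y rest hy h2
        exact ⟨g, by omega, v, hv⟩
      · cases t with
        | nil =>
          simp only [List.nil_append] at h2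
          obtain ⟨g, hg, v, hv⟩ := ih [] y rest hy (by rw [← h2]; rfl)
          exact ⟨g, by omega, v, hv⟩
        | cons x t =>
          exfalso
          simp only [List.cons_append, List.cons.injEq] at h2
          apply noh_encT k (dd G) (F G)
          rw [h1, ← h2.1]
          simp

/-- each record is a factor following a hash -/
lemma zw_split (k : ℕ) (dd : ℕ → ℕ) (F : ℕ → List Bool → List Bool → Bool) (G : ℕ) :
    ∀ g, g < G → ∃ A B, Zw k dd F G = A ++ Sym.h :: (encT k (dd g) (F g) ++ B) := by
  induction G with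
  | zero => intro g hg; omega
  | succ G ih =>
    intro g hg
    by_cases h : g = G
    · subst h
      exact ⟨[], Zw k dd F g, rfl⟩
    · obtain ⟨A, B, h1⟩ := ih g (by omega)
      refine ⟨Sym.h :: (encT k (dd G) (F G) ++ A), B, ?_⟩
      unfold Zw
      rw [h1]
      simp

/-- the membership criterion -/
theorem mem_mul (k : ℕ) (dd : ℕ → ℕ) (F : ℕ → List Bool → List Bool → Bool) (G : ℕ)
    (Lp Lq : List Bool) (hp : ∀ g, g < G → dd g ≤ Lp.length) (hq : Lq.length = k) :
    (bits Lq.reverse ++ Sym.h :: (bits Lp.reverse ++ Zw k dd F G)) ∈ L₁ * (⊤ : Language Sym) ↔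
      ∃ g, g < G ∧ F g (Lp.take (dd g)) Lq = true := by
  rw [Language.mem_mul]
  constructor
  · rintro ⟨u, hu, rest, _, hur⟩
    rw [mem_L₁] at hu
    obtain ⟨lq, lp, v, y₀, rfl, h1, h2⟩ := hu
    rw [List.append_assoc, List.cons_append] at hur
    obtain ⟨e1, e2⟩ := split_unique _ _ _ _ (noh_bits _) (noh_bits _) hur
    have e1' := bits_inj e1
    subst e1'
    rw [List.append_assoc, List.cons_append] at e2
    cases G with
    | zero =>
      exfalso
      simp only [Zw, List.append_nil] at e2
      apply noh_bits Lp.reverse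
      rw [← e2]; simp
    | succ G =>
      have e2' := e2
      rw [show Zw k dd F (G + 1) = Sym.h :: (encT k (dd G) (F G) ++ Zw k dd F G) from rfl] at e2'
      obtain ⟨e3, e4⟩ := split_unique _ _ _ _ (noh_bits _) (noh_bits _) e2'
      have e3' := bits_inj e3
      subst e3'
      have hz : ∃ A, Zw k dd F (G + 1) = A ++ Sym.h :: (y₀ ++ rest) := by
        rcases h1.2 with rfl | ⟨pre, rfl⟩
        · exact ⟨[], by rw [Zw, ← e4]; rfl⟩
        · exact ⟨Sym.h :: pre, by rw [Zw, ← e4]; simp⟩
      obtain ⟨A, hA⟩ := hz
      obtain ⟨g, hg, v2, hv2⟩ := zw_factor k dd F (G + 1) A y₀ rest h1.1 hA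
      refine ⟨g, hg, ?_⟩
      rw [List.reverse_reverse, List.reverse_reverse] at h2
      have h3 := Walk_ext v2 h2
      rw [← hv2] at h3
      obtain ⟨stem, post, h4, h5⟩ := walk_enc k (dd g) (F g) Lp Lq (hp g hg) hq
      have h6 := h5 (bit (F g (Lp.take (dd g)) Lq) :: post)
      rw [← h4] at h6
      have h7 := Walk_det h3 h6
      simp only [List.cons_append, List.nil_append, List.cons.injEq] at h7
      exact (bit_inj (c := true) h7.1).symm
  · rintro ⟨g, hg, hF⟩
    obtain ⟨A, B, hAB⟩ := zw_split k dd F G g hg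
    obtain ⟨stem, post, h4, h5⟩ := walk_enc k (dd g) (F g) Lp Lq (hp g hg) hq
    rw [hF] at h4
    have hnoh : Sym.h ∉ stem ++ [Sym.o] := by
      intro h
      apply noh_encT k (dd g) (F g)
      rw [h4]
      simp only [List.mem_append, List.mem_singleton, reduceCtorEq, or_false] at h
      simp [h]
    refine ⟨bits Lq.reverse ++ Sym.h :: (bits Lp.reverse ++ (A ++ Sym.h :: (stem ++ [Sym.o]))), ?_,
      post ++ B, trivial, ?_⟩
    · rw [mem_L₁]
      cases A with
      | nil =>
        refine ⟨Lq.reverse, Lp.reverse, stem ++ [Sym.o], stem ++ [Sym.o], rfl, ⟨hnoh, Or.inl rfl⟩, ?_⟩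
        rw [List.reverse_reverse, List.reverse_reverse]
        exact h5 _
      | cons x A =>
        have hx : x = Sym.h := by
          cases G with
          | zero => omega
          | succ G =>
            simp only [Zw, List.cons_append, List.cons.injEq] at hAB
            exact hAB.1.symm
        subst hx
        refine ⟨Lq.reverse, Lp.reverse, A ++ Sym.h :: (stem ++ [Sym.o]), stem ++ [Sym.o], rfl,
          ⟨hnoh, Or.inr ⟨A, rfl⟩⟩, ?_⟩
        rw [List.reverse_reverse, List.reverse_reverse]
        exact h5 _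
    · rw [hAB, h4]
      simp [bit]

end Pool.Agent.Helper82.PEG
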