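import Pool.Agent.Helper82.PEGBasic

set_option autoImplicit false
open Classical

namespace Pool.Agent.Helper82.PEG

variable {T N : Type} {P : N → Exp T N}

/-- one-directional single step -/
lemma step_aux {E : Set (Exp T N)} (hE : Closed P E) {a : T} {x x' : List T}
    (hlen : x.length = x'.length)
    (H : ∀ e₁ e₂, Exp.seq e₁ e₂ ∈ E → ∀ l, l ≤ x.length →
      code P (a :: x) e₁ = l + 2 → code P (a :: x') e₁ = l + 2 →
      code P (suf x l) e₂ = code P (suf x' l) e₂)
    {e : Exp T N} {v : List T} {r : Option (List T)} (h : Run P e v r) :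
    v = a :: x → e ∈ E → code P (a :: x') e = cr r := by
  induction h with
  | eps w =>
    rintro rfl _
    rw [code_eq (Run.eps _)]
    simp [cr, hlen]
  | term_ok c s =>
    intro hv _
    rw [List.cons.injEq] at hv
    obtain ⟨rfl, rfl⟩ := hv
    rw [code_eq (Run.term_ok _ _)]
    simp [cr, hlen]
  | term_fail c w h =>
    rintro rfl _
    have hf : Run P (Exp.term c) (a :: x') none := by
      apply Run.term_fail
      intro s hs
      rw [List.cons.injEq] at hs
      obtain ⟨rfl, rfl⟩ := hs
      exact h x rfl
    exact code_eq hf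
  | seq_ok e₁ e₂ w s r h₁ h₂ ih₁ ih₂ =>
    rintro rfl he
    have hc := hE.seq e₁ e₂ he
    have i1 := ih₁ rfl hc.1
    have i1' : code P (a :: x') e₁ = s.length + 2 := i1
    obtain ⟨s', hs'l, hs'⟩ := run_some_of_code i1'
    have hsuf := h₁.suffix s rfl
    have hsuf' := hs'.suffix s' rfl
    by_cases hfull : s.length = (a :: x).length
    · have hs : s = a :: x := hsuf.eq_of_length hfull
      have hs2 : s' = a :: x' := hsuf'.eq_of_length (by rw [hs'l, hfull]; simp [hlen])
      have i2 := ih₂ hs hc.2
      obtain ⟨r', hr', hcr'⟩ := exists_run_of_code (P := P) (e := e₂) (w := a :: x')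
        (by rw [i2]; exact cr_pos r)
      rw [← i2, ← hcr']
      rw [← hs2] at hr'
      exact code_eq (Run.seq_ok _ _ _ _ _ hs' hr')
    · have hle : s.length ≤ x.length := by
        have := hsuf.length_le
        simp only [List.length_cons] at this hfull
        omega
      have hs : s = suf x s.length := by
        rw [← suf_cons (a := a) hle]
        exact eq_suf_of_suffix hsuf
      have hs2 : s' = suf x' s.length := by
        rw [← suf_cons (a := a) (by omega), ← hs'l]
        exact eq_suf_of_suffix hsuf'
      have hH := H e₁ e₂ he s.length hle (by rw [code_eq h₁]; rfl) i1'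
      rw [← hs, ← hs2, code_eq h₂] at hH
      obtain ⟨r', hr', hcr'⟩ := exists_run_of_code (P := P) (e := e₂) (w := s')
        (by rw [← hH]; exact cr_pos r)
      rw [hH, ← hcr']
      exact code_eq (Run.seq_ok _ _ _ _ _ hs' hr')
  | seq_fail e₁ e₂ w h₁ ih₁ =>
    rintro rfl he
    have hc := hE.seq e₁ e₂ he
    have i1 := run_none_of_code (ih₁ rfl hc.1)
    exact code_eq (Run.seq_fail _ _ _ i1)
  | nt A w r h ih =>
    rintro rfl he
    have i := ih rfl (hE.nt A he)
    obtain ⟨r', hr', hcr'⟩ := exists_run_of_code (P := P) (e := P A) (w := a :: x')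
        (by rw [i]; exact cr_pos r)
    rw [← i, ← hcr']
    exact code_eq (Run.nt _ _ _ hr')
  | alt_left e₁ e₂ w s h₁ ih₁ =>
    rintro rfl he
    have hc := hE.alt e₁ e₂ he
    have i1 := ih₁ rfl hc.1
    have i1' : code P (a :: x') e₁ = s.length + 2 := i1
    obtain ⟨s', hs'l, hs'⟩ := run_some_of_code i1'
    rw [code_eq (Run.alt_left _ e₂ _ _ hs')]
    simp [cr, hs'l]
  | alt_right e₁ e₂ w r h₁ h₂ ih₁ ih₂ =>
    rintro rfl he
    have hc := hE.alt e₁ e₂ he
    have i1 := run_none_of_code (ih₁ rfl hc.1)
    have i := ih₂ rfl hc.2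
    obtain ⟨r', hr', hcr'⟩ := exists_run_of_code (P := P) (e := e₂) (w := a :: x')
        (by rw [i]; exact cr_pos r)
    rw [← i, ← hcr']
    exact code_eq (Run.alt_right _ _ _ _ i1 hr')
  | neg_ok e w h ih =>
    rintro rfl he
    have i := run_none_of_code (ih rfl (hE.neg _ he))
    rw [code_eq (Run.neg_ok _ _ i)]
    simp [cr, hlen]
  | neg_fail e w s h ih =>
    rintro rfl he
    have i : code P (a :: x') e = s.length + 2 := ih rfl (hE.neg _ he)
    obtain ⟨s', hs'l, hs'⟩ := run_some_of_code i
    exact code_eq (Run.neg_fail _ _ _ hs')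

/-- single step: if all looked-up rows agree, the new rows agree -/
lemma step {E : Set (Exp T N)} (hE : Closed P E) {a : T} {x x' : List T}
    (hlen : x.length = x'.length)
    (H : ∀ e₁ e₂, Exp.seq e₁ e₂ ∈ E → ∀ l, l ≤ x.length →
      code P (a :: x) e₁ = l + 2 → code P (a :: x') e₁ = l + 2 →
      code P (suf x l) e₂ = code P (suf x' l) e₂)
    (e : Exp T N) (he : e ∈ E) : code P (a :: x) e = code P (a :: x') e := by
  by_cases h : code P (a :: x) e = 0
  · by_contra hne
    have h' : code P (a :: x') e ≠ 0 := fun h0 => hne (by rw [h, h0])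
    obtain ⟨r, hr, _⟩ := exists_run_of_code h'
    have := step_aux hE hlen.symm (fun e₁ e₂ hs l hl h1 h2 =>
      (H e₁ e₂ hs l (by omega) h2 h1).symm) hr rfl he
    rw [h] at this
    exact cr_pos r this.symm
  · obtain ⟨r, hr, hc⟩ := exists_run_of_code h
    rw [← hc]
    exact (step_aux hE hlen H hr rfl he).symm

/-- `NoProbe P E I q u`: while the word `q` is read on top of the word `u` (from right to left), no
row is looked up whose position lies in `I`. -/
def NoProbe (P : N → Exp T N) (E : Set (Exp T N)) (I : Set ℕ) (q u : List T) : Prop :=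
  ∀ q₂, q₂ <:+ q → q₂ ≠ [] → ∀ e₁ e₂, Exp.seq e₁ e₂ ∈ E → ∀ l, l ≤ u.length →
    code P (q₂ ++ u) e₁ = l + 2 → l ∉ I

/-- transfer of rows through the query phase -/
lemma transfer {E : Set (Exp T N)} (hE : Closed P E) {I : Set ℕ} {u u' : List T}
    (hlen : u.length = u'.length)
    (hag : ∀ l, l ≤ u.length → l ∉ I → ∀ e ∈ E, code P (suf u l) e = code P (suf u' l) e)
    (q : List T) (hq : NoProbe P E I q u) :
    ∀ q₂, q₂ <:+ q → q₂ ≠ [] → ∀ e ∈ E, code P (q₂ ++ u) e = code P (q₂ ++ u') e := by
  induction q with
  | nil =>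
    intro q₂ h1 h2
    exact absurd (List.suffix_nil.1 h1) h2
  | cons a q ih =>
    have ih' := ih (by
      intro q₂ h1 h2
      exact hq q₂ (h1.trans (List.suffix_cons _ _)) h2)
    intro q₂ h1 h2 e he
    rcases List.suffix_cons_iff.1 h1 with rfl | h1'
    · rw [List.cons_append, List.cons_append]
      apply step hE (by simp [hlen]) _ e he
      intro e₁ e₂ hs l hl hc1 _
      by_cases hlu : l ≤ u.length
      · rw [suf_append hlu, suf_append (by omega)]
        apply hag l hlu _ e₂ (hE.seq _ _ hs).2
        exact hq (a :: q) (List.suffix_refl _) (by simp) e₁ e₂ hs l hlu hc1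
      · -- a position inside the query phase
        push Not at hlu
        obtain ⟨m, hm⟩ : ∃ m, l = m + u.length := ⟨l - u.length, by omega⟩
        have hmq : m ≤ q.length := by
          rw [List.length_append] at hl; omega
        have e1 : suf (q ++ u) l = suf q m ++ u := by
          unfold suf
          rw [List.drop_append]
          have : (q ++ u).length - l = q.length - m := by
            rw [List.length_append]; omega
          rw [this]
          have h0 : q.length - m - q.length = 0 := by omega
          rw [h0]; simp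
        have e2 : suf (q ++ u') l = suf q m ++ u' := by
          unfold suf
          rw [List.drop_append]
          have : (q ++ u').length - l = q.length - m := by
            rw [List.length_append]; omega
          rw [this]
          have h0 : q.length - m - q.length = 0 := by omega
          rw [h0]; simp
        rw [e1, e2]
        apply ih' _ _ _ e₂ (hE.seq _ _ hs).2
        · exact List.drop_suffix _ _
        · intro h0
          have := congrArg List.length h0
          rw [suf_length hmq] at this
          simp at this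
          omega
    · exact ih' q₂ h1' h2 e he

/-- `NoProbe` is preserved -/
lemma noProbe_transfer {E : Set (Exp T N)} (hE : Closed P E) {I : Set ℕ} {u u' : List T}
    (hlen : u.length = u'.length)
    (hag : ∀ l, l ≤ u.length → l ∉ I → ∀ e ∈ E, code P (suf u l) e = code P (suf u' l) e)
    (q : List T) (hq : NoProbe P E I q u) : NoProbe P E I q u' := by
  intro q₂ h1 h2 e₁ e₂ hs l hl hc
  have := transfer hE hlen hag q hq q₂ h1 h2 e₁ (hE.seq _ _ hs).1
  exact hq q₂ h1 h2 e₁ e₂ hs l (by omega) (by rw [this, hc])

/-- number of epochs probed -/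
lemma card_probed {E : Finset (Exp T N)} (hE : Closed P (E : Set (Exp T N))) {G : ℕ}
    (I : Fin G → Set ℕ) (hI : ∀ i j l, l ∈ I i → l ∈ I j → i = j) (q u : List T) :
    (Finset.univ.filter (fun g : Fin G => ¬ NoProbe P (E : Set (Exp T N)) (I g) q u)).card ≤
      q.length * E.card := by
  have key : ∀ g : Fin G, ¬ NoProbe P (E : Set (Exp T N)) (I g) q u →
      ∃ x : Fin q.length × E, ∃ l, l ∈ I g ∧ code P (q.drop x.1 ++ u) x.2.1 = l + 2 := by
    intro g hg
    unfold NoProbe at hg
    push Not at hg
    obtain ⟨q₂, h1, h2, e₁, e₂, hs, l, hl, hc, hIl⟩ := hg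
    obtain ⟨t, rfl⟩ := h1
    have hlt : t.length < (t ++ q₂).length := by
      rw [List.length_append]
      have := List.length_pos_of_ne_nil h2
      omega
    refine ⟨(⟨t.length, hlt⟩, ⟨e₁, (hE.seq _ _ hs).1⟩), l, hIl, ?_⟩
    simpa using hc
  choose f hf using key
  have hinj : Function.Injective
      (fun g : {g : Fin G // ¬ NoProbe P (E : Set (Exp T N)) (I g) q u} => f g.1 g.2) := by
    rintro ⟨g, hg⟩ ⟨g', hg'⟩ heq
    simp only at heq
    obtain ⟨l, hl, hc⟩ := hf g hg
    obtain ⟨l', hl', hc'⟩ := hf g' hg'
    rw [heq] at hc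
    have : l = l' := by omega
    subst this
    exact Subtype.ext (hI g g' l hl hl')
  have h := Fintype.card_le_of_injective _ hinj
  rw [Fintype.card_subtype] at h
  simpa using h

end Pool.Agent.Helper82.PEG
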