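import Pool.Agent.Helper82.PEGMember
import Pool.Agent.Helper82.PEGTransfer
import Pool.Agent.Helper82.PEGCount

set_option autoImplicit false
open Classical

namespace Pool.Agent.Helper82.PEG

section Lengths

lemma length_encS (k : ℕ) : ∀ f : List Bool → Bool, (encS k f).length + 1 = 2 ^ (k + 1) := by
  induction k with
  | zero => intro f; simp [encS]
  | succ k ih =>
    intro f
    rw [encS_succ, List.length_cons, List.length_append]
    have h1 := ih (fun l => f (false :: l))
    have h2 := ih (fun l => f (true :: l))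
    have : 2 ^ (k + 1 + 1) = 2 ^ (k + 1) + 2 ^ (k + 1) := by ring
    omega

/-- the length of a record -/
def rl (k d : ℕ) : ℕ := 2 ^ d * (2 ^ (k + 1) + 1)

lemma length_encT (k d : ℕ) : ∀ F : List Bool → List Bool → Bool,
    (encT k d F).length + 1 = rl k d := by
  induction d with
  | zero =>
    intro F
    have := length_encS k (F [])
    simp only [encT, List.length_cons, rl]
    omega
  | succ d ih =>
    intro F
    rw [encT_succ, List.length_cons, List.length_append]
    have h1 := ih (fun l => F (false :: l))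
    have h2 := ih (fun l => F (true :: l))
    have : rl k (d + 1) = rl k d + rl k d := by unfold rl; ring
    omega

/-- length of the data word up to epoch `g` -/
def zl (k : ℕ) (d : ℕ → ℕ) : ℕ → ℕ
  | 0 => 0
  | g + 1 => zl k d g + rl k (d g)

lemma length_Zw (k : ℕ) (d : ℕ → ℕ) (F : ℕ → List Bool → List Bool → Bool) (g : ℕ) :
    (Zw k d F g).length = zl k d g := by
  induction g with
  | zero => rfl
  | succ g ih =>
    rw [Zw, zl, List.length_cons, List.length_append, ih]
    have := length_encT k (d g) (F g)
    omega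

lemma zl_mono (k : ℕ) (d : ℕ → ℕ) : Monotone (zl k d) := by
  apply monotone_nat_of_le_succ
  intro g
  rw [zl]; omega

lemma Zw_congr (k : ℕ) (d : ℕ → ℕ) (F F' : ℕ → List Bool → List Bool → Bool) (g : ℕ)
    (h : ∀ j, j < g → F j = F' j) : Zw k d F g = Zw k d F' g := by
  induction g with
  | zero => rfl
  | succ g ih =>
    rw [Zw, Zw, h g (by omega), ih (fun j hj => h j (by omega))]

lemma Zw_suffix (k : ℕ) (d : ℕ → ℕ) (F : ℕ → List Bool → List Bool → Bool) (g : ℕ) :
    ∀ G, g ≤ G → ∃ A, Zw k d F G = A ++ Zw k d F g := by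
  intro G hG
  induction G with
  | zero =>
    have : g = 0 := by omega
    subst this
    exact ⟨[], rfl⟩
  | succ G ih =>
    by_cases h : g = G + 1
    · subst h; exact ⟨[], rfl⟩
    · obtain ⟨A, hA⟩ := ih (by omega)
      refine ⟨Sym.h :: (encT k (d G) (F G) ++ A), ?_⟩
      rw [Zw, hA]
      simp

end Lengths

section Data

variable (k G h : ℕ) (d : ℕ → ℕ) (C : Type)

/-- entries of epoch `g` -/
abbrev Idx (k : ℕ) (d : ℕ → ℕ) (g : ℕ) : Type := (Fin (d g) → Bool) × (Fin k → Bool)

/-- the data of all epochs -/
abbrev Data (k G : ℕ) (d : ℕ → ℕ) (C : Type) : Type := (g : Fin G) → (Idx k d g → C)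

variable {k G h d C}

/-- data as Boolean functions of paths -/
noncomputable def FF (c0 : C) (D : Data k G d C) : ℕ → List Bool → List Bool → Bool :=
  fun g la lq =>
    if hg : g < G then
      decide (D ⟨g, hg⟩ (fun j => la.getD j.1 false, fun j => lq.getD j.1 false) = c0)
    else false

/-- prefix of the path -/
def pre (hd : ∀ g, d g ≤ h) (g : ℕ) (p : Fin h → Bool) : Fin (d g) → Bool :=
  fun j => p (Fin.castLE (hd g) j)

/-- override the prefix of the path -/
def ovp (d : ℕ → ℕ) (g : ℕ) (p : Fin h → Bool) (a : Fin (d g) → Bool) : Fin h → Bool :=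
  fun j => if hj : j.1 < d g then a ⟨j.1, hj⟩ else p j

lemma pre_ovp (hd : ∀ g, d g ≤ h) (g : ℕ) (p : Fin h → Bool) (a : Fin (d g) → Bool) :
    pre hd g (ovp d g p a) = a := by
  funext j
  simp [pre, ovp]

lemma ovp_ovp (hd : ∀ g, d g ≤ h) (g : ℕ) (p : Fin h → Bool) (a : Fin (d g) → Bool) :
    ovp d g (ovp d g p a) (pre hd g p) = p := by
  funext j
  unfold ovp pre
  split_ifs with hj
  · rfl
  · rfl

lemma FF_eval (c0 : C) (hd : ∀ g, d g ≤ h) (D : Data k G d C) (g : ℕ) (p : Fin h → Bool)
    (q : Fin k → Bool) :
    FF c0 D g ((List.ofFn p).take (d g)) (List.ofFn q) = true ↔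
      ∃ hg : g < G, D ⟨g, hg⟩ (pre hd g p, q) = c0 := by
  unfold FF
  by_cases hg : g < G
  · rw [dif_pos hg]
    have e1 : (fun j : Fin (d g) => ((List.ofFn p).take (d g)).getD j.1 false) = pre hd g p := by
      funext j
      have hj : j.1 < ((List.ofFn p).take (d g)).length := by
        simp only [List.length_take, List.length_ofFn]
        have := hd g
        omega
      rw [List.getD_eq_getElem _ _ hj]
      simp [pre, Fin.castLE]
    have e2 : (fun j : Fin k => (List.ofFn q).getD j.1 false) = q := by
      funext j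
      rw [List.getD_eq_getElem _ _ (by simp)]
      simp
    simp only [decide_eq_true_eq]
    constructor
    · intro hx
      refine ⟨hg, ?_⟩
      rw [← hx, ← e1]
      congr 2
      exact e2.symm
    · rintro ⟨_, hx⟩
      rw [← hx, ← e1]
      congr 2
  · rw [dif_neg hg]
    simp [hg]

/-- the word before the query is read -/
noncomputable def uw (c0 : C) (D : Data k G d C) (p : Fin h → Bool) : List Sym :=
  Sym.h :: (bits (List.ofFn p).reverse ++ Zw k d (FF c0 D) G)

/-- the query word -/
def wq (q : Fin k → Bool) : List Sym := bits (List.ofFn q).reverse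

lemma length_wq (q : Fin k → Bool) : (wq q).length = k := by
  simp [wq, bits]

lemma length_uw (c0 : C) (D : Data k G d C) (p : Fin h → Bool) :
    (uw c0 D p).length = zl k d G + h + 1 := by
  unfold uw
  rw [List.length_cons, List.length_append, length_Zw]
  simp [bits]
  omega

lemma mem_word (c0 : C) (hd : ∀ g, d g ≤ h) (D : Data k G d C) (p : Fin h → Bool)
    (q : Fin k → Bool) :
    (wq q ++ uw c0 D p) ∈ L₁ * (⊤ : Language Sym) ↔ ∃ g : Fin G, D g (pre hd g p, q) = c0 := by
  unfold wq uw
  rw [mem_mul k d (FF c0 D) G (List.ofFn p) (List.ofFn q)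
    (fun g _ => by rw [List.length_ofFn]; exact hd g) (by simp)]
  constructor
  · rintro ⟨g, hg, hF⟩
    rw [FF_eval c0 hd] at hF
    obtain ⟨hg', hx⟩ := hF
    exact ⟨⟨g, hg'⟩, hx⟩
  · rintro ⟨⟨g, hg⟩, hx⟩
    refine ⟨g, hg, ?_⟩
    rw [FF_eval c0 hd]
    exact ⟨hg, hx⟩

/-- the positions inside the record of epoch `g` -/
def Iv (k : ℕ) (d : ℕ → ℕ) (g : ℕ) : Set ℕ := {l | zl k d g < l ∧ l ≤ zl k d (g + 1)}

lemma Iv_disjoint (k : ℕ) (d : ℕ → ℕ) (i j l : ℕ) (hi : l ∈ Iv k d i) (hj : l ∈ Iv k d j) :
    i = j := by
  obtain ⟨h1, h2⟩ := hi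
  obtain ⟨h3, h4⟩ := hj
  by_contra hne
  rcases Nat.lt_or_gt_of_ne hne with h | h
  · have := zl_mono k d (show i + 1 ≤ j by omega)
    omega
  · have := zl_mono k d (show j + 1 ≤ i by omega)
    omega

end Data

section Epoch

variable {k G h : ℕ} {d : ℕ → ℕ} {C : Type} {N : Type} {P : N → Exp Sym N}

/-- first part of the side information: rows after epoch `g` in the data word -/
noncomputable def tau1 (P : N → Exp Sym N) (E : Finset (Exp Sym N)) (c0 : C) (g : Fin G)
    (D : Data k G d C) (X : Idx k d g → C) :
    Fin (zl k d G - zl k d (g + 1)) × E → Fin (zl k d G + h + 1 + 3) :=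
  fun x => Fin.ofNat _ (code P
    (suf (Zw k d (FF c0 (Function.update D g X)) G) (zl k d (g + 1) + 1 + x.1.1)) x.2.1)

/-- second part of the side information: rows of the path phase -/
noncomputable def tau2 (P : N → Exp Sym N) (E : Finset (Exp Sym N)) (c0 : C) (g : Fin G)
    (D : Data k G d C) (p : Fin h → Bool) (X : Idx k d g → C) :
    (Fin (d g) → Bool) × Fin (h + 1) × E → Fin (zl k d G + h + 1 + 3) :=
  fun x => Fin.ofNat _ (code P
    (suf (uw c0 (Function.update D g X) (ovp d g p x.1)) (zl k d G + 1 + x.2.1.1)) x.2.2.1)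

/-- the determined entries -/
noncomputable def NPs (P : N → Exp Sym N) (E : Finset (Exp Sym N)) (c0 : C)
    (hd : ∀ g, d g ≤ h) (g : Fin G)
    (D : Data k G d C) (p : Fin h → Bool) (X : Idx k d g → C) : Finset (Idx k d g) :=
  Finset.univ.filter (fun x : Idx k d g =>
    NoProbe P (E : Set (Exp Sym N)) (Iv k d g) (wq x.2) (uw c0 (Function.update D g X) (ovp d g p x.1)) ∧
    ∀ i : Fin G, i ≠ g → D i (pre hd i (ovp d g p x.1), x.2) ≠ c0)

lemma ofNat_inj {n a b : ℕ} [NeZero n] (ha : a < n) (hb : b < n)
    (h : Fin.ofNat n a = Fin.ofNat n b) : a = b := by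
  have := congrArg Fin.val h
  simp only [Fin.ofNat] at this
  rwa [Nat.mod_eq_of_lt ha, Nat.mod_eq_of_lt hb] at this

/-- equal side information implies agreement of all rows outside epoch `g` -/
lemma agree (E : Finset (Exp Sym N)) (c0 : C) (g : Fin G)
    (D : Data k G d C) (p : Fin h → Bool) (X X' : Idx k d g → C)
    (h1 : tau1 (h := h) P E c0 g D X = tau1 P E c0 g D X')
    (h2 : tau2 P E c0 g D p X = tau2 P E c0 g D p X')
    (a : Fin (d g) → Bool) (l : ℕ) (hl : l ≤ zl k d G + h + 1) (hI : l ∉ Iv k d g)
    (e : Exp Sym N) (he : e ∈ E) :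
    code P (suf (uw c0 (Function.update D g X) (ovp d g p a)) l) e =
      code P (suf (uw c0 (Function.update D g X') (ovp d g p a)) l) e := by
  have hle : ∀ Y : Idx k d g → C, ∀ l', l' ≤ zl k d G →
      suf (uw c0 (Function.update D g Y) (ovp d g p a)) l' =
        suf (Zw k d (FF c0 (Function.update D g Y)) G) l' := by
    intro Y l' hl'
    unfold uw
    rw [← List.cons_append, suf_append]
    rw [length_Zw]; exact hl'
  by_cases hA : l ≤ zl k d g
  · -- old rows: identical suffixes
    have hZ : Zw k d (FF c0 (Function.update D g X)) g = Zw k d (FF c0 (Function.update D g X')) g := by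
      apply Zw_congr
      intro j hj
      have hjG : j < G := lt_trans hj g.2
      funext la lq
      unfold FF
      rw [dif_pos hjG, dif_pos hjG]
      have hne : (⟨j, hjG⟩ : Fin G) ≠ g := by
        intro h
        rw [← h] at hj
        simp at hj
      rw [Function.update_of_ne hne, Function.update_of_ne hne]
    have hgG : zl k d g ≤ zl k d G := zl_mono k d g.2.le
    rw [hle X l (by omega), hle X' l (by omega)]
    obtain ⟨A, hA1⟩ := Zw_suffix k d (FF c0 (Function.update D g X)) g G g.2.le
    obtain ⟨A', hA2⟩ := Zw_suffix k d (FF c0 (Function.update D g X')) g G g.2.le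
    rw [hA1, hA2, suf_append (by rw [length_Zw]; exact hA), suf_append (by rw [length_Zw]; exact hA),
      hZ]
  · have hB : zl k d (g + 1) < l := by
      by_contra hcon
      exact hI ⟨by omega, by omega⟩
    by_cases hCc : l ≤ zl k d G
    · rw [hle X l hCc, hle X' l hCc]
      have := congrFun h1 (⟨l - (zl k d (g + 1) + 1), by omega⟩, ⟨e, he⟩)
      unfold tau1 at this
      simp only at this
      have hl2 : zl k d (↑g + 1) + 1 + (l - (zl k d (↑g + 1) + 1)) = l := by omega
      rw [hl2] at this
      have hb : ∀ Y : Idx k d g → C,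
          code P (suf (Zw k d (FF c0 (Function.update D g Y)) G) l) e < zl k d G + h + 1 + 3 := by
        intro Y
        have h3 := code_le (P := P) e (suf (Zw k d (FF c0 (Function.update D g Y)) G) l)
        rw [suf_length (by rw [length_Zw]; exact hCc)] at h3
        omega
      exact ofNat_inj (hb X) (hb X') this
    · have := congrFun h2 (a, ⟨l - (zl k d G + 1), by omega⟩, ⟨e, he⟩)
      unfold tau2 at this
      simp only at this
      have hl2 : zl k d G + 1 + (l - (zl k d G + 1)) = l := by omega
      rw [hl2] at this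
      have hb : ∀ Y : Idx k d g → C,
          code P (suf (uw c0 (Function.update D g Y) (ovp d g p a)) l) e < zl k d G + h + 1 + 3 := by
        intro Y
        have h3 := code_le (P := P) e (suf (uw c0 (Function.update D g Y) (ovp d g p a)) l)
        rw [suf_length (by rw [length_uw]; exact hl)] at h3
        omega
      exact ofNat_inj (hb X) (hb X') this

/-- consistency of the determined entries -/
lemma consistent {E : Finset (Exp Sym N)} (hE : Closed P (E : Set (Exp Sym N))) {S : N}
    (hS : Exp.nt S ∈ E) (hk : 1 ≤ k) (c0 : C) (hd : ∀ g, d g ≤ h)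
    (hP : ∀ w : List Sym, w ∈ L₁ * (⊤ : Language Sym) ↔ Run P (Exp.nt S) w (some []))
    (g : Fin G) (D : Data k G d C) (p : Fin h → Bool) (X X' : Idx k d g → C)
    (h1 : tau1 (h := h) P E c0 g D X = tau1 P E c0 g D X')
    (h2 : tau2 P E c0 g D p X = tau2 P E c0 g D p X') :
    NPs P E c0 hd g D p X = NPs P E c0 hd g D p X' ∧
      ∀ x ∈ NPs P E c0 hd g D p X, (X x = c0 ↔ X' x = c0) := by
  have hlen : ∀ a : Fin (d g) → Bool, (uw c0 (Function.update D g X) (ovp d g p a)).length =
      (uw c0 (Function.update D g X') (ovp d g p a)).length := by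
    intro a; rw [length_uw, length_uw]
  have hag : ∀ a : Fin (d g) → Bool, ∀ l, l ≤ (uw c0 (Function.update D g X) (ovp d g p a)).length →
      l ∉ Iv k d g → ∀ e ∈ (E : Set (Exp Sym N)),
      code P (suf (uw c0 (Function.update D g X) (ovp d g p a)) l) e =
      code P (suf (uw c0 (Function.update D g X') (ovp d g p a)) l) e := by
    intro a l hl hI e he
    rw [length_uw] at hl
    exact agree E c0 g D p X X' h1 h2 a l hl hI e (by simpa using he)
  constructor
  · unfold NPs
    apply Finset.filter_congr
    intro x _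
    constructor
    · rintro ⟨h3, h4⟩
      exact ⟨noProbe_transfer hE (hlen x.1) (hag x.1) _ h3, h4⟩
    · rintro ⟨h3, h4⟩
      refine ⟨noProbe_transfer hE (hlen x.1).symm ?_ _ h3, h4⟩
      intro l hl hI e he
      exact (hag x.1 l (by rw [hlen]; exact hl) hI e he).symm
  · intro x hx
    unfold NPs at hx
    simp only [Finset.mem_filter, Finset.mem_univ, true_and] at hx
    obtain ⟨h3, h4⟩ := hx
    have hne : wq x.2 ≠ [] := by
      intro h0
      have := congrArg List.length h0
      rw [length_wq] at this
      simp at this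
      omega
    have htr := transfer hE (hlen x.1) (hag x.1) _ h3 (wq x.2) (List.suffix_refl _) hne
      (Exp.nt S) (by simpa using hS)
    have hval : ∀ Y : Idx k d g → C,
        (code P (wq x.2 ++ uw c0 (Function.update D g Y) (ovp d g p x.1)) (Exp.nt S) = 2 ↔
          Y x = c0) := by
      intro Y
      have e1 : code P (wq x.2 ++ uw c0 (Function.update D g Y) (ovp d g p x.1)) (Exp.nt S) = 2 ↔
          Run P (Exp.nt S) (wq x.2 ++ uw c0 (Function.update D g Y) (ovp d g p x.1)) (some []) := by
        constructor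
        · intro hc
          obtain ⟨s, hs1, hs2⟩ := run_some_of_code (l := 0) hc
          have : s = [] := List.length_eq_zero_iff.1 hs1
          rw [this] at hs2
          exact hs2
        · intro hr
          rw [code_eq hr]; rfl
      rw [e1, ← hP, mem_word c0 hd]
      constructor
      · rintro ⟨i, hi⟩
        by_cases hig : i = g
        · subst hig
          rw [Function.update_self, pre_ovp] at hi
          exact hi
        · rw [Function.update_of_ne hig] at hi
          exact absurd hi (h4 i hig)
      · intro hY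
        refine ⟨g, ?_⟩
        rw [Function.update_self, pre_ovp]
        exact hY
    rw [← hval X, ← hval X', htr]

end Epoch

end Pool.Agent.Helper82.PEG
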